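import Mathlib
import Pool.Agent.H391R2.NtC

/-!
# Labels of free orbits of a subgroup
-/

set_option autoImplicit false

namespace Pool.Agent.N600.NS

open Pool.Agent.H391R2

/-- Labels of free orbits. -/
theorem exists_cl {G K : Type} [Group G] (G₀ : Subgroup G) :
    ∃ cl : (G → K) → Abelianization G₀,
    ∀ v : G → K, (∀ g : G₀, v ∘ Equiv.mulLeft (g : G) = v → g = 1) → ∀ g : G₀,
      cl (v ∘ Equiv.mulLeft (g : G)) = cl v * Abelianization.of g := by
  classical
  have hcomp : ∀ (v : G → K) (g h : G), (v ∘ Equiv.mulLeft g) ∘ Equiv.mulLeft h =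
      v ∘ Equiv.mulLeft (g * h) := by
    intro v g h
    funext x
    simp [mul_assoc]
  have hone : ∀ v : G → K, v ∘ Equiv.mulLeft 1 = v := by
    intro v
    funext x
    simp
  let S : Setoid (G → K) :=
    { r := fun v w => ∃ g : G₀, w = v ∘ Equiv.mulLeft (g : G)
      iseqv :=
        { refl := fun v => ⟨1, (hone v).symm⟩
          symm := by
            rintro v w ⟨g, rfl⟩
            refine ⟨g⁻¹, ?_⟩
            rw [hcomp, Subgroup.coe_inv, mul_inv_cancel, hone]
          trans := by
            rintro v w x ⟨g, rfl⟩ ⟨h, rfl⟩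
            exact ⟨g * h, by rw [hcomp]; rfl⟩ } }
  let ref : (G → K) → (G → K) := fun v => (Quotient.mk S v).out
  have href : ∀ v, ∃ g : G₀, v = ref v ∘ Equiv.mulLeft (g : G) := fun v => Quotient.mk_out (s := S) v
  choose c hc using href
  refine ⟨fun v => Abelianization.of (c v), fun v hv g => ?_⟩
  have h1 : ref (v ∘ Equiv.mulLeft (g : G)) = ref v := by
    simp only [ref]
    congr 1
    exact Quotient.sound (s := S) ⟨g⁻¹, by rw [hcomp, Subgroup.coe_inv, mul_inv_cancel, hone]⟩
  have h2 := hc (v ∘ Equiv.mulLeft (g : G))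
  have h3 := hc v
  rw [h1] at h2
  change Abelianization.of (c (v ∘ Equiv.mulLeft (g : G))) = Abelianization.of (c v) * _
  rw [← map_mul]
  congr 1
  generalize c (v ∘ Equiv.mulLeft (g : G)) = b at h2
  generalize c v = a at h3
  generalize ref v = w at h2 h3
  subst h3
  rw [hcomp] at h2
  have h4 : (w ∘ Equiv.mulLeft (a : G)) ∘ Equiv.mulLeft ((a⁻¹ * b * g⁻¹ : G₀) : G) =
      w ∘ Equiv.mulLeft (a : G) := by
    have h5 := congrArg (fun u : G → K => u ∘ Equiv.mulLeft ((g : G)⁻¹)) h2
    simp only [hcomp] at h5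
    rw [mul_assoc, mul_inv_cancel, mul_one] at h5
    rw [hcomp, h5]
    congr 2
    push_cast
    group
  have h6 := hv _ h4
  have h7 : a⁻¹ * b = g := by
    rwa [mul_inv_eq_one] at h6
  rw [← h7, mul_inv_cancel_left]

end Pool.Agent.N600.NS
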