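import Mathlib
import Pool.Agent.N600.NS.NtC
import Pool.Agent.H391R2.T4.Par

/-!
# Polynomials with a given group of symmetries
-/

set_option autoImplicit false

namespace Pool.Agent.N600.NS

open MvPolynomial
open Pool.Agent.H391R2 hiding PhiP_eval_prod Phi_eval_prod Sol SolP SolP_Pc SolP_map SolP_mulLeft
  SolP_of_map SolP_root Sol_map Sol_mulLeft Sol_root aeval_mem_orb aeval_mulLeft class_eq
  exists_Sol exists_SolP exists_psi indep_v main_abs mem_orb norm_theorem norm_theorem_aux nt_core
  orb orb_image pair_aut pair_indep pr psi_map qv qv_map rename_mem_orb rr rr_eq rr_map sol_place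
  stab_path tv tv_mulLeft uniq_of_y0 unique_v
open Pool.Agent.H391R2.T4

set_option linter.unusedSectionVars false

/-- A polynomial whose symmetry group is exactly `G₀` acting by left translations. -/
structure YD {k G : Type} [Field k] [Group G] (G₀ : Subgroup G) (y : MvPolynomial G k) : Prop where
  inv : ∀ g : G₀, rename (Equiv.mulLeft (g : G)) y = y
  stab : ∀ π : Equiv.Perm G, rename π y = y → ∃ g : G₀, π = Equiv.mulLeft (g : G)

section

variable {k : Type} [Field k] {G : Type} [Group G] [Fintype G] {G₀ : Subgroup G}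
  {y : MvPolynomial G k} (hY : YD G₀ y)

include hY

theorem aeval_mulLeft {E : Type} [CommRing E] [Algebra k E] (v : G → E) (g : G₀) :
    aeval (v ∘ Equiv.mulLeft (g : G)) y = aeval v y := by
  rw [← aeval_mem_orb, hY.inv]

theorem tv_mulLeft {E : Type} [CommRing E] [Algebra k E] (v : G → E) (g : G₀)
    (i : Option (Fin (Fintype.card G))) :
    aeval (v ∘ Equiv.mulLeft (g : G)) (tv y i) = aeval v (tv y i) := by
  cases i with
  | none => exact aeval_mulLeft hY v g
  | some i => exact aeval_esymm_comp k G v _ _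

theorem Sol_mulLeft (base : Option (Fin (Fintype.card G)) → Polynomial k) (w : Polynomial k)
    {E : Type} [CommRing E] [Algebra k E]
    (θ : Option (Fin (Fintype.card G)) ⊕ Option (Fin (Fintype.card G)) → E) (s : E)
    (v : G → E) (g : G₀) (h : Sol y base w θ s v) :
    Sol y base w θ s (v ∘ Equiv.mulLeft (g : G)) :=
  ⟨h.1, fun i => by rw [tv_mulLeft hY]; exact h.2 i⟩

theorem unique_v (base : Option (Fin (Fintype.card G)) → Polynomial k) (w : Polynomial k)
    {E : Type} [Field E] [Algebra k E]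
    (θ : Option (Fin (Fintype.card G)) ⊕ Option (Fin (Fintype.card G)) → E) (s : E)
    (v u : G → E) (hv : AlgebraicIndependent k v) (h : Sol y base w θ s v)
    (h' : Sol y base w θ s u) : ∃ g : G₀, u = v ∘ Equiv.mulLeft (g : G) := by
  obtain ⟨π, rfl⟩ := exists_perm_of_esymm (k := k) v u (fun i => (h.2 (some i)).trans
    (h'.2 (some i)).symm)
  have h1 : aeval v (rename π y) = aeval v y := by
    rw [aeval_mem_orb]
    exact (h'.2 none).trans (h.2 none).symm
  obtain ⟨g, rfl⟩ := hY.stab π (algebraicIndependent_iff_injective_aeval.1 hv h1)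
  exact ⟨g, rfl⟩

theorem SolP_mulLeft {E : Type} [CommRing E] [Algebra k E]
    (P : Option (Fin (Fintype.card G)) → Polynomial E) (s : E) (v : G → E) (g : G₀)
    (h : SolP y P s v) : SolP y P s (v ∘ Equiv.mulLeft (g : G)) :=
  fun i => by rw [tv_mulLeft hY]; exact h i

theorem kp_twist [CharZero k] (l : G → k) (h : G) (hh : h ∈ G₀) (ζ : k) (e : ℕ) (he : h ^ e = 1)
    (hζ : ζ ^ e = 1) (hζ0 : ζ ≠ 0) (i : Option (Fin (Fintype.card G))) {A : Type} [CommRing A]
    [Algebra k A] (Y : A) :
    aeval (fun x => Polynomial.aeval (algebraMap k A ζ * Y) (Mv l h ζ e x)) (tv y i) =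
      aeval (fun x => Polynomial.aeval Y (Mv l h ζ e x)) (tv y i) := by
  have h1 : (fun x => Polynomial.aeval (algebraMap k A ζ * Y) (Mv l h ζ e x)) =
      (fun x => Polynomial.aeval Y (Mv l h ζ e x)) ∘ Equiv.mulLeft ((⟨h, hh⟩ : G₀) : G) := by
    funext x
    exact Mv_twist l h ζ e he hζ hζ0 x Y
  rw [h1, tv_mulLeft hY]

/-- Base change. -/
theorem YD.bc {k₁ : Type} [Field k₁] [Algebra k k₁] : YD G₀ (bcy k₁ y) := by
  refine ⟨fun g => ?_, fun π h => ?_⟩
  · unfold bcy
    rw [← MvPolynomial.map_rename, hY.inv]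
  · unfold bcy at h
    rw [← MvPolynomial.map_rename] at h
    exact hY.stab π (bc_inj G h)

end

end Pool.Agent.N600.NS
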