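import Mathlib
import Pool.Agent.N600.NS.NtD

/-!
# The norm theorem
-/

set_option autoImplicit false

namespace Pool.Agent.N600.NS

open MvPolynomial
open Pool.Agent.H391R2 hiding PhiP_eval_prod Phi_eval_prod Sol SolP SolP_Pc SolP_map SolP_mulLeft
  SolP_of_map SolP_root Sol_map Sol_mulLeft Sol_root aeval_mem_orb aeval_mulLeft class_eq
  exists_Sol exists_SolP exists_psi indep_v main_abs mem_orb norm_theorem norm_theorem_aux nt_core
  orb orb_image pair_aut pair_indep pr psi_map qv qv_map rename_mem_orb rr rr_eq rr_map sol_place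
  stab_path tv tv_mulLeft uniq_of_y0 unique_v
open Pool.Agent.H391R2.T4

set_option linter.unusedSectionVars false

section nte

variable {k K : Type} [Field k] [Field K] [Algebra k K] {G : Type} [Group G] [Fintype G]
  (G₀ : Subgroup G) (y : MvPolynomial G k)

theorem norm_theorem_aux [IsAlgClosed K] [CharZero K]
    (Ψ : Polynomial (MvPolynomial (Fin (Fintype.card G)) k))
    (hΨ : Ψ.map ((aeval fun i : Fin (Fintype.card G) => esymm G k (i + 1) :
      MvPolynomial (Fin (Fintype.card G)) k →ₐ[k] MvPolynomial G k) :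
      MvPolynomial (Fin (Fintype.card G)) k →+* MvPolynomial G k) =
      ∏ q ∈ orb y, (Polynomial.X - Polynomial.C q))
    (P : Option (Fin (Fintype.card G)) → Polynomial (Polynomial K)) {D : ℕ} (c₀ : K)
    (hc₀ : c₀ ≠ 0) (hdeg : (PhiP Ψ P).natDegree = D)
    (hlc : (PhiP Ψ P).leadingCoeff = Polynomial.C c₀)
    (hstab : ∀ (x s : K) (v : G → K),
      SolP y (fun i => (P i).map (Polynomial.evalRingHom x)) s v →
        ∀ g : G₀, v ∘ Equiv.mulLeft (g : G) = v → g = 1)
    (γ : K →ₐ[k] K) (hγ : ∀ i, (P i).map (Polynomial.mapRingHom (γ : K →+* K)) = P i)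
    (h0 : ∀ s (v : G → K), SolP y (fun i => (P i).map (Polynomial.evalRingHom 0)) s v →
      ∀ g, γ (v g) = v g)
    (t : Fin D → K) (ht : Function.Injective t) (u : Fin D → G → K)
    (hu : ∀ a, SolP y (fun i => (P i).map (Polynomial.evalRingHom 1)) (t a) (u a))
    (huinj : ∀ a, Function.Injective (u a))
    (huniq : ∀ a (w : G → K), SolP y (fun i => (P i).map (Polynomial.evalRingHom 1)) (t a) w →
      ∃ g : G₀, w = u a ∘ Equiv.mulLeft (g : G))
    (σ : Equiv.Perm (Fin D)) (f : Fin D → G₀)
    (hσf : ∀ a g, γ (u a g) = u (σ a) (f a * g))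
    (K₀ Ω : Type) [Field K₀] [Algebra (Polynomial K) K₀] [IsFractionRing (Polynomial K) K₀]
    [Field Ω] [Algebra K₀ Ω] [Algebra (Polynomial K) Ω] [IsScalarTower (Polynomial K) K₀ Ω]
    [Algebra k Ω] [IsScalarTower k (Polynomial K) Ω] [IsAlgClosed Ω] :
    ∏ a, Abelianization.of (f a) = 1 := by
  classical
  have hinjΩ : Function.Injective (algebraMap (Polynomial K) Ω) := by
    rw [IsScalarTower.algebraMap_eq (Polynomial K) K₀ Ω]
    exact (algebraMap K₀ Ω).injective.comp (IsFractionRing.injective (Polynomial K) K₀)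
  have hchar : CharZero K₀ :=
    charZero_of_injective_algebraMap (IsFractionRing.injective (Polynomial K) K₀)
  let CC := integralClosure (Polynomial K) Ω
  have hinjCC : Function.Injective (algebraMap (Polynomial K) CC) := by
    intro p q hpq
    exact hinjΩ (congrArg (fun y : CC => (y : Ω)) hpq)
  have hfs' : FaithfulSMul (Polynomial K) CC := (faithfulSMul_iff_algebraMap_injective _ _).2 hinjCC
  -- roots
  set Φ := PhiP Ψ P with hΦ
  let PΩ : Option (Fin (Fintype.card G)) → Polynomial Ω := fun i =>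
    (P i).map (algebraMap (Polynomial K) Ω)
  have hΦΩ : Φ.map (algebraMap (Polynomial K) Ω) = PhiP Ψ PΩ :=
    PhiP_map Ψ (IsScalarTower.toAlgHom k (Polynomial K) Ω) P
  have hdegΩ : (PhiP Ψ PΩ).natDegree = D := by
    rw [← hΦΩ, Polynomial.natDegree_map_eq_of_injective hinjΩ, hdeg]
  have hlcΩ : (PhiP Ψ PΩ).leadingCoeff = algebraMap (Polynomial K) Ω (Polynomial.C c₀) := by
    rw [← hΦΩ, Polynomial.leadingCoeff_map_of_injective hinjΩ, hlc]
  obtain ⟨r, hr⟩ := exists_enum (PhiP Ψ PΩ) D hdegΩ
  rw [hlcΩ] at hr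
  have hroot : ∀ a, (PhiP Ψ PΩ).eval (r a) = 0 := by
    intro a
    rw [hr, Polynomial.eval_mul, Polynomial.eval_prod]
    rw [Finset.prod_eq_zero (Finset.mem_univ a) (by simp), mul_zero]
  have hexv : ∀ a, ∃ v : G → Ω, SolP y PΩ (r a) v := fun a => exists_SolP y Ψ hΨ PΩ (r a) (hroot a)
  choose v hv using hexv
  have hunit : IsUnit (Polynomial.C c₀) := Polynomial.isUnit_C.2 hc₀.isUnit
  have hrint : ∀ a, IsIntegral (Polynomial K) (r a) := by
    intro a
    refine ⟨Polynomial.C (Polynomial.C c₀⁻¹) * Φ, ?_, ?_⟩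
    · rw [Polynomial.Monic, Polynomial.leadingCoeff_mul, Polynomial.leadingCoeff_C, hlc,
        ← Polynomial.C_mul, inv_mul_cancel₀ hc₀, Polynomial.C_1]
    · rw [Polynomial.eval₂_mul, ← Polynomial.eval_map, ← Polynomial.eval_map, hΦΩ, hroot, mul_zero]
  have hvint : ∀ a g, IsIntegral (Polynomial K) (v a g) := by
    intro a g
    have hmem : ∀ i, (PΩ i).eval (r a) ∈ integralClosure (Polynomial K) Ω := by
      intro i
      simp only [PΩ]
      rw [Polynomial.eval_map_algebraMap]
      exact Algebra.adjoin_le (Set.singleton_subset_iff.2 (hrint a))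
        (Polynomial.aeval_mem_adjoin_singleton _ _)
    have h3 : IsIntegral (integralClosure (Polynomial K) Ω) (v a g) := by
      refine ⟨Pc fun i' => (⟨_, hmem (some i')⟩ : integralClosure (Polynomial K) Ω),
        (Pc_natDegree _).1, ?_⟩
      rw [← Polynomial.eval_map, Pc_map]
      exact SolP_Pc y PΩ (r a) (v a) (hv a) g
    exact isIntegral_trans _ h3
  let rC : Fin D → CC := fun a => ⟨r a, hrint a⟩
  let ιC : CC →ₐ[k] Ω := (integralClosure (Polynomial K) Ω).val.restrictScalars k
  have hιC : Function.Injective ιC := Subtype.val_injective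
  have hPCC : (fun i => ((P i).map (algebraMap (Polynomial K) CC)).map (ιC : CC →+* Ω)) = PΩ := by
    funext i
    rw [Polynomial.map_map]
    rfl
  have hΦC : Φ.map (algebraMap (Polynomial K) CC) =
      Polynomial.C (algebraMap (Polynomial K) CC (Polynomial.C c₀)) *
        ∏ a, (Polynomial.X - Polynomial.C (rC a)) := by
    apply Polynomial.map_injective (ιC : CC →+* Ω) hιC
    rw [Polynomial.map_map, Polynomial.map_mul, Polynomial.map_prod]
    simp only [Polynomial.map_sub, Polynomial.map_X, Polynomial.map_C]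
    exact hΦΩ.trans hr
  -- the place at one
  have hτ : ∀ φ : CC →+* K, (∀ p, φ (algebraMap (Polynomial K) _ p) = p.eval 1) →
      ∃ τ : Equiv.Perm (Fin D), ∀ a, φ (rC a) = t (τ a) := by
    intro φ hφ
    have h1 : PhiP Ψ (fun i => (P i).map (Polynomial.evalRingHom (1 : K))) =
        Polynomial.C c₀ * ∏ a, (Polynomial.X - Polynomial.C (φ (rC a))) := by
      have h2 := congrArg (Polynomial.map φ) hΦC
      rw [Polynomial.map_map, Polynomial.map_mul, Polynomial.map_prod] at h2
      simp only [Polynomial.map_sub, Polynomial.map_X, Polynomial.map_C] at h2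
      rw [hφ, Polynomial.eval_C] at h2
      rw [← h2]
      let ev : Polynomial K →ₐ[k] K := (Polynomial.aeval (1 : K)).restrictScalars k
      have h3 := PhiP_map Ψ ev P
      have h4 : (ev : Polynomial K →+* K) = Polynomial.evalRingHom 1 := by
        apply RingHom.ext
        intro p
        change Polynomial.aeval (1 : K) p = _
        rw [Polynomial.coe_aeval_eq_eval]
        rfl
      rw [h4] at h3
      rw [← h3, hΦ]
      congr 1
      apply RingHom.ext
      intro p
      exact (hφ p).symm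
    have h2 : ∀ b, ∃ a, t b = φ (rC a) := by
      intro b
      have h3 := SolP_root y Ψ hΨ _ _ _ (hu b)
      rw [h1, Polynomial.eval_mul, Polynomial.eval_C, Polynomial.eval_prod, mul_eq_zero] at h3
      have h4 := h3.resolve_left hc₀
      rw [Finset.prod_eq_zero_iff] at h4
      obtain ⟨a, -, ha⟩ := h4
      refine ⟨a, ?_⟩
      rw [Polynomial.eval_sub, Polynomial.eval_X, Polynomial.eval_C] at ha
      exact sub_eq_zero.1 ha
    choose b hb using h2
    have hbinj : Function.Injective b := by
      intro x y hxy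
      apply ht
      rw [hb, hb, hxy]
    let β : Equiv.Perm (Fin D) := Equiv.ofBijective b (Finite.injective_iff_bijective.1 hbinj)
    refine ⟨β.symm, fun a => ?_⟩
    rw [hb]
    congr 2
    exact (β.apply_symm_apply a).symm
  obtain ⟨φ₁, hφ₁⟩ := place_exists (C := CC) (1 : K)
  obtain ⟨τ₁, hτ₁⟩ := hτ φ₁ hφ₁
  have hrinj : Function.Injective r := by
    intro a b hab
    have h1 : rC a = rC b := Subtype.ext hab
    apply τ₁.injective
    apply ht
    rw [← hτ₁, ← hτ₁, h1]
  -- images of integral solutions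
  have himg : ∀ (φ : CC →+* K) (x : K), (∀ p, φ (algebraMap (Polynomial K) _ p) = p.eval x) →
      ∀ a (w : G → CC), SolP y PΩ (r a) (fun g => (w g : Ω)) →
        SolP y (fun i => (P i).map (Polynomial.evalRingHom x)) (φ (rC a)) (fun g => φ (w g)) := by
    intro φ x hφ a w hw
    apply sol_place y φ x hφ
    refine SolP_of_map y ιC hιC _ _ _ ?_
    rw [hPCC]
    exact hw
  have huniqΩ : ∀ a (w : G → Ω), SolP y PΩ (r a) w → ∃ g : G₀, w = v a ∘ Equiv.mulLeft (g : G) := by
    intro a w hw
    obtain ⟨π, rfl⟩ := exists_perm_of_esymm (k := k) (v a) w (fun i => (hv a (some i)).trans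
      (hw (some i)).symm)
    let vC : G → CC := fun g => ⟨v a g, hvint a g⟩
    have h1 := himg φ₁ 1 hφ₁ a vC (hv a)
    have h2 := himg φ₁ 1 hφ₁ a (vC ∘ π) hw
    rw [hτ₁] at h1 h2
    obtain ⟨g₁, hg₁⟩ := huniq _ _ h1
    obtain ⟨g₂, hg₂⟩ := huniq _ _ h2
    refine ⟨g₁⁻¹ * g₂, ?_⟩
    funext x
    have h3 : φ₁ (vC (π x)) = u (τ₁ a) (g₁ * π x) := congrFun hg₁ (π x)
    have h4 : φ₁ (vC (π x)) = u (τ₁ a) (g₂ * x) := congrFun hg₂ x
    rw [h3] at h4
    have h5 := huinj _ h4
    have h6 : π x = (g₁ : G)⁻¹ * g₂ * x := by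
      rw [mul_assoc, ← h5, inv_mul_cancel_left]
    change v a (π x) = v a ((g₁ : G)⁻¹ * g₂ * x)
    rw [h6]
  have hvinj : ∀ a, Function.Injective (v a) := by
    intro a x y hxy
    let vC : G → CC := fun g => ⟨v a g, hvint a g⟩
    have h1 := himg φ₁ 1 hφ₁ a vC (hv a)
    rw [hτ₁] at h1
    obtain ⟨g₁, hg₁⟩ := huniq _ _ h1
    have h2 : vC x = vC y := Subtype.ext hxy
    have h3 : φ₁ (vC x) = u (τ₁ a) (g₁ * x) := congrFun hg₁ x
    have h4 : φ₁ (vC y) = u (τ₁ a) (g₁ * y) := congrFun hg₁ y
    rw [h2, h4] at h3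
    exact mul_left_cancel (huinj _ h3).symm
  -- the finite Galois extension
  let S : Finset Ω := (Finset.univ.image r) ∪ (Finset.univ.image fun q : Fin D × G => v q.1 q.2)
  have hSint : ∀ x ∈ S, IsIntegral K₀ x := by
    intro x hx
    rcases Finset.mem_union.1 hx with hx | hx
    · obtain ⟨a, -, rfl⟩ := Finset.mem_image.1 hx
      exact (hrint a).tower_top
    · obtain ⟨q, -, rfl⟩ := Finset.mem_image.1 hx
      exact (hvint q.1 q.2).tower_top
  obtain ⟨M, iM1, iM2, iM3, iM4, j, hj⟩ := exists_galois' (F := K₀) S hSint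
  have hr' : ∀ a : Fin D, ∃ y : M, j y = r a := fun a => hj _
    (Finset.mem_union_left _ (Finset.mem_image_of_mem _ (Finset.mem_univ a)))
  have hv' : ∀ (a : Fin D) (g : G), ∃ y : M, j y = v a g := fun a g => hj _
    (Finset.mem_union_right _ (Finset.mem_image_of_mem (fun q : Fin D × G => v q.1 q.2)
      (Finset.mem_univ (a, g))))
  choose rM hrM using hr'
  choose vM hvM using hv'
  let _ : Algebra (Polynomial K) M := ((algebraMap K₀ M).comp (algebraMap (Polynomial K) K₀)).toAlgebra
  have hT1 : IsScalarTower (Polynomial K) K₀ M := IsScalarTower.of_algebraMap_eq fun x => rfl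
  let _ : Algebra k M := ((algebraMap (Polynomial K) M).comp (algebraMap k (Polynomial K))).toAlgebra
  have hT2 : IsScalarTower k (Polynomial K) M := IsScalarTower.of_algebraMap_eq fun x => rfl
  let jA : M →ₐ[Polynomial K] Ω := j.restrictScalars (Polynomial K)
  let jk : M →ₐ[k] Ω := jA.restrictScalars k
  have hjk : ∀ y, jk y = j y := fun y => rfl
  have hPM : (fun i => ((P i).map (algebraMap (Polynomial K) M)).map (jk : M →+* Ω)) = PΩ := by
    funext i
    rw [Polynomial.map_map]
    simp only [PΩ]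
    congr 1
    apply RingHom.ext
    intro p
    exact jA.commutes p
  have hsolM : ∀ a, SolP y (fun i => (P i).map (algebraMap (Polynomial K) M)) (rM a) (vM a) := by
    intro a
    refine SolP_of_map y jk jk.injective _ _ _ ?_
    rw [hPM]
    have h1 : jk ∘ (vM a) = v a := funext fun g => hvM a g
    rw [h1, hjk, hrM]
    exact hv a
  refine nt_core G₀ y P hstab γ h0 u (fun a g hg => ?_) σ f hσf (K₀ := K₀) (Ω := Ω) (M := M) j rM vM
    (fun a => ?_) (fun a g => ?_) (fun a x y hxy => ?_) hsolM ?_ ?_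
  · have h1 := huinj a (congrFun hg 1)
    apply Subtype.ext
    simpa using h1
  · rw [← isIntegral_algHom_iff jA jA.injective]
    change IsIntegral (Polynomial K) (j (rM a))
    rw [hrM]
    exact hrint a
  · rw [← isIntegral_algHom_iff jA jA.injective]
    change IsIntegral (Polynomial K) (j (vM a g))
    rw [hvM]
    exact hvint a g
  · apply hvinj a
    rw [← hvM, ← hvM, hxy]
  · -- permutations
    rintro η ⟨γ', hγ', hη⟩
    have hγP : ∀ i, (P i).map (Polynomial.mapRingHom (γ' : K →+* K)) = P i := by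
      intro i
      rcases hγ' with rfl | rfl
      · exact hγ i
      · have h1 : Polynomial.mapRingHom ((AlgHom.id k K : K →ₐ[k] K) : K →+* K) = RingHom.id _ := by
          apply RingHom.ext
          intro p
          exact Polynomial.map_id
        rw [h1, Polynomial.map_id]
    let ηk : M →ₐ[k] Ω :=
      { η with
        commutes' := fun c => by
          change η (algebraMap k M c) = _
          rw [IsScalarTower.algebraMap_apply k (Polynomial K) M, hη,
            IsScalarTower.algebraMap_apply k (Polynomial K) Ω]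
          congr 1
          rw [Polynomial.algebraMap_apply, Polynomial.map_C]
          congr 1
          exact γ'.commutes c }
    have hηk : ∀ y, ηk y = η y := fun y => rfl
    have hPη : (fun i => ((P i).map (algebraMap (Polynomial K) M)).map (ηk : M →+* Ω)) = PΩ := by
      funext i
      rw [Polynomial.map_map]
      have h1 : ((ηk : M →+* Ω)).comp (algebraMap (Polynomial K) M) =
          (algebraMap (Polynomial K) Ω).comp (Polynomial.mapRingHom (γ' : K →+* K)) := by
        apply RingHom.ext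
        intro p
        exact hη p
      rw [h1, ← Polynomial.map_map, hγP]
    have hηsol : ∀ a, SolP y PΩ (η (rM a)) (fun g => η (vM a g)) := by
      intro a
      have h1 := SolP_map y ηk _ _ _ (hsolM a)
      rw [hPη] at h1
      exact h1
    have h2 : ∀ a, ∃ b, η (rM a) = r b := by
      intro a
      have h3 := SolP_root y Ψ hΨ _ _ _ (hηsol a)
      rw [hr, Polynomial.eval_mul, Polynomial.eval_C, Polynomial.eval_prod, mul_eq_zero] at h3
      have h4 := h3.resolve_left ((map_ne_zero_iff _ hinjΩ).2 (Polynomial.C_ne_zero.2 hc₀))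
      rw [Finset.prod_eq_zero_iff] at h4
      obtain ⟨b, -, hb⟩ := h4
      refine ⟨b, ?_⟩
      rw [Polynomial.eval_sub, Polynomial.eval_X, Polynomial.eval_C] at hb
      exact sub_eq_zero.1 hb
    choose b hb using h2
    have hbinj : Function.Injective b := by
      intro x y hxy
      apply hrinj
      rw [← hrM, ← hrM]
      congr 1
      apply η.injective
      rw [hb, hb, hxy]
    have h5 : ∀ a, ∃ g : G₀, ∀ y, η (vM a y) = v (b a) (g * y) := by
      intro a
      have h6 := hηsol a
      rw [hb] at h6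
      obtain ⟨g, hg⟩ := huniqΩ _ _ h6
      exact ⟨g, fun y => congrFun hg y⟩
    choose q hq using h5
    refine ⟨Equiv.ofBijective b (Finite.injective_iff_bijective.1 hbinj), q, fun a g => ?_⟩
    rw [hq, hvM]
    rfl
  · intro φ hφ
    obtain ⟨τ, hτa⟩ := hτ φ hφ
    have h1 : ∀ a, ∃ g : G₀, ∀ y, φ ⟨v a y, hvint a y⟩ = u (τ a) (g * y) := by
      intro a
      have h2 := himg φ 1 hφ a (fun y => ⟨v a y, hvint a y⟩) (hv a)
      rw [hτa] at h2
      obtain ⟨g, hg⟩ := huniq _ _ h2
      exact ⟨g, fun y => congrFun hg y⟩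
    choose e he using h1
    refine ⟨τ, e, fun a y z hz => ?_⟩
    rw [← he]
    congr 1
    apply Subtype.ext
    rw [hz, hvM]

/-- The norm theorem. -/
theorem norm_theorem [IsAlgClosed K] [CharZero K]
    (Ψ : Polynomial (MvPolynomial (Fin (Fintype.card G)) k))
    (hΨ : Ψ.map ((aeval fun i : Fin (Fintype.card G) => esymm G k (i + 1) :
      MvPolynomial (Fin (Fintype.card G)) k →ₐ[k] MvPolynomial G k) :
      MvPolynomial (Fin (Fintype.card G)) k →+* MvPolynomial G k) =
      ∏ q ∈ orb y, (Polynomial.X - Polynomial.C q))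
    (P : Option (Fin (Fintype.card G)) → Polynomial (Polynomial K)) {D : ℕ} (c₀ : K)
    (hc₀ : c₀ ≠ 0) (hdeg : (PhiP Ψ P).natDegree = D)
    (hlc : (PhiP Ψ P).leadingCoeff = Polynomial.C c₀)
    (hstab : ∀ (x s : K) (v : G → K),
      SolP y (fun i => (P i).map (Polynomial.evalRingHom x)) s v →
        ∀ g : G₀, v ∘ Equiv.mulLeft (g : G) = v → g = 1)
    (γ : K →ₐ[k] K) (hγ : ∀ i, (P i).map (Polynomial.mapRingHom (γ : K →+* K)) = P i)
    (h0 : ∀ s (v : G → K), SolP y (fun i => (P i).map (Polynomial.evalRingHom 0)) s v →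
      ∀ g, γ (v g) = v g)
    (t : Fin D → K) (ht : Function.Injective t) (u : Fin D → G → K)
    (hu : ∀ a, SolP y (fun i => (P i).map (Polynomial.evalRingHom 1)) (t a) (u a))
    (huinj : ∀ a, Function.Injective (u a))
    (huniq : ∀ a (w : G → K), SolP y (fun i => (P i).map (Polynomial.evalRingHom 1)) (t a) w →
      ∃ g : G₀, w = u a ∘ Equiv.mulLeft (g : G))
    (σ : Equiv.Perm (Fin D)) (f : Fin D → G₀)
    (hσf : ∀ a g, γ (u a g) = u (σ a) (f a * g)) :
    ∏ a, Abelianization.of (f a) = 1 := by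
  exact norm_theorem_aux G₀ y Ψ hΨ P c₀ hc₀ hdeg hlc hstab γ hγ h0 t ht u hu huinj huniq σ f hσf
    (FractionRing (Polynomial K)) (AlgebraicClosure (FractionRing (Polynomial K)))

end nte


end Pool.Agent.N600.NS
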