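import Mathlib
import Pool.Agent.N600.NS.GeoA
import Pool.Agent.N600.NS.Abs

/-!
# The geometric theorem
-/

set_option autoImplicit false

namespace Pool.Agent.N600.NS

open MvPolynomial
open Pool.Agent.H391R2 hiding PhiP_eval_prod Phi_eval_prod Sol SolP SolP_Pc SolP_map SolP_mulLeft
  SolP_of_map SolP_root Sol_map Sol_mulLeft Sol_root aeval_mem_orb aeval_mulLeft class_eq
  exists_Sol exists_SolP exists_psi indep_v main_abs mem_orb norm_theorem norm_theorem_aux nt_core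
  orb orb_image pair_aut pair_indep pr psi_map qv qv_map rename_mem_orb rr rr_eq rr_map sol_place
  stab_path tv tv_mulLeft uniq_of_y0 unique_v
open Pool.Agent.H391R2.T4

set_option linter.unusedSectionVars false

section geob

theorem basis_powA {k N Q S W : Type} [Field k] [Field N] [Algebra k N] [Finite Q] [Finite S]
    [Finite W] (ξ : (Q ⊕ S) ⊕ W → N) (hξ : IsTranscendenceBasis k ξ) (e : ℕ)
    (he : 0 < e) : IsTranscendenceBasis k (Sum.elim (Sum.elim
      (fun q => ξ (Sum.inl (Sum.inl q)) ^ e) (fun s => ξ (Sum.inl (Sum.inr s))))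
      (fun w => ξ (Sum.inr w))) := by
  refine basis_of_alg le_rfl ξ hξ _ fun v => ?_
  set X := (Sum.elim (Sum.elim
      (fun q => ξ (Sum.inl (Sum.inl q)) ^ e) (fun s => ξ (Sum.inl (Sum.inr s))))
      (fun w => ξ (Sum.inr w))) with hX
  have hmem : ∀ v, X v ∈ Algebra.adjoin k (Set.range X) := fun v =>
    Algebra.subset_adjoin ⟨v, rfl⟩
  rcases v with (q | s) | w
  · have h1 := hmem (Sum.inl (Sum.inl q))
    have h2 : IsAlgebraic (Algebra.adjoin k (Set.range X)) (ξ (Sum.inl (Sum.inl q)) ^ e) :=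
      isAlgebraic_algebraMap (⟨_, h1⟩ : Algebra.adjoin k (Set.range X))
    exact h2.of_pow he
  · exact isAlgebraic_algebraMap (⟨_, hmem (Sum.inl (Sum.inr s))⟩ :
      Algebra.adjoin k (Set.range X))
  · exact isAlgebraic_algebraMap (⟨_, hmem (Sum.inr w)⟩ :
      Algebra.adjoin k (Set.range X))

variable {k : Type} [Field k] [CharZero k] {G : Type} [Group G] [Fintype G] {G₀ : Subgroup G}
variable {y : MvPolynomial G k} {Q Z : Type} [Fintype Q] [Fintype Z] [DecidableEq (Q ⊕ Z)]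

theorem nuA_inl {N : Type} [Field N] [Algebra k N] (m : ND k G Q) (Λ : Q ⊕ Z → G → N) (Y : Q → N)
    (q : Q) : nuA m Λ Y (Sum.inl q) = nv (Λ (Sum.inl q)) (m.hh q) (m.ζ q) m.e (Y q) := rfl

theorem nuA_inr {N : Type} [Field N] [Algebra k N] (m : ND k G Q) (Λ : Q ⊕ Z → G → N) (Y : Q → N)
    (p : Z) : nuA m Λ Y (Sum.inr p) = Λ (Sum.inr p) := rfl

theorem nuA_indep {N W : Type} [Field N] [Algebra k N] (ξ : (Q ⊕ ((Q ⊕ Z) × G)) ⊕ W → N)
    (hξ : AlgebraicIndependent k ξ) {m : ND k G Q} (hm : NG G₀ m) (a : Q ⊕ Z) :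
    AlgebraicIndependent k (nuA m (fun a s => ξ (Sum.inl (Sum.inr (a, s))))
      (fun q => ξ (Sum.inl (Sum.inl q))) a) := by
  rcases a with q | p
  · rw [nuA_inl]
    refine nv_indep (fun s => ξ (Sum.inl (Sum.inr (Sum.inl q, s)))) (ξ (Sum.inl (Sum.inl q))) ?_
      (m.hh q) (m.ζ q) m.e hm.he0 (hm.hζ q)
    let f : G ⊕ Unit → (Q ⊕ ((Q ⊕ Z) × G)) ⊕ W :=
      Sum.elim (fun s : G => Sum.inl (Sum.inr ((Sum.inl q : Q ⊕ Z), s)))
        (fun _ : Unit => Sum.inl (Sum.inl q))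
    have hf : Function.Injective f := by
      rintro (a | a) (b | b) hab
      · simp only [f, Sum.elim_inl, Sum.inl.injEq, Sum.inr.injEq, Prod.mk.injEq, true_and] at hab
        rw [hab]
      · simp [f] at hab
      · simp [f] at hab
      · rfl
    have h1 := hξ.comp f hf
    have h2 : ξ ∘ f = Sum.elim
        (fun s => ξ (Sum.inl (Sum.inr ((Sum.inl q : Q ⊕ Z), s))))
        (fun _ => ξ (Sum.inl (Sum.inl q))) := by
      funext v
      rcases v with a | a <;> rfl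
    rw [h2] at h1
    exact h1
  · rw [nuA_inr]
    let f : G → (Q ⊕ ((Q ⊕ Z) × G)) ⊕ W := fun s : G => Sum.inl (Sum.inr ((Sum.inr p : Q ⊕ Z), s))
    have hf : Function.Injective f := by
      intro a b hab
      simpa [f] using hab
    exact hξ.comp f hf

open Classical in
theorem nuA_twist {N W : Type} [Field N] [Algebra k N] (ξ : (Q ⊕ ((Q ⊕ Z) × G)) ⊕ W → N)
    {m : ND k G Q} (hm : NG G₀ m) (γ₀ : N →ₐ[k] N) (q : Q)
    (hγq : γ₀ (ξ (Sum.inl (Sum.inl q))) = algebraMap k N (m.ζ q) * ξ (Sum.inl (Sum.inl q)))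
    (hγv : ∀ v, v ≠ Sum.inl (Sum.inl q) → γ₀ (ξ v) = ξ v) (g : G₀) (hq : m.hh q = g)
    (a : Q ⊕ Z) (x : G) :
    γ₀ (nuA m (fun a s => ξ (Sum.inl (Sum.inr (a, s)))) (fun q => ξ (Sum.inl (Sum.inl q))) a x) =
      nuA m (fun a s => ξ (Sum.inl (Sum.inr (a, s)))) (fun q => ξ (Sum.inl (Sum.inl q))) a
        (((if a = Sum.inl q then g else 1 : G₀) : G) * x) := by
  have hL : ∀ (a : Q ⊕ Z) (s : G), γ₀ (ξ (Sum.inl (Sum.inr (a, s)))) =
      ξ (Sum.inl (Sum.inr (a, s))) := fun a s => hγv _ (by simp)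
  rcases a with q' | p
  · rw [nuA_inl, nv_map]
    simp only [hL]
    by_cases hqq : q' = q
    · subst hqq
      rw [if_pos rfl, hγq, nv_twist _ _ _ _ (hm.hhe q') (hm.hζ q').pow_eq_one
        ((hm.hζ q').ne_zero hm.he0.ne'), hq]
    · rw [if_neg (fun e => hqq (Sum.inl_injective e)),
        hγv _ (fun e => hqq (Sum.inl_injective (Sum.inl_injective e))), Subgroup.coe_one, one_mul]
  · rw [nuA_inr, if_neg (by simp), Subgroup.coe_one, one_mul]
    exact hL _ _

open Classical in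
/-- The abstract geometric theorem. -/
theorem geo2A (hY : YD G₀ y) (hG3 : 3 ≤ Fintype.card G) {d : DB k G (Q ⊕ Z)} (h : DG y d)
    {m : ND k G Q} (hm : NG G₀ m)
    (Ψ : Polynomial (MvPolynomial (Fin (Fintype.card G)) k)) (hΨm : Ψ.Monic)
    (hΨ : Ψ.map ((aeval fun i : Fin (Fintype.card G) => esymm G k (i + 1) :
      MvPolynomial (Fin (Fintype.card G)) k →ₐ[k] MvPolynomial G k) :
      MvPolynomial (Fin (Fintype.card G)) k →+* MvPolynomial G k) =
      ∏ q ∈ orb y, (Polynomial.X - Polynomial.C q))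
    (T : ℕ) (hT : ∀ e, (Ψ.coeff e).totalDegree ≤ T)
    (hsep : (Polynomial.C d.c * d.R * ∏ q ∈ (orb y).erase y,
      (Polynomial.C d.c * (Polynomial.X ^ 2 * d.R) -
      Polynomial.C (aeval d.l q - aeval d.l y))).Separable)
    (M : ℕ) (hJM : Fintype.card (Q ⊕ Z) + 1 < M) (hB : T * (Fintype.card (Q ⊕ Z) + 1) < M)
    (hM : 2 + d.R.natDegree = M) (n : ℕ)
    (hn : 3 ≤ n) (hdeg : Ψ.natDegree * M = n + Fintype.card (Q ⊕ Z))
    {N : Type} [Field N] [Algebra k N] [IsAlgClosed N]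
    (ξ : (Q ⊕ ((Q ⊕ Z) × G)) ⊕ (Unit ⊕ (Option (Fin (Fintype.card G)) ⊕
      Option (Fin (Fintype.card G)))) → N)
    (hξ : IsTranscendenceBasis k ξ)
    -- the field of the first parameters
    (k₁ : Type) [Field k₁] [Algebra k k₁] [Algebra k₁ N] [IsScalarTower k k₁ N]
    (hk₁ : ∀ x : k₁, algebraMap k₁ N x ∈ IntermediateField.adjoin k (Set.range
      (Sum.elim (Sum.elim (fun q => ξ (Sum.inl (Sum.inl q)) ^ m.e) (fun p => ξ (Sum.inl (Sum.inr p))))
        (fun _ : Unit => ξ (Sum.inr (Sum.inl ()))))))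
    (Ye : Q → k₁) (hYe : ∀ q, algebraMap k₁ N (Ye q) = ξ (Sum.inl (Sum.inl q)) ^ m.e)
    (Lm : (Q ⊕ Z) × G → k₁) (hLm : ∀ p, algebraMap k₁ N (Lm p) = ξ (Sum.inl (Sum.inr p)))
    (t₁ : k₁) (ht₁ : algebraMap k₁ N t₁ = ξ (Sum.inr (Sum.inl ())))
    (kc : Q ⊕ Z → Option (Fin (Fintype.card G)) → k₁)
    (hkc : ∀ a i, algebraMap k₁ N (kc a i) =
      aeval (nuA m (fun a s => ξ (Sum.inl (Sum.inr (a, s)))) (fun q => ξ (Sum.inl (Sum.inl q))) a)
        (tv y i))
    (hθ : AlgebraicIndependent k₁ (fun i => ξ (Sum.inr (Sum.inr i)))) :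
    ∃ (r : Fin n → N) (vv : Fin n → G → N), Function.Injective r ∧
      (∀ i, Polynomial.aeval (r i) d.w ≠ 0) ∧ (∀ i, SolP y (PXA y d m ξ) (r i) (vv i)) ∧
      (∀ i, Function.Injective (vv i)) ∧
      (∀ s v, SolP y (PXA y d m ξ) s v → Polynomial.aeval s d.w ≠ 0 →
        ∃ i, s = r i ∧ ∃ g : G₀, v = vv i ∘ Equiv.mulLeft (g : G)) ∧
      ∀ x : Wr G₀ n, ∃ σ : N ≃ₐ[k] N,
        (∀ q, σ (ξ (Sum.inl (Sum.inl q)) ^ m.e) = ξ (Sum.inl (Sum.inl q)) ^ m.e) ∧
        (∀ p, σ (ξ (Sum.inl (Sum.inr p))) = ξ (Sum.inl (Sum.inr p))) ∧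
        (∀ v, σ (ξ (Sum.inr v)) = ξ (Sum.inr v)) ∧
        ∀ i, σ (r i) = r (x.right i) ∧
          ∀ g, σ (vv i g) = vv (x.right i) (x.left (x.right i) * g) := by
  obtain ⟨r, vv, hr, hrw, hsol, hall, Ω, i1, i2, j, τ, hτξ, c₁, c₂, hcc, hτ1, hτ2, hτ3, hτ4⟩ :=
    geo1A y h hm Ψ hΨm hΨ T hT hsep M hJM hB hM n hn hdeg ξ hξ
  obtain ⟨θ, hθdef⟩ : ∃ θ : Option (Fin (Fintype.card G)) ⊕ Option (Fin (Fintype.card G)) → N,
    θ = fun i => ξ (Sum.inr (Sum.inr i)) := ⟨_, rfl⟩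
  rw [← hθdef] at hθ
  have hjinj : Function.Injective j := j.toRingHom.injective
  have hck : CharZero k₁ := charZero_of_injective_algebraMap (algebraMap k k₁).injective
  obtain ⟨F, iF1, iF2, iF3, iF4, iF5, φ, hφ⟩ := exists_field hθ
  let _ : Algebra F N := φ.toRingHom.toAlgebra
  have hTF : IsScalarTower k₁ F N := IsScalarTower.of_algebraMap_eq fun x => (φ.commutes x).symm
  have hθF : ∀ i, θ i = algebraMap F N (algebraMap (MvPolynomial
      (Option (Fin (Fintype.card G)) ⊕ Option (Fin (Fintype.card G))) k₁) F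
      (MvPolynomial.X i)) := by
    intro i
    change _ = φ _
    rw [hφ, aeval_X]
  let _ : Algebra k F := ((algebraMap k₁ F).comp (algebraMap k k₁)).toAlgebra
  have hTkF : IsScalarTower k k₁ F := IsScalarTower.of_algebraMap_eq fun x => rfl
  have hTkN : IsScalarTower k F N := IsScalarTower.of_algebraMap_eq fun x => by
    rw [IsScalarTower.algebraMap_apply k k₁ N, IsScalarTower.algebraMap_apply k₁ F N]
    rfl
  -- N is algebraic over F
  have hbas := basis_powA ξ hξ m.e hm.he0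
  have halg : Algebra.IsAlgebraic F N := by
    refine alg_of_range _ hbas ?_
    rintro ((q | p) | (u | i))
    · exact ⟨algebraMap k₁ F (Ye q), by
        rw [← IsScalarTower.algebraMap_apply k₁ F N, hYe]; rfl⟩
    · exact ⟨algebraMap k₁ F (Lm p), by
        rw [← IsScalarTower.algebraMap_apply k₁ F N, hLm]; rfl⟩
    · exact ⟨algebraMap k₁ F t₁, by
        rw [← IsScalarTower.algebraMap_apply k₁ F N, ht₁]; rfl⟩
    · exact ⟨_, by rw [← hθF, hθdef]; rfl⟩
  have hcl : IsAlgClosure F N := ⟨inferInstance, halg⟩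
  have hnorm : Normal F N := IsAlgClosure.normal F N
  -- equality on F
  have heqF : ∀ {Ω' : Type} [Field Ω'] [Algebra k Ω'] (f g : N →ₐ[k] Ω'),
      (∀ q, f (ξ (Sum.inl (Sum.inl q)) ^ m.e) = g (ξ (Sum.inl (Sum.inl q)) ^ m.e)) →
      (∀ p, f (ξ (Sum.inl (Sum.inr p))) = g (ξ (Sum.inl (Sum.inr p)))) →
      (∀ v, f (ξ (Sum.inr v)) = g (ξ (Sum.inr v))) →
      ∀ x : F, f (algebraMap F N x) = g (algebraMap F N x) := by
    intro Ω' _ _ f g h1 h1' h2 x
    have h3 : ∀ x : k₁, f (algebraMap k₁ N x) = g (algebraMap k₁ N x) := by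
      intro x
      refine eq_on_adjoin f g _ ?_ _ (hk₁ x)
      rintro _ ⟨v, rfl⟩
      rcases v with (q | p) | u
      · exact h1 q
      · exact h1' p
      · exact h2 _
    let _ : Algebra k₁ Ω' := ((f : N →+* Ω').comp (algebraMap k₁ N)).toAlgebra
    let f' : N →ₐ[k₁] Ω' := { (f : N →+* Ω') with commutes' := fun c => rfl }
    let g' : N →ₐ[k₁] Ω' := { (g : N →+* Ω') with commutes' := fun c => (h3 c).symm }
    have h4 := eq_on_adjoin f' g' (Set.range θ) (by
      rintro _ ⟨i, rfl⟩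
      rw [hθdef]
      exact h2 _) _ (field_le θ hθF x)
    exact h4
  -- the transposition
  obtain ⟨τN, hτN⟩ := exists_restrict (F := F) (N := N) (j : N →+* Ω) (τ : Ω ≃+* Ω) (fun x => by
    refine heqF ((τ : Ω →ₐ[k] Ω).comp j) j (fun q => ?_) (fun p => ?_) (fun v => ?_) x
    · change τ (j _) = j _
      rw [map_pow, map_pow, hτξ]
    · exact hτξ _
    · exact hτξ _)
  have hτN' : ∀ x, j (τN x) = τ (j x) := hτN
  -- solutions
  have hfam : ∀ i, fam G (fun i => baseA y d t₁ i + corrA y d kc i) (d.w.map (algebraMap k k₁)) θ i =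
      PXA y d m ξ i := by
    intro i
    rw [fam_PA y d t₁ kc _ hkc θ i, ht₁, hθdef]
    rfl
  have hw1 : ∀ s : N, Polynomial.aeval s (d.w.map (algebraMap k k₁)) = Polynomial.aeval s d.w :=
    fun s => Polynomial.aeval_map_algebraMap _ _ _
  have hSolP : ∀ s v, Sol (bcy k₁ y) (fun i => baseA y d t₁ i + corrA y d kc i)
      (d.w.map (algebraMap k k₁)) θ s v ↔ Polynomial.aeval s d.w ≠ 0 ∧ SolP y (PXA y d m ξ) s v := by
    intro s v
    unfold Sol SolP
    simp only [hfam, hw1, aeval_tv_bcy]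
  have hvind : ∀ i, Function.Injective (vv i) := by
    intro i
    have : Nontrivial (Fin n) := Fin.nontrivial_iff_two_le.2 (by omega)
    obtain ⟨i', hi'⟩ := exists_ne i
    exact (indep_v (bcy k₁ y) _ _ θ hθ (r i) (vv i) (r i') (vv i')
      ((hSolP _ _).2 ⟨hrw i, hsol i⟩) ((hSolP _ _).2 ⟨hrw i', hsol i'⟩)
      (fun h => hi' (hr h).symm)).injective
  have hvind' : ∀ i, AlgebraicIndependent k₁ (vv i) := by
    intro i
    have : Nontrivial (Fin n) := Fin.nontrivial_iff_two_le.2 (by omega)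
    obtain ⟨i', hi'⟩ := exists_ne i
    exact (indep_v (bcy k₁ y) _ _ θ hθ (r i) (vv i) (r i') (vv i')
      ((hSolP _ _).2 ⟨hrw i, hsol i⟩) ((hSolP _ _).2 ⟨hrw i', hsol i'⟩)
      (fun h => hi' (hr h).symm))
  obtain ⟨π, hπ1, hπ2⟩ := main_abs (YD.bc hY (k₁ := k₁)) (fun i => baseA y d t₁ i + corrA y d kc i)
    (d.w.map (algebraMap k k₁)) θ hθ hθF n hn r hr vv
    (fun i => (hSolP _ _).2 ⟨hrw i, hsol i⟩)
    (fun s v hsv => hall s v ((hSolP _ _).1 hsv).2 ((hSolP _ _).1 hsv).1) τN c₁ c₂ hcc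
    (hjinj (by rw [hτN', hτ1])) (hjinj (by rw [hτN', hτ2]))
    (fun g => hjinj (by rw [hτN', hτN', hτ3]))
    (fun i hi1 hi2 => ⟨hjinj (by rw [hτN', (hτ4 i hi1 hi2).1]),
      fun g => hjinj (by rw [hτN', (hτ4 i hi1 hi2).2])⟩)
  -- surjectivity
  have hsurj : Function.Surjective π := by
    refine range_top π hπ1 fun g => ?_
    obtain ⟨q, hq⟩ := hm.hsurj g
    obtain ⟨γ₀, hγ₀⟩ := exists_twist ξ hξ
      (fun v => if v = Sum.inl (Sum.inl q) then m.ζ q else 1) (by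
      intro v
      by_cases hv : v = Sum.inl (Sum.inl q)
      · simp only [if_pos hv]
        exact (hm.hζ q).ne_zero hm.he0.ne'
      · simp only [if_neg hv]
        exact one_ne_zero)
    have hγq : γ₀ (ξ (Sum.inl (Sum.inl q))) =
        algebraMap k N (m.ζ q) * ξ (Sum.inl (Sum.inl q)) := by
      rw [hγ₀, if_pos rfl]
    have hγv : ∀ v, v ≠ Sum.inl (Sum.inl q) → γ₀ (ξ v) = ξ v := by
      intro v hv
      rw [hγ₀, if_neg hv, map_one, one_mul]
    have hγe : ∀ q', γ₀ (ξ (Sum.inl (Sum.inl q')) ^ m.e) = ξ (Sum.inl (Sum.inl q')) ^ m.e := by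
      intro q'
      by_cases hq' : q' = q
      · subst hq'
        rw [map_pow, hγq, mul_pow, ← map_pow, (hm.hζ q').pow_eq_one, map_one, one_mul]
      · rw [map_pow, hγv _ (fun e => hq' (Sum.inl_injective (Sum.inl_injective e)))]
    have hγF : ∀ x : F, γ₀ (algebraMap F N x) = algebraMap F N x :=
      heqF γ₀ (AlgHom.id k N) hγe (fun p => hγv _ (by simp)) (fun v => hγv _ (by simp))
    let γF : N →ₐ[F] N := { (γ₀ : N →+* N) with commutes' := hγF }
    let γ : N ≃ₐ[F] N := AlgEquiv.ofBijective γF (Algebra.IsAlgebraic.algHom_bijective γF)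
    have hγapp : ∀ x, γ x = γ₀ x := fun x => rfl
    let γ₁ : N →ₐ[k₁] N := (γ : N →ₐ[F] N).restrictScalars k₁
    have hγ₁ : ∀ x, γ₁ x = γ₀ x := fun x => rfl
    refine ⟨γ, ?_⟩
    have hwd : d.w.natDegree ≤ Fintype.card (Q ⊕ Z) := w_natDegreeA h
    obtain ⟨νN, hνN⟩ : ∃ νN : Q ⊕ Z → G → N, νN = nuA m (fun a s => ξ (Sum.inl (Sum.inr (a, s))))
      (fun q => ξ (Sum.inl (Sum.inl q))) := ⟨_, rfl⟩
    have hνind : ∀ a, AlgebraicIndependent k (νN a) := by
      intro a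
      rw [hνN]
      exact nuA_indep ξ hξ.1 hm a
    have eqv : Fin (Fintype.card (Q ⊕ Z)) ≃ Q ⊕ Z := (Fintype.equivFin _).symm
    have hnuE : ∀ a, SolP (bcy k₁ y) (fun i => (baseA y d t₁ i + corrA y d kc i).map
        (algebraMap k₁ N)) (algebraMap k₁ N (algebraMap k k₁ (d.nd a))) (νN a) := by
      intro a
      rw [SolP_bcy]
      intro i
      have h1 := PXA_node y h m ξ a i
      rw [← hνN] at h1
      rw [← hfam i] at h1
      rw [h1, ← IsScalarTower.algebraMap_apply]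
      unfold fam
      rw [Polynomial.eval_add, Polynomial.eval_mul]
      have h2 : ((d.w.map (algebraMap k k₁)).map (algebraMap k₁ N)).eval
          (algebraMap k N (d.nd a)) = 0 := by
        rw [Polynomial.map_map, ← IsScalarTower.algebraMap_eq]
        exact w_evalA h a
      rw [h2, zero_mul, add_zero]
    have hcls := class_eq (YD.bc hY (k₁ := k₁)) hG3 (bcP k₁ Ψ) (bcP_psi y Ψ hΨ)
      (fun i => baseA y d t₁ i) (fun i => corrA y d kc i) (d.w.map (algebraMap k k₁)) (n := n)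
      (J := Fintype.card (Q ⊕ Z)) (algebraMap k k₁ (d.c ^ Ψ.natDegree))
      ((_root_.map_ne_zero _).2 (pow_ne_zero _ h.hc)) (by
        intro E _ _ θ' x
        let _ : Algebra k E := ((algebraMap k₁ E).comp (algebraMap k k₁)).toAlgebra
        have hTE : IsScalarTower k k₁ E := IsScalarTower.of_algebraMap_eq fun x => rfl
        rw [PhiP_bcP]
        obtain ⟨e1, e2, e3⟩ := path_deg y d.l d.c h.hc d.R h.hR M hM hJM t₁ (corrA y d kc)
          (fun i => corrA_natDegree y h kc i)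
          (d.w.map (algebraMap k k₁)) (Polynomial.natDegree_map_le.trans hwd) θ' x
        obtain ⟨e4, e5⟩ := PhiP_natDegree Ψ hΨm T hT _ (Fintype.card (Q ⊕ Z) + 1) M hB e1 e2
        refine ⟨e4.trans hdeg, ?_⟩
        rw [map_pow, map_pow]
        rw [← e3]
        exact e5)
      (fun a => algebraMap k k₁ (d.nd (eqv a)))
      (fun a b hab => eqv.injective (h.hnd ((algebraMap k k₁).injective hab)))
      (fun a => by
        have h1 := w_evalA h (E := k₁) (eqv a)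
        rwa [← Polynomial.coe_aeval_eq_eval] at h1)
      (by
        intro E _ _ s hs
        let _ : Algebra k E := ((algebraMap k₁ E).comp (algebraMap k k₁)).toAlgebra
        have hTE : IsScalarTower k k₁ E := IsScalarTower.of_algebraMap_eq fun x => rfl
        rw [Polynomial.aeval_map_algebraMap] at hs
        obtain ⟨a, ha⟩ := w_rootA h s hs
        exact ⟨eqv.symm a, by rw [Equiv.apply_symm_apply]; exact ha⟩)
      (fun g => algebraMap k k₁ (d.l g))
      (fun a b hab => h.hl ((algebraMap k k₁).injective hab))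
      (by
        intro i
        have h1 := aeval_l_bc (k₁ := k₁) d.l (esymm G k (i + 1))
        rw [MvPolynomial.map_esymm] at h1
        rw [h1]
        rfl)
      θ hθ (by omega) r hr vv
      (fun i => (hSolP _ _).2 ⟨hrw i, hsol i⟩)
      (fun a => νN (eqv a)) (fun a => hnuE (eqv a))
      (fun a => (hνind (eqv a)).injective)
      (fun a σ hσ => by
        rw [aeval_bcy, aeval_bcy] at hσ
        have h1 : aeval (νN (eqv a)) (rename σ y) = aeval (νN (eqv a)) y := by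
          rw [aeval_rename]
          exact hσ
        exact hY.stab σ (algebraicIndependent_iff_injective_aeval.1 (hνind (eqv a)) h1))
      γ₁ (fun i => by
        rw [hγ₁, hθdef]
        exact hγv _ (by simp))
      (π γ).right (fun i => (π γ).left ((π γ).right i))
      (fun i g => (hπ2 γ i).2 g)
      (fun a => if eqv a = Sum.inl q then g else 1)
      (fun a x => by
        rw [hγ₁, hνN]
        exact nuA_twist ξ hm γ₀ q hγq hγv g hq (eqv a) x)
    have h1 : ∏ i, Abelianization.of ((π γ).left ((π γ).right i)) = wcls G₀ n (π γ) := by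
      rw [wcls_apply]
      exact Equiv.prod_comp (π γ).right (fun i => Abelianization.of ((π γ).left i))
    have h2 : ∏ a, Abelianization.of (if eqv a = Sum.inl q then g else 1) =
        Abelianization.of g := by
      rw [Finset.prod_eq_single (eqv.symm (Sum.inl q))]
      · rw [Equiv.apply_symm_apply, if_pos rfl]
      · intro a _ ha
        rw [if_neg (fun h0 => ha (by rw [← h0, Equiv.symm_apply_apply])), map_one]
      · intro h0
        exact absurd (Finset.mem_univ _) h0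
    rw [h1, h2] at hcls
    exact hcls
  refine ⟨r, vv, hr, hrw, hsol, hvind, ?_, ?_⟩
  · intro s v hs hsw
    obtain ⟨i, rfl⟩ := hall s v hs hsw
    obtain ⟨g, hg⟩ := unique_v (YD.bc hY (k₁ := k₁)) (fun i => baseA y d t₁ i + corrA y d kc i)
      (d.w.map (algebraMap k k₁)) θ (r i) (vv i) v (hvind' i)
      ((hSolP _ _).2 ⟨hrw i, hsol i⟩) ((hSolP _ _).2 ⟨hsw, hs⟩)
    exact ⟨i, rfl, g, hg⟩
  · intro x
    obtain ⟨γ, rfl⟩ := hsurj x
    let σ : N ≃ₐ[k] N := γ.restrictScalars k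
    have hσF : ∀ f : F, σ (algebraMap F N f) = algebraMap F N f := fun f => γ.commutes f
    refine ⟨σ, fun q => ?_, fun p => ?_, fun v => ?_, fun i => hπ2 γ i⟩
    · have h1 : ξ (Sum.inl (Sum.inl q)) ^ m.e = algebraMap F N (algebraMap k₁ F (Ye q)) := by
        rw [← IsScalarTower.algebraMap_apply k₁ F N, hYe]
      rw [h1, hσF]
    · have h1 : ξ (Sum.inl (Sum.inr p)) = algebraMap F N (algebraMap k₁ F (Lm p)) := by
        rw [← IsScalarTower.algebraMap_apply k₁ F N, hLm]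
      rw [h1, hσF]
    · rcases v with u | i
      · have h1 : ξ (Sum.inr (Sum.inl u)) = algebraMap F N (algebraMap k₁ F t₁) := by
          rw [← IsScalarTower.algebraMap_apply k₁ F N, ht₁]
        rw [h1, hσF]
      · have h1 : ξ (Sum.inr (Sum.inr i)) = θ i := by rw [hθdef]
        rw [h1, hθF, hσF]



open Classical in
/-- The geometric theorem. -/
theorem geo3A (hY : YD G₀ y) (hG3 : 3 ≤ Fintype.card G) {d : DB k G (Q ⊕ Z)} (h : DG y d)
    {m : ND k G Q} (hm : NG G₀ m)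
    (Ψ : Polynomial (MvPolynomial (Fin (Fintype.card G)) k)) (hΨm : Ψ.Monic)
    (hΨ : Ψ.map ((aeval fun i : Fin (Fintype.card G) => esymm G k (i + 1) :
      MvPolynomial (Fin (Fintype.card G)) k →ₐ[k] MvPolynomial G k) :
      MvPolynomial (Fin (Fintype.card G)) k →+* MvPolynomial G k) =
      ∏ q ∈ orb y, (Polynomial.X - Polynomial.C q))
    (T : ℕ) (hT : ∀ e, (Ψ.coeff e).totalDegree ≤ T)
    (hsep : (Polynomial.C d.c * d.R * ∏ q ∈ (orb y).erase y,
      (Polynomial.C d.c * (Polynomial.X ^ 2 * d.R) -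
      Polynomial.C (aeval d.l q - aeval d.l y))).Separable)
    (M : ℕ) (hJM : Fintype.card (Q ⊕ Z) + 1 < M) (hB : T * (Fintype.card (Q ⊕ Z) + 1) < M)
    (hM : 2 + d.R.natDegree = M) (n : ℕ)
    (hn : 3 ≤ n) (hdeg : Ψ.natDegree * M = n + Fintype.card (Q ⊕ Z))
    {N : Type} [Field N] [Algebra k N] [IsAlgClosed N]
    (ξ : (Q ⊕ ((Q ⊕ Z) × G)) ⊕ (Unit ⊕ (Option (Fin (Fintype.card G)) ⊕
      Option (Fin (Fintype.card G)))) → N)
    (hξ : IsTranscendenceBasis k ξ) :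
    ∃ (r : Fin n → N) (vv : Fin n → G → N), Function.Injective r ∧
      (∀ i, Polynomial.aeval (r i) d.w ≠ 0) ∧ (∀ i, SolP y (PXA y d m ξ) (r i) (vv i)) ∧
      (∀ i, Function.Injective (vv i)) ∧
      (∀ s v, SolP y (PXA y d m ξ) s v → Polynomial.aeval s d.w ≠ 0 →
        ∃ i, s = r i ∧ ∃ g : G₀, v = vv i ∘ Equiv.mulLeft (g : G)) ∧
      ∀ x : Wr G₀ n, ∃ σ : N ≃ₐ[k] N,
        (∀ q, σ (ξ (Sum.inl (Sum.inl q)) ^ m.e) = ξ (Sum.inl (Sum.inl q)) ^ m.e) ∧
        (∀ p, σ (ξ (Sum.inl (Sum.inr p))) = ξ (Sum.inl (Sum.inr p))) ∧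
        (∀ v, σ (ξ (Sum.inr v)) = ξ (Sum.inr v)) ∧
        ∀ i, σ (r i) = r (x.right i) ∧
          ∀ g, σ (vv i g) = vv (x.right i) (x.left (x.right i) * g) := by
  obtain ⟨K₁, hK₁⟩ : ∃ K₁ : IntermediateField k N, K₁ = IntermediateField.adjoin k (Set.range
      (Sum.elim (Sum.elim (fun q => ξ (Sum.inl (Sum.inl q)) ^ m.e)
        (fun p => ξ (Sum.inl (Sum.inr p))))
        (fun _ : Unit => ξ (Sum.inr (Sum.inl ()))))) :=
    ⟨_, rfl⟩
  have hmemY : ∀ q, ξ (Sum.inl (Sum.inl q)) ^ m.e ∈ K₁ := by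
    intro q
    rw [hK₁]
    exact IntermediateField.subset_adjoin _ _ ⟨Sum.inl (Sum.inl q), rfl⟩
  have hmemL : ∀ p, ξ (Sum.inl (Sum.inr p)) ∈ K₁ := by
    intro p
    rw [hK₁]
    exact IntermediateField.subset_adjoin _ _ ⟨Sum.inl (Sum.inr p), rfl⟩
  have hmemt : ξ (Sum.inr (Sum.inl ())) ∈ K₁ := by
    rw [hK₁]
    exact IntermediateField.subset_adjoin _ _ ⟨Sum.inr (), rfl⟩
  have hkcm : ∀ a i, aeval (nuA m (fun a s => ξ (Sum.inl (Sum.inr (a, s))))
      (fun q => ξ (Sum.inl (Sum.inl q))) a) (tv y i) ∈ K₁ := by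
    intro a i
    rcases a with q | p
    · exact nv_mem hY K₁ _ (fun s => hmemL _) _ (hm.hmem q) _ _ (hm.hhe q) (hm.hζ q) hm.he0 _
        (hmemY q) i
    · change aeval (fun s => ξ (Sum.inl (Sum.inr ((Sum.inr p : Q ⊕ Z), s)))) (tv y i) ∈ K₁
      let f : G → K₁ := fun s => ⟨_, hmemL ((Sum.inr p : Q ⊕ Z), s)⟩
      have h1 := comp_aeval_apply (f := f) (φ := K₁.val) (tv y i)
      have h2 : (fun s => K₁.val (f s)) =
        fun s => ξ (Sum.inl (Sum.inr ((Sum.inr p : Q ⊕ Z), s))) := rfl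
      rw [h2] at h1
      rw [← h1]
      exact (aeval f (tv y i)).2
  have hθ : AlgebraicIndependent K₁ (fun i => ξ (Sum.inr (Sum.inr i))) := by
    have h1 := indep_split _ (basis_powA ξ hξ m.e hm.he0).1
    have h2 : (fun q : Q ⊕ ((Q ⊕ Z) × G) => (Sum.elim (Sum.elim
      (fun q => ξ (Sum.inl (Sum.inl q)) ^ m.e) (fun s => ξ (Sum.inl (Sum.inr s))))
      (fun w => ξ (Sum.inr w))) (Sum.inl q)) = Sum.elim
        (fun q => ξ (Sum.inl (Sum.inl q)) ^ m.e) (fun p => ξ (Sum.inl (Sum.inr p))) := by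
      funext v
      rcases v with q | p <;> rfl
    rw [h2] at h1
    rw [hK₁]
    exact h1
  have hk₁ : ∀ x : K₁, algebraMap K₁ N x ∈ IntermediateField.adjoin k (Set.range
      (Sum.elim (Sum.elim (fun q => ξ (Sum.inl (Sum.inl q)) ^ m.e)
        (fun p => ξ (Sum.inl (Sum.inr p))))
        (fun _ : Unit => ξ (Sum.inr (Sum.inl ()))))) := by
    intro x
    rw [← hK₁]
    exact x.2
  clear hK₁
  exact geo2A hY hG3 h hm Ψ hΨm hΨ T hT hsep M hJM hB hM n hn hdeg ξ hξ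
    K₁ hk₁ (fun q => ⟨_, hmemY q⟩) (fun q => rfl) (fun p => ⟨_, hmemL p⟩) (fun p => rfl)
    ⟨_, hmemt⟩ rfl (fun q i => ⟨_, hkcm q i⟩) (fun q i => rfl) hθ

end geob

end Pool.Agent.N600.NS
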