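import Mathlib
import Pool.Agent.N600.NS.GeoB

/-!
# Descent of permuted parameters
-/

set_option autoImplicit false

namespace Pool.Agent.N600.NS

open MvPolynomial
open Pool.Agent.H391R2 hiding PhiP_eval_prod Phi_eval_prod Sol SolP SolP_Pc SolP_map SolP_mulLeft
  SolP_of_map SolP_root Sol_map Sol_mulLeft Sol_root aeval_mem_orb aeval_mulLeft class_eq
  exists_Sol exists_SolP exists_psi indep_v main_abs mem_orb norm_theorem norm_theorem_aux nt_core
  orb orb_image pair_aut pair_indep pr psi_map qv qv_map rename_mem_orb rr rr_eq rr_map sol_place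
  stab_path tv tv_mulLeft uniq_of_y0 unique_v
open Pool.Agent.H391R2.T4

set_option linter.unusedSectionVars false

section desc

variable (K L : Type) [Field K] [Field L] [Algebra K L] [FiniteDimensional K L]
variable (V : Type) [Fintype V] [DecidableEq V] (act : (L ≃ₐ[K] L) →* Equiv.Perm V)

/-- Galois descent for permutation modules. -/
theorem exists_desc : ∃ a b : V → V → L, (∀ ρ u v, a u (act ρ v) = ρ (a u v)) ∧
    ∀ v v', ∑ u, b v u * a u v' = if v = v' then 1 else 0 := by
  classical
  have := Fintype.ofFinite (L ≃ₐ[K] L)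
  let S : Set (V → L) := {f | ∀ ρ v, f (act ρ v) = ρ (f v)}
  have hspan : Submodule.span L S = ⊤ := by
    by_contra hne
    obtain ⟨φ, hφ0, hφ⟩ := Submodule.exists_le_ker_of_lt_top _ (lt_top_iff_ne_top.2 hne)
    apply hφ0
    have h1 : ∀ v₀, φ (Pi.single v₀ 1) = 0 := by
      intro v₀
      have h2 : ∀ x : L, ∑ ρ : L ≃ₐ[K] L, φ (Pi.single (act ρ v₀) 1) * ρ x = 0 := by
        intro x
        let f : V → L := fun v => ∑ ρ : L ≃ₐ[K] L, if act ρ v₀ = v then ρ x else 0
        have hf : f ∈ S := by
          intro ρ' v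
          simp only [f]
          rw [map_sum, ← Equiv.sum_comp (Equiv.mulLeft ρ')]
          refine Finset.sum_congr rfl fun ρ _ => ?_
          rw [Equiv.coe_mulLeft, map_mul, Equiv.Perm.mul_apply]
          by_cases h : act ρ v₀ = v
          · rw [if_pos h, if_pos (by rw [h])]
            rfl
          · rw [if_neg h, if_neg (fun h' => h ((act ρ').injective h')), map_zero]
        have h3 : φ f = 0 := hφ (Submodule.subset_span hf)
        have h4 : f = ∑ ρ : L ≃ₐ[K] L, (ρ x) • (Pi.single (act ρ v₀) 1 : V → L) := by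
          funext v
          simp only [f, Finset.sum_apply, Pi.smul_apply, smul_eq_mul]
          refine Finset.sum_congr rfl fun ρ _ => ?_
          by_cases h : act ρ v₀ = v
          · subst h
            rw [if_pos rfl, Pi.single_eq_same, mul_one]
          · rw [if_neg h, Pi.single_eq_of_ne (fun h' => h h'.symm), mul_zero]
        rw [h4, map_sum] at h3
        rw [← h3]
        refine Finset.sum_congr rfl fun ρ _ => ?_
        rw [map_smul, smul_eq_mul, mul_comm]
      have h5 := linearIndependent_monoidHom L L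
      let g : (L ≃ₐ[K] L) → (L →* L) := fun ρ => ((ρ : L →+* L) : L →* L)
      have hg : Function.Injective g := by
        intro ρ ρ' h
        apply AlgEquiv.ext
        intro x
        exact DFunLike.congr_fun h x
      have h6 := (h5.comp g hg)
      rw [Fintype.linearIndependent_iff] at h6
      have h7 := h6 (fun ρ => φ (Pi.single (act ρ v₀) 1)) (by
        funext x
        simp only [Finset.sum_apply, Pi.smul_apply, Function.comp_apply, smul_eq_mul,
          Pi.zero_apply]
        exact h2 x) 1
      rw [map_one] at h7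
      exact h7
    refine LinearMap.pi_ext' fun v => ?_
    refine LinearMap.ext_ring ?_
    exact h1 v
  let B := Module.Basis.ofSpan (K := L) (s := S) hspan.ge
  have hB : Set.range B ⊆ S := Module.Basis.ofSpan_subset hspan.ge
  have hfin : Finite _ := Module.Finite.finite_basis B
  have := Fintype.ofFinite (((linearIndepOn_empty L id).extend (Set.empty_subset S)) : Set (V → L))
  have hcard := Module.finrank_eq_card_basis B
  rw [Module.finrank_fintype_fun_eq_card] at hcard
  let eqv := Fintype.equivOfCardEq hcard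
  let B' := B.reindex eqv.symm
  refine ⟨fun u => B' u, fun v u => B'.repr (Pi.single v 1) u, ?_, ?_⟩
  · intro ρ u v
    have h1 : B' u ∈ S := by
      apply hB
      exact ⟨eqv u, by
        rw [Module.Basis.reindex_apply, Equiv.symm_symm]⟩
    exact h1 ρ v
  · intro v v'
    have h1 := congrFun (B'.sum_repr (Pi.single v 1)) v'
    rw [Finset.sum_apply] at h1
    simp only [Pi.smul_apply, smul_eq_mul] at h1
    rw [h1]
    by_cases h : v = v'
    · subst h
      rw [if_pos rfl, Pi.single_eq_same]
    · rw [if_neg h, Pi.single_eq_of_ne (fun h' => h h'.symm)]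

end desc

section use

variable {K L K₀ N : Type} [Field K] [Field L] [Algebra K L] [Field K₀] [Algebra L K₀]
  [Field N] [Algebra K₀ N] [Algebra L N] [IsScalarTower L K₀ N]
variable {V : Type} [Fintype V] [DecidableEq V] {a b : V → V → L}

/-- The descended parameters. -/
noncomputable def etaD (a : V → V → L) (x : V → N) (u : V) : N :=
  ∑ v, algebraMap L N (a u v) * x v

theorem etaD_inv (hb : ∀ v v', ∑ u, b v u * a u v' = if v = v' then 1 else 0) (x : V → N) (v : V) :
    ∑ u, algebraMap L N (b v u) * etaD a x u = x v := by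
  unfold etaD
  simp only [Finset.mul_sum]
  rw [Finset.sum_comm]
  have h1 : ∀ v', ∑ u, algebraMap L N (b v u) * (algebraMap L N (a u v') * x v') =
      algebraMap L N (if v = v' then 1 else 0) * x v' := by
    intro v'
    rw [← hb, map_sum, Finset.sum_mul]
    refine Finset.sum_congr rfl fun u _ => ?_
    rw [map_mul, mul_assoc]
  simp only [h1]
  rw [Finset.sum_eq_single v]
  · rw [if_pos rfl, map_one, one_mul]
  · intro v' _ hv'
    rw [if_neg (fun e => hv' e.symm), map_zero, zero_mul]
  · intro h
    exact absurd (Finset.mem_univ _) h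

theorem etaD_basis (hb : ∀ v v', ∑ u, b v u * a u v' = if v = v' then 1 else 0) (x : V → N)
    (hx : IsTranscendenceBasis K₀ x) : IsTranscendenceBasis K₀ (etaD a x) := by
  refine basis_of_alg le_rfl x hx _ fun v => ?_
  have hmem : ∀ v, etaD a x v ∈ Algebra.adjoin K₀ (Set.range (etaD a x)) := fun v =>
    Algebra.subset_adjoin ⟨v, rfl⟩
  have h1 : x v ∈ Algebra.adjoin K₀ (Set.range (etaD a x)) := by
    rw [← etaD_inv hb x v]
    refine sum_mem fun i _ => mul_mem ?_ (hmem _)
    rw [IsScalarTower.algebraMap_apply L K₀ N]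
    exact Subalgebra.algebraMap_mem _ _
  exact isAlgebraic_algebraMap (⟨_, h1⟩ : Algebra.adjoin K₀ (Set.range (etaD a x)))

theorem etaD_act (act : (L ≃ₐ[K] L) →* Equiv.Perm V)
    (ha : ∀ (ρ : L ≃ₐ[K] L) (u v : V), a u (act ρ v) = ρ (a u v))
    (hb : ∀ v v', ∑ u, b v u * a u v' = if v = v' then 1 else 0) (x : V → N)
    (σ : N →+* N) (ρ : L ≃ₐ[K] L) (h1 : ∀ v, σ (etaD a x v) = etaD a x v)
    (h2 : ∀ c : L, σ (algebraMap L N c) = algebraMap L N (ρ c)) (v : V) :
    σ (x v) = x (act ρ v) := by
  have h3 : ∀ u, etaD a (fun v => σ (x ((act ρ).symm v))) u = etaD a x u := by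
    intro u
    rw [← h1]
    unfold etaD
    rw [map_sum, ← Equiv.sum_comp (act ρ)]
    refine Finset.sum_congr rfl fun v _ => ?_
    beta_reduce
    rw [Equiv.symm_apply_apply, ha, map_mul, h2]
  have h4 := etaD_inv (N := N) hb (fun v => σ (x ((act ρ).symm v))) (act ρ v)
  simp only [h3, Equiv.symm_apply_apply] at h4
  rw [← h4, etaD_inv hb]

theorem etaD_fix (x : V → N) (σ : N ≃ₐ[K₀] N) (h1 : ∀ v, σ (x v) = x v) (u : V) :
    σ (etaD a x u) = etaD a x u := by
  unfold etaD
  rw [map_sum]
  refine Finset.sum_congr rfl fun v _ => ?_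
  rw [map_mul, h1, IsScalarTower.algebraMap_apply L K₀ N, σ.commutes]

end use

end Pool.Agent.N600.NS
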