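import Mathlib
import Pool.Agent.N600.NS.Desc

/-!
# Semilinear transport
-/

set_option autoImplicit false

namespace Pool.Agent.N600.NS

open MvPolynomial
open Pool.Agent.H391R2 hiding PhiP_eval_prod Phi_eval_prod Sol SolP SolP_Pc SolP_map SolP_mulLeft
  SolP_of_map SolP_root Sol_map Sol_mulLeft Sol_root aeval_mem_orb aeval_mulLeft class_eq
  exists_Sol exists_SolP exists_psi indep_v main_abs mem_orb norm_theorem norm_theorem_aux nt_core
  orb orb_image pair_aut pair_indep pr psi_map qv qv_map rename_mem_orb rr rr_eq rr_map sol_place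
  stab_path tv tv_mulLeft uniq_of_y0 unique_v
open Pool.Agent.H391R2.T4

set_option linter.unusedSectionVars false

section alt

variable {k : Type} [Field k] {G : Type} [Group G] [Fintype G] {y : MvPolynomial G k}
variable {A : Type} [Fintype A] [DecidableEq A] {d : DB k G A}

/-- The tuple does not depend on the auxiliary vector. -/
theorem PA_alt (h : DG y d) [Nonempty A] {E : Type} [CommRing E] [Algebra k E] (ν : A → G → E)
    (t : E) (θ : Option (Fin (Fintype.card G)) ⊕ Option (Fin (Fintype.card G)) → E)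
    (i : Option (Fin (Fintype.card G))) :
    PA y d ν t θ i = (if i = none then Polynomial.C (algebraMap k E d.c) *
    ((Polynomial.X ^ 2 - Polynomial.C t) * d.R.map (algebraMap k E)) else 0) +
  (∑ a : A, Polynomial.C (aeval (ν a) (tv y i)) *
    (Lagrange.basis Finset.univ d.nd a).map (algebraMap k E)) +
  d.w.map (algebraMap k E) *
    (Polynomial.C (θ (Sum.inl i)) + Polynomial.C (θ (Sum.inr i)) * Polynomial.X) := by
  unfold PA
  have h1 : (∑ a : A, (Lagrange.basis Finset.univ d.nd a).map (algebraMap k E)) = 1 := by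
    rw [← Polynomial.map_sum, Lagrange.sum_basis h.hnd.injOn Finset.univ_nonempty,
      Polynomial.map_one]
  have h2 : ∀ Qt : Polynomial E, bsT y d.l Qt i = Polynomial.C (algebraMap k E
      (aeval d.l (tv y i))) + (if i = none then Qt else 0) := by
    intro Qt
    cases i with
    | none => rfl
    | some i => simp only [bsT, reduceCtorEq, if_false, add_zero, tv]
  rw [h2]
  have h3 : (∑ a : A, Polynomial.C (aeval (ν a) (tv y i) -
      algebraMap k E (aeval d.l (tv y i))) *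
      (Lagrange.basis Finset.univ d.nd a).map (algebraMap k E)) =
      (∑ a : A, Polynomial.C (aeval (ν a) (tv y i)) *
      (Lagrange.basis Finset.univ d.nd a).map (algebraMap k E)) -
      Polynomial.C (algebraMap k E (aeval d.l (tv y i))) := by
    have h4 : ∀ a : A, Polynomial.C (aeval (ν a) (tv y i) -
      algebraMap k E (aeval d.l (tv y i))) *
      (Lagrange.basis Finset.univ d.nd a).map (algebraMap k E) =
      Polynomial.C (aeval (ν a) (tv y i)) *
      (Lagrange.basis Finset.univ d.nd a).map (algebraMap k E) -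
      Polynomial.C (algebraMap k E (aeval d.l (tv y i))) *
      (Lagrange.basis Finset.univ d.nd a).map (algebraMap k E) := by
      intro a
      rw [Polynomial.C_sub, sub_mul]
    simp only [h4]
    rw [Finset.sum_sub_distrib, ← Finset.mul_sum, h1, mul_one]
  rw [h3]
  ring

end alt

section sem

variable {k : Type} [Field k] [CharZero k] {G : Type} [Group G] [Fintype G] {G₀ : Subgroup G}
variable {y : MvPolynomial G k} {Q Z : Type} [Fintype Q] [Fintype Z] [DecidableEq (Q ⊕ Z)]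

/-- Semi-invariance of the data under a field homomorphism. -/
structure SIA (f : k →+* k) (πA : Equiv.Perm (Q ⊕ Z)) (sq : Equiv.Perm Q) (β : Q ⊕ Z → G)
    (y : MvPolynomial G k) (d : DB k G (Q ⊕ Z)) (m : ND k G Q) : Prop where
  hy : ∀ a, rename (Equiv.mulLeft (β a)) (MvPolynomial.map f y) = y
  hc : f d.c = d.c
  hR : d.R.map f = d.R
  hnd : ∀ a, f (d.nd a) = d.nd (πA a)
  hπ : ∀ q, πA (Sum.inl q) = Sum.inl (sq q)
  hπ' : ∀ p, ∃ p', πA (Sum.inr p) = Sum.inr p'
  hh : ∀ q, m.hh (sq q) = β (Sum.inl q) * m.hh q * (β (Sum.inl q))⁻¹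
  hζ : ∀ q, f (m.ζ q) = m.ζ (sq q)

theorem tv_siA (f : k →+* k) (β₀ : G)
    (hy : rename (Equiv.mulLeft β₀) (MvPolynomial.map f y) = y)
    (i : Option (Fin (Fintype.card G))) :
    rename (Equiv.mulLeft β₀) (MvPolynomial.map f (tv y i)) = tv y i := by
  cases i with
  | none => exact hy
  | some i =>
    change rename (Equiv.mulLeft β₀) (MvPolynomial.map f (esymm G k (i + 1))) = esymm G k (i + 1)
    rw [MvPolynomial.map_esymm]
    exact MvPolynomial.rename_esymm G k _ (Equiv.mulLeft β₀)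

theorem aeval_siA (f : k →+* k) (β₀ : G)
    (hy : rename (Equiv.mulLeft β₀) (MvPolynomial.map f y) = y)
    {E E' : Type} [CommRing E] [Algebra k E] [CommRing E'] [Algebra k E'] (σ : E →+* E')
    (hσ : ∀ a, σ (algebraMap k E a) = algebraMap k E' (f a)) (v : G → E) (v' : G → E')
    (hv : ∀ g, σ (v g) = v' (β₀ * g)) (i : Option (Fin (Fintype.card G))) :
    σ (aeval v (tv y i)) = aeval v' (tv y i) := by
  rw [aeval_semi σ hσ]
  nth_rewrite 2 [← tv_siA f β₀ hy i]
  rw [aeval_rename]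
  congr 1
  congr 1
  funext g
  exact hv g

variable {d : DB k G (Q ⊕ Z)} {m : ND k G Q} {f : k →+* k} {πA : Equiv.Perm (Q ⊕ Z)}
  {sq : Equiv.Perm Q} {β : Q ⊕ Z → G}

/-- The values at the nodes are permuted. -/
theorem nuA_si (hY : YD G₀ y) (h : SIA f πA sq β y d m) (hm : NG G₀ m) {N : Type} [Field N]
    [Algebra k N] (σ : N →+* N) (hσ : ∀ a, σ (algebraMap k N a) = algebraMap k N (f a))
    {W : Type} (ξ : (Q ⊕ ((Q ⊕ Z) × G)) ⊕ W → N)
    (hξ0 : ∀ q, ξ (Sum.inl (Sum.inl q)) ≠ 0)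
    (hξ1 : ∀ q, σ (ξ (Sum.inl (Sum.inl q))) ^ m.e = ξ (Sum.inl (Sum.inl (sq q))) ^ m.e)
    (hξ2 : ∀ a s, σ (ξ (Sum.inl (Sum.inr (a, s)))) = ξ (Sum.inl (Sum.inr (πA a, β a * s))))
    (a : Q ⊕ Z) (i : Option (Fin (Fintype.card G))) :
    σ (aeval (nuA m (fun a s => ξ (Sum.inl (Sum.inr (a, s)))) (fun q => ξ (Sum.inl (Sum.inl q))) a)
      (tv y i)) =
    aeval (nuA m (fun a s => ξ (Sum.inl (Sum.inr (a, s)))) (fun q => ξ (Sum.inl (Sum.inl q)))
      (πA a)) (tv y i) := by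
  rcases a with q | p
  · rw [h.hπ, nuA_inl, nuA_inl]
    have hprim : IsPrimitiveRoot (algebraMap k N (m.ζ (sq q))) m.e :=
      (hm.hζ (sq q)).map_of_injective (algebraMap k N).injective
    have : NeZero m.e := ⟨hm.he0.ne'⟩
    obtain ⟨j, -, hj⟩ := hprim.eq_pow_of_pow_eq_one (ξ := σ (ξ (Sum.inl (Sum.inl q))) /
      ξ (Sum.inl (Sum.inl (sq q)))) (by
      rw [div_pow, hξ1, div_self (pow_ne_zero _ (hξ0 _))])
    have hj' : σ (ξ (Sum.inl (Sum.inl q))) =
        algebraMap k N (m.ζ (sq q)) ^ j * ξ (Sum.inl (Sum.inl (sq q))) := by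
      rw [hj, div_mul_cancel₀ _ (hξ0 _)]
    have hmem : m.hh (sq q) ^ j ∈ G₀ := pow_mem (hm.hmem _) j
    have h1 := aeval_siA f (β (Sum.inl q)) (h.hy (Sum.inl q)) σ hσ
      (nv (fun s => ξ (Sum.inl (Sum.inr (Sum.inl q, s)))) (m.hh q) (m.ζ q) m.e
        (ξ (Sum.inl (Sum.inl q))))
      ((nv (fun s => ξ (Sum.inl (Sum.inr (Sum.inl (sq q), s)))) (m.hh (sq q)) (m.ζ (sq q)) m.e
        (ξ (Sum.inl (Sum.inl (sq q))))) ∘ Equiv.mulLeft ((⟨_, hmem⟩ : G₀) : G)) (by
        intro x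
        rw [nv_semi f σ hσ]
        simp only [hξ2]
        rw [nv_conj (fun s => ξ (Sum.inl (Sum.inr (πA (Sum.inl q), s)))), ← h.hh, h.hζ, hj', h.hπ]
        exact nv_twist_pow _ _ _ _ (hm.hhe _) (hm.hζ _).pow_eq_one ((hm.hζ _).ne_zero hm.he0.ne')
          j _ _) i
    rw [h1, tv_mulLeft hY]
  · obtain ⟨p', hp'⟩ := h.hπ' p
    rw [hp', nuA_inr, nuA_inr]
    refine aeval_siA f (β (Sum.inr p)) (h.hy (Sum.inr p)) σ hσ _ _ (fun g => ?_) i
    rw [hξ2, hp']

theorem w_siA (h : SIA f πA sq β y d m) (hd : DG y d) : d.w.map f = d.w := by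
  rw [hd.hw, Polynomial.map_prod]
  simp only [Polynomial.map_sub, Polynomial.map_X, Polynomial.map_C, h.hnd]
  exact Equiv.prod_comp πA (fun a => Polynomial.X - Polynomial.C (d.nd a))

theorem basis_siA (h : SIA f πA sq β y d m) (a : Q ⊕ Z) :
    (Lagrange.basis Finset.univ d.nd a).map f = Lagrange.basis Finset.univ d.nd (πA a) := by
  unfold Lagrange.basis
  rw [Polynomial.map_prod]
  refine Finset.prod_bij (fun b _ => πA b) ?_ ?_ ?_ ?_
  · intro b hb
    rw [Finset.mem_erase] at hb ⊢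
    exact ⟨fun e => hb.1 (πA.injective e), Finset.mem_univ _⟩
  · intro a _ b _ hab
    exact πA.injective hab
  · intro b hb
    refine ⟨πA.symm b, ?_, by simp⟩
    rw [Finset.mem_erase] at hb ⊢
    exact ⟨fun e => hb.1 (by rw [← e, Equiv.apply_symm_apply]), Finset.mem_univ _⟩
  · intro b _
    unfold Lagrange.basisDivisor
    rw [Polynomial.map_mul, Polynomial.map_sub, Polynomial.map_X, Polynomial.map_C,
      Polynomial.map_C, map_inv₀, map_sub, h.hnd, h.hnd]

/-- Invariance of the tuple. -/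
theorem PXA_si [Nonempty (Q ⊕ Z)] (hY : YD G₀ y) (h : SIA f πA sq β y d m) (hd : DG y d)
    (hm : NG G₀ m) {N : Type} [Field N]
    [Algebra k N] (σ : N →+* N) (hσ : ∀ a, σ (algebraMap k N a) = algebraMap k N (f a))
    (ξ : (Q ⊕ ((Q ⊕ Z) × G)) ⊕ (Unit ⊕ (Option (Fin (Fintype.card G)) ⊕
      Option (Fin (Fintype.card G)))) → N)
    (hξ0 : ∀ q, ξ (Sum.inl (Sum.inl q)) ≠ 0)
    (hξ1 : ∀ q, σ (ξ (Sum.inl (Sum.inl q))) ^ m.e = ξ (Sum.inl (Sum.inl (sq q))) ^ m.e)
    (hξ2 : ∀ a s, σ (ξ (Sum.inl (Sum.inr (a, s)))) = ξ (Sum.inl (Sum.inr (πA a, β a * s))))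
    (hξ3 : ∀ v, σ (ξ (Sum.inr v)) = ξ (Sum.inr v)) (i : Option (Fin (Fintype.card G))) :
    (PXA y d m ξ i).map σ = PXA y d m ξ i := by
  have hcomp : σ.comp (algebraMap k N) = (algebraMap k N).comp f := RingHom.ext hσ
  have hw := w_siA h hd
  unfold PXA
  rw [PA_alt hd, Polynomial.map_add, Polynomial.map_add, Polynomial.map_sum]
  congr 1
  · congr 1
    · by_cases hi : i = none
      · rw [if_pos hi]
        simp only [Polynomial.map_C, Polynomial.map_mul,
          Polynomial.map_sub, Polynomial.map_pow, Polynomial.map_X, Polynomial.map_map, hcomp, hσ,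
          hξ3, h.hc]
        rw [← Polynomial.map_map, h.hR]
      · rw [if_neg hi, Polynomial.map_zero]
    · rw [← Equiv.sum_comp πA (fun a => Polynomial.C (aeval (nuA m
        (fun a s => ξ (Sum.inl (Sum.inr (a, s)))) (fun q => ξ (Sum.inl (Sum.inl q))) a) (tv y i)) *
        (Lagrange.basis Finset.univ d.nd a).map (algebraMap k N))]
      refine Finset.sum_congr rfl fun a _ => ?_
      rw [Polynomial.map_mul, Polynomial.map_C, nuA_si hY h hm σ hσ ξ hξ0 hξ1 hξ2,
        Polynomial.map_map, hcomp, ← Polynomial.map_map, basis_siA h]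
  · rw [Polynomial.map_mul, Polynomial.map_map, hcomp, ← Polynomial.map_map, hw]
    simp only [Polynomial.map_add, Polynomial.map_mul, Polynomial.map_C, Polynomial.map_X, hξ3]

/-- Semilinear transport of solutions. -/
theorem SolP_siA [Nonempty (Q ⊕ Z)] (hY : YD G₀ y) (h : SIA f πA sq β y d m) (hd : DG y d)
    (hm : NG G₀ m) {N : Type} [Field N]
    [Algebra k N] (σ : N →+* N) (hσ : ∀ a, σ (algebraMap k N a) = algebraMap k N (f a))
    (ξ : (Q ⊕ ((Q ⊕ Z) × G)) ⊕ (Unit ⊕ (Option (Fin (Fintype.card G)) ⊕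
      Option (Fin (Fintype.card G)))) → N)
    (hξ0 : ∀ q, ξ (Sum.inl (Sum.inl q)) ≠ 0)
    (hξ1 : ∀ q, σ (ξ (Sum.inl (Sum.inl q))) ^ m.e = ξ (Sum.inl (Sum.inl (sq q))) ^ m.e)
    (hξ2 : ∀ a s, σ (ξ (Sum.inl (Sum.inr (a, s)))) = ξ (Sum.inl (Sum.inr (πA a, β a * s))))
    (hξ3 : ∀ v, σ (ξ (Sum.inr v)) = ξ (Sum.inr v)) (β₀ : G)
    (hβ₀ : rename (Equiv.mulLeft β₀) (MvPolynomial.map f y) = y) (s : N) (v : G → N)
    (hs : SolP y (PXA y d m ξ) s v) (hsw : Polynomial.aeval s d.w ≠ 0) :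
    SolP y (PXA y d m ξ) (σ s) (fun g => σ (v (β₀⁻¹ * g))) ∧
      Polynomial.aeval (σ s) d.w ≠ 0 := by
  refine ⟨fun i => ?_, fun h0 => hsw ?_⟩
  · rw [← PXA_si hY h hd hm σ hσ ξ hξ0 hξ1 hξ2 hξ3 i, Polynomial.eval_map_apply, ← hs i]
    refine (aeval_siA f β₀ hβ₀ σ hσ v _ (fun g => ?_) i).symm
    rw [inv_mul_cancel_left]
  · rw [← w_siA h hd, ← paeval_semi σ hσ] at h0
    exact (map_eq_zero_iff σ σ.injective).1 h0

end sem

end Pool.Agent.N600.NS
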