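import Mathlib
import Pool.Agent.N600.NS.SemA
import Pool.Agent.H391R2.T4.Sym

/-!
# The arithmetic part
-/

set_option autoImplicit false

namespace Pool.Agent.N600.NS

open MvPolynomial
open Pool.Agent.H391R2 hiding PhiP_eval_prod Phi_eval_prod Sol SolP SolP_Pc SolP_map SolP_mulLeft
  SolP_of_map SolP_root Sol_map Sol_mulLeft Sol_root aeval_mem_orb aeval_mulLeft class_eq
  exists_Sol exists_SolP exists_psi indep_v main_abs mem_orb norm_theorem norm_theorem_aux nt_core
  orb orb_image pair_aut pair_indep pr psi_map qv qv_map rename_mem_orb rr rr_eq rr_map sol_place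
  stab_path tv tv_mulLeft uniq_of_y0 unique_v
open Pool.Agent.H391R2.T4

set_option linter.unusedSectionVars false

section ari

variable {K L K₀ N : Type} [Field K] [CharZero K] [Field L] [Algebra K L]
  [FiniteDimensional K L] [IsGalois K L] [Field K₀] [Algebra K K₀] [Algebra L K₀]
  [IsScalarTower K L K₀] [IsAlgClosed K₀] [Algebra.IsAlgebraic L K₀]
  [Field N] [IsAlgClosed N] [Algebra K₀ N] [Algebra K N] [Algebra L N]
  [IsScalarTower K K₀ N] [IsScalarTower L K₀ N] [IsScalarTower K L N]

theorem arith_absA (ι : Type) [Finite ι] (η : ι → N) (hη : IsTranscendenceBasis K₀ η)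
    (G : Type) [Group G] [Finite G] (α : G →* (L ≃ₐ[K] L)) (n : ℕ)
    (r : Fin n → N) (hr : Function.Injective r) (vv : Fin n → G → N)
    (hvv : ∀ i, Function.Injective (vv i))
    (hR : ∀ (σ : N ≃ₐ[K] N) (ρ : L ≃ₐ[K] L), (∀ v, σ (η v) = η v) →
      (∀ a : L, σ (algebraMap L N a) = algebraMap L N (ρ a)) → ∃ x : Wr G n,
        (∀ i, α (x.left i) = ρ) ∧ ∀ i,
        σ (r i) = r (x.right i) ∧
        ∀ g, σ (vv i g) = vv (x.right i) (x.left (x.right i) * g))
    (hG : ∀ x : Wr G n, (∀ i, α (x.left i) = 1) → ∃ σ : N ≃ₐ[K₀] N, (∀ v, σ (η v) = η v) ∧ ∀ i,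
        σ (r i) = r (x.right i) ∧
        ∀ g, σ (vv i g) = vv (x.right i) (x.left (x.right i) * g)) :
    ∃ (E : Type) (_ : Field E) (_ : Algebra (MvPolynomial ι K) E)
      (_ : IsFractionRing (MvPolynomial ι K) E) (_ : Algebra K E)
      (_ : IsScalarTower K (MvPolynomial ι K) E)
      (F : Type) (_ : Field F) (_ : Algebra E F) (_ : Algebra L F) (_ : Algebra K F)
      (_ : IsScalarTower K E F) (_ : IsScalarTower K L F) (_ : FiniteDimensional E F)
      (_ : IsGalois E F) (γ : (F ≃ₐ[E] F) ≃* SymEP α n),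
      (∀ (σ : F ≃ₐ[E] F) (x : L),
        σ (algebraMap L F x) = algebraMap L F (symProj α n (γ σ) x)) ∧
      (∀ y : F, IsAlgebraic L y → y ∈ Set.range (algebraMap L F)) := by
  classical
  have hcK₀ : CharZero K₀ := charZero_of_injective_algebraMap (algebraMap K K₀).injective
  have hcL : CharZero L := charZero_of_injective_algebraMap (algebraMap K L).injective
  have hcN : CharZero N := charZero_of_injective_algebraMap (algebraMap K N).injective
  have halgKK₀ : Algebra.IsAlgebraic K K₀ := Algebra.IsAlgebraic.trans K L K₀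
  have hnK₀ : Normal K K₀ := by
    have : IsAlgClosure K K₀ := ⟨inferInstance, halgKK₀⟩
    exact IsAlgClosure.normal K K₀
  have hηK : AlgebraicIndependent K η :=
    AlgebraicIndependent.restrictScalars (K := K₀) (algebraMap K K₀).injective hη.1
  obtain ⟨E, iE1, iE2, iE3, iE4, iE5, ψ, hψ⟩ := exists_field hηK
  let _ : Algebra E N := ψ.toRingHom.toAlgebra
  have hTKEN : IsScalarTower K E N := IsScalarTower.of_algebraMap_eq fun x => (ψ.commutes x).symm
  have hηE : ∀ v, η v = algebraMap E N (algebraMap (MvPolynomial ι K) E (MvPolynomial.X v)) := by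
    intro v
    change _ = ψ _
    rw [hψ, aeval_X]
  have hcE : CharZero E := charZero_of_injective_algebraMap (algebraMap K E).injective
  -- N is algebraic over E
  let S := algebraicClosure E N
  have hK₀S : ∀ a : K₀, algebraMap K₀ N a ∈ S := by
    intro a
    rw [mem_algebraicClosure_iff]
    have h1 : IsAlgebraic K a := halgKK₀.isAlgebraic a
    have h2 : IsAlgebraic K (algebraMap K₀ N a) := h1.algebraMap
    exact h2.tower_top E
  let _ : Algebra K₀ S := ((algebraMap K₀ N).codRestrict S hK₀S).toAlgebra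
  have hTK₀SN : IsScalarTower K₀ S N := IsScalarTower.of_algebraMap_eq fun x => rfl
  have halgSN : Algebra.IsAlgebraic S N := by
    refine alg_of_range (k := K₀) η hη fun v => ⟨⟨η v, ?_⟩, rfl⟩
    rw [hηE]
    exact S.algebraMap_mem _
  have halgEN : Algebra.IsAlgebraic E N := Algebra.IsAlgebraic.trans E S N
  have hnEN : Normal E N := by
    have : IsAlgClosure E N := ⟨inferInstance, halgEN⟩
    exact IsAlgClosure.normal E N
  -- automorphisms over E
  have hσK : ∀ (σ : N ≃ₐ[E] N), ∀ v, σ (η v) = η v := by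
    intro σ v
    rw [hηE, σ.commutes]
  have hEfix : ∀ (j : N →+* N), (∀ a : K, j (algebraMap K N a) = algebraMap K N a) →
      (∀ v, j (η v) = η v) → ∀ x : E, j (algebraMap E N x) = algebraMap E N x := by
    intro j h1 h2 x
    let j' : N →ₐ[K] N := { j with commutes' := h1 }
    exact eq_on_adjoin j' (AlgHom.id K N) (Set.range η) (by
      rintro _ ⟨v, rfl⟩
      exact h2 v) _ (field_le η hηE x)
  have hcoef : ∀ f : K₀ ≃ₐ[K] K₀, ∃ σ : N ≃ₐ[E] N, ∀ a : K₀,
      σ (algebraMap K₀ N a) = algebraMap K₀ N (f a) := by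
    intro f
    obtain ⟨j, hj1, hj2⟩ := lift_twist η hη (f : K₀ →+* K₀)
    have h1 : ∀ x : E, j (algebraMap E N x) = algebraMap E N x := by
      refine hEfix j (fun a => ?_) hj1
      rw [IsScalarTower.algebraMap_apply K K₀ N, hj2]
      congr 1
      exact f.commutes a
    let jE : N →ₐ[E] N := { j with commutes' := h1 }
    refine ⟨AlgEquiv.ofBijective jE (Algebra.IsAlgebraic.algHom_bijective jE), fun a => hj2 a⟩
  -- the relation
  let Rel : (N ≃ₐ[E] N) → SymEP α n → Prop := fun σ z =>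
    (∀ a : L, σ (algebraMap L N a) = algebraMap L N (z.1.2 a)) ∧
    ∀ i, σ (r i) = r (z.1.1.right i) ∧
      ∀ g, σ (vv i g) = vv (z.1.1.right i) (z.1.1.left (z.1.1.right i) * g)
  have hex : ∀ σ, ∃ z, Rel σ z := by
    intro σ
    let σK : N ≃ₐ[K] N := σ.restrictScalars K
    let ρ : L ≃ₐ[K] L := σK.restrictNormal L
    have hρ : ∀ a : L, σK (algebraMap L N a) = algebraMap L N (ρ a) := fun a =>
      (AlgEquiv.restrictNormal_commutes σK L a).symm
    obtain ⟨x, hx0, hx⟩ := hR σK ρ (fun v => hσK σ v) hρ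
    exact ⟨⟨(x, ρ), hx0⟩, hρ, hx⟩
  have huniq : ∀ σ z z', Rel σ z → Rel σ z' → z = z' := by
    intro σ z z' hz hz'
    have h0 : z.1.2 = z'.1.2 := by
      apply AlgEquiv.ext
      intro a
      apply (algebraMap L N).injective
      rw [← hz.1, hz'.1]
    have h1 : z.1.1.right = z'.1.1.right := by
      apply Equiv.ext
      intro i
      apply hr
      rw [← (hz.2 i).1, (hz'.2 i).1]
    apply Subtype.ext
    refine Prod.ext ?_ h0
    apply SemidirectProduct.ext _ h1
    funext j
    obtain ⟨i, rfl⟩ := z.1.1.right.surjective j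
    have h2 := (hz.2 i).2 1
    have h3 := (hz'.2 i).2 1
    rw [h2, mul_one, mul_one, ← h1] at h3
    exact hvv _ h3
  have hmul : ∀ σ σ' z z', Rel σ z → Rel σ' z' → Rel (σ' * σ) (z' * z) := by
    intro σ σ' z z' hz hz'
    refine ⟨fun a => ?_, fun i => ⟨?_, fun g => ?_⟩⟩
    · rw [AlgEquiv.mul_apply, hz.1, hz'.1]
      rfl
    · rw [AlgEquiv.mul_apply, (hz.2 i).1, (hz'.2 _).1]
      rfl
    · rw [AlgEquiv.mul_apply, (hz.2 i).2, (hz'.2 _).2]
      change _ = vv ((z'.1.1 * z.1.1).right i) ((z'.1.1 * z.1.1).left ((z'.1.1 * z.1.1).right i) * g)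
      rw [wr_mul_right, wr_mul_left]
      change _ = vv (z'.1.1.right (z.1.1.right i)) (z'.1.1.left (z'.1.1.right (z.1.1.right i)) *
        (z.1.1.left (z'.1.1.right⁻¹ (z'.1.1.right (z.1.1.right i)))) * g)
      have h1 : z'.1.1.right⁻¹ (z'.1.1.right (z.1.1.right i)) = z.1.1.right i := by simp
      rw [h1, mul_assoc]
  choose Pf hPf using hex
  let π : (N ≃ₐ[E] N) →* SymEP α n := MonoidHom.mk' Pf (fun σ' σ =>
    huniq _ _ _ (hPf _) (hmul σ σ' _ _ (hPf σ) (hPf σ')))
  have hπ : ∀ σ, Rel σ (π σ) := hPf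
  -- geometric automorphisms
  have hgeo : ∀ z : SymEP α n, z.1.2 = 1 → ∃ σ : N ≃ₐ[E] N, Rel σ z ∧
      ∀ a : K₀, σ (algebraMap K₀ N a) = algebraMap K₀ N a := by
    intro z hz
    obtain ⟨σ, hσ1, hσ2⟩ := hG z.1.1 (fun i => by rw [z.2 i, hz])
    have h1 : ∀ x : E, σ (algebraMap E N x) = algebraMap E N x := by
      refine hEfix (σ : N →+* N) (fun a => ?_) hσ1
      rw [IsScalarTower.algebraMap_apply K K₀ N]
      exact σ.commutes _
    refine ⟨AlgEquiv.ofRingEquiv (f := σ.toRingEquiv) h1, ⟨fun a => ?_, hσ2⟩,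
      fun a => σ.commutes a⟩
    rw [hz]
    change σ (algebraMap L N a) = algebraMap L N a
    rw [IsScalarTower.algebraMap_apply L K₀ N]
    exact σ.commutes _
  have hsurj : Function.Surjective π := by
    intro z
    obtain ⟨σ₀, hσ₀⟩ := hcoef (z.1.2.liftNormal K₀)
    have h1 : (π σ₀).1.2 = z.1.2 := by
      apply AlgEquiv.ext
      intro a
      apply (algebraMap L N).injective
      rw [← (hπ σ₀).1, IsScalarTower.algebraMap_apply L K₀ N, hσ₀,
        AlgEquiv.liftNormal_commutes, ← IsScalarTower.algebraMap_apply L K₀ N]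
    obtain ⟨σ₁, hσ₁, -⟩ := hgeo (z * (π σ₀)⁻¹) (by
      change z.1.2 * ((π σ₀).1.2)⁻¹ = 1
      rw [h1, mul_inv_cancel])
    refine ⟨σ₁ * σ₀, huniq _ _ _ (hπ _) ?_⟩
    have h2 := hmul σ₀ σ₁ _ _ (hπ σ₀) hσ₁
    rw [inv_mul_cancel_right] at h2
    exact h2
  -- the field
  let b := Module.finBasis K L
  let gen : (Fin (Module.finrank K L)) ⊕ (Fin n ⊕ (Fin n × G)) → N :=
    Sum.elim (fun q => algebraMap L N (b q)) (Sum.elim r (fun p => vv p.1 p.2))
  let M : IntermediateField E N := IntermediateField.adjoin E (Set.range gen)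
  have hMgen : ∀ p, gen p ∈ M := fun p => IntermediateField.subset_adjoin _ _ ⟨p, rfl⟩
  have hML : ∀ a : L, algebraMap L N a ∈ M := by
    intro a
    rw [← b.sum_repr a, map_sum]
    refine sum_mem fun q _ => ?_
    rw [Algebra.smul_def, map_mul]
    refine mul_mem ?_ (hMgen (Sum.inl q))
    rw [← IsScalarTower.algebraMap_apply K L N, IsScalarTower.algebraMap_apply K E N]
    exact M.algebraMap_mem _
  have hMr : ∀ i, r i ∈ M := fun i => hMgen (Sum.inr (Sum.inl i))
  have hMv : ∀ i g, vv i g ∈ M := fun i g => hMgen (Sum.inr (Sum.inr (i, g)))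
  have hMfd : FiniteDimensional E M :=
    IntermediateField.finiteDimensional_adjoin fun x _ =>
      (halgEN.isAlgebraic x).isIntegral
  have hMn : Normal E M := by
    rw [IntermediateField.normal_iff_forall_map_le']
    intro σ
    rw [IntermediateField.adjoin_map, IntermediateField.adjoin_le_iff]
    rintro _ ⟨_, ⟨p, rfl⟩, rfl⟩
    rcases p with q | i | p
    · change σ (algebraMap L N (b q)) ∈ M
      rw [(hπ σ).1]
      exact hML _
    · change σ (r i) ∈ M
      rw [((hπ σ).2 i).1]
      exact hMr _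
    · change σ (vv p.1 p.2) ∈ M
      rw [((hπ σ).2 p.1).2]
      exact hMv _ _
  have hMfix : ∀ σ : N ≃ₐ[E] N, π σ = 1 ↔ ∀ x : M, σ x = x := by
    intro σ
    constructor
    · intro h
      have h1 := hπ σ
      rw [h] at h1
      have h2 : M ≤ eqF (σ : N →ₐ[E] N) (AlgHom.id E N) := by
        rw [IntermediateField.adjoin_le_iff]
        rintro _ ⟨p, rfl⟩
        rw [SetLike.mem_coe, mem_eqF]
        rcases p with q | i | p
        · exact h1.1 (b q)
        · exact (h1.2 i).1
        · change σ (vv p.1 p.2) = vv p.1 p.2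
          rw [(h1.2 p.1).2]
          change vv p.1 (1 * p.2) = vv p.1 p.2
          rw [one_mul]
      exact fun x => h2 x.2
    · intro h
      refine huniq _ _ _ (hπ σ) ⟨fun a => h ⟨_, hML a⟩, fun i => ⟨h ⟨_, hMr i⟩, fun g => ?_⟩⟩
      change σ (vv i g) = vv i (1 * g)
      rw [one_mul, h ⟨_, hMv i g⟩]
  have hker : (AlgEquiv.restrictNormalHom (F := E) (K₁ := N) M).ker = π.ker := by
    ext σ
    rw [MonoidHom.mem_ker, MonoidHom.mem_ker, hMfix]
    constructor
    · intro h x
      have h1 := AlgEquiv.restrictNormal_commutes σ M x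
      have h2 : σ.restrictNormal M = 1 := h
      rw [h2] at h1
      exact h1.symm
    · intro h
      apply AlgEquiv.ext
      intro x
      apply Subtype.ext
      have h1 := AlgEquiv.restrictNormal_commutes σ M x
      exact h1.trans (h x)
  obtain ⟨γ, hγ⟩ := exists_equiv_of_ker (AlgEquiv.restrictNormalHom (F := E) (K₁ := N) M) π
    (AlgEquiv.restrictNormalHom_surjective N) hsurj hker
  let _ : Algebra L M := ((algebraMap L N).codRestrict M hML).toAlgebra
  have hTKLM : IsScalarTower K L M := IsScalarTower.of_algebraMap_eq fun x => by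
    apply Subtype.ext
    change algebraMap K N x = algebraMap L N (algebraMap K L x)
    exact IsScalarTower.algebraMap_apply K L N x
  have hMgal : IsGalois E M := ⟨⟩
  refine ⟨E, iE1, iE3, iE5, iE2, iE4, M, inferInstance, inferInstance, inferInstance,
    inferInstance, inferInstance, hTKLM, hMfd, hMgal, γ, ?_, ?_⟩
  · intro σ' x
    obtain ⟨σ, rfl⟩ := AlgEquiv.restrictNormalHom_surjective (F := E) (K₁ := M) N σ'
    rw [hγ]
    apply Subtype.ext
    have h1 := AlgEquiv.restrictNormal_commutes σ M (algebraMap L M x)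
    exact h1.trans ((hπ σ).1 x)
  · intro y hy
    -- y is a constant
    have hyK₀ : ∃ c : K₀, algebraMap K₀ N c = (y : N) := by
      have hTLMN : IsScalarTower L M N := IsScalarTower.of_algebraMap_eq fun x => rfl
      have h1 : IsAlgebraic L (y : N) := hy.algebraMap (A := N)
      have h2 : IsAlgebraic K₀ (y : N) := h1.tower_top K₀
      exact minpoly.mem_range_of_degree_eq_one K₀ (y : N)
        (IsAlgClosed.degree_eq_one_of_irreducible K₀ (minpoly.irreducible h2.isIntegral))
    obtain ⟨c, hc⟩ := hyK₀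
    have hgalL : IsGalois L K₀ := by
      have : IsAlgClosure L K₀ := ⟨inferInstance, inferInstance⟩
      have : Normal L K₀ := IsAlgClosure.normal L K₀
      exact ⟨⟩
    have hcbot : c ∈ (⊥ : IntermediateField L K₀) := by
      rw [InfiniteGalois.mem_bot_iff_fixed]
      intro f
      obtain ⟨σ₀, hσ₀⟩ := hcoef (f.restrictScalars K)
      have hσ₀L : (π σ₀).1.2 = 1 := by
        apply AlgEquiv.ext
        intro a
        apply (algebraMap L N).injective
        have e1 : (f.restrictScalars K) (algebraMap L K₀ a) = algebraMap L K₀ a := f.commutes a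
        rw [← (hπ σ₀).1, IsScalarTower.algebraMap_apply L K₀ N, hσ₀, e1,
          ← IsScalarTower.algebraMap_apply]
        rfl
      obtain ⟨σ₁, hσ₁, hσ₁K⟩ := hgeo (π σ₀) hσ₀L
      have h3 : π σ₁ = π σ₀ := huniq _ _ _ (hπ σ₁) hσ₁
      have h4 : π (σ₁⁻¹ * σ₀) = 1 := by
        rw [map_mul, map_inv, h3, inv_mul_cancel]
      have h5 := (hMfix _).1 h4 y
      rw [← hc] at h5
      have h6 : σ₀ (algebraMap K₀ N c) = σ₁ (algebraMap K₀ N c) := by
        have h7 : (σ₁⁻¹ * σ₀) (algebraMap K₀ N c) = σ₁⁻¹ (σ₀ (algebraMap K₀ N c)) := rfl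
        rw [h7] at h5
        rw [← h5]
        have h8 : ∀ z, σ₁ (σ₁⁻¹ z) = z := fun z => by
          change (σ₁ * σ₁⁻¹) z = z
          rw [mul_inv_cancel]
          rfl
        rw [h8, h5]
      rw [hσ₀, hσ₁K] at h6
      exact (algebraMap K₀ N).injective h6
    obtain ⟨a, ha⟩ := IntermediateField.mem_bot.1 hcbot
    refine ⟨a, ?_⟩
    apply Subtype.ext
    change algebraMap L N a = y
    rw [← hc, ← ha, ← IsScalarTower.algebraMap_apply]

end ari

end Pool.Agent.N600.NS
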