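import Mathlib
import Pool.Agent.N600.NS.ParA
import Pool.Agent.H391R2.T4.Dt3
import Pool.Agent.W200.IK.DB
import Pool.Agent.TH59.WX.UA

/-!
# The data of the construction
-/

set_option autoImplicit false

namespace Pool.Agent.N600.NS

open MvPolynomial
open Pool.Agent.H391R2 hiding PhiP_eval_prod Phi_eval_prod Sol SolP SolP_Pc SolP_map SolP_mulLeft
  SolP_of_map SolP_root Sol_map Sol_mulLeft Sol_root aeval_mem_orb aeval_mulLeft class_eq
  exists_Sol exists_SolP exists_psi indep_v main_abs mem_orb norm_theorem norm_theorem_aux nt_core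
  orb orb_image pair_aut pair_indep pr psi_map qv qv_map rename_mem_orb rr rr_eq rr_map sol_place
  stab_path tv tv_mulLeft uniq_of_y0 unique_v
open Pool.Agent.H391R2.T4

set_option linter.unusedSectionVars false

section ypoly

variable {K L K₀ : Type} [Field K] [CharZero K] [Field L] [Algebra K L]
  [FiniteDimensional K L] [IsGalois K L]
  [Field K₀] [Algebra K K₀] [Algebra L K₀] [IsScalarTower K L K₀]
  {G : Type} [Group G] [Fintype G]

/-- The polynomial. -/
noncomputable def yb (K₀ : Type) [Field K₀] [Algebra L K₀] (α : G →* (L ≃ₐ[K] L))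
    (c : L) : MvPolynomial G K₀ :=
  ∑ b : G, C (algebraMap L K₀ (α b c)) * rename (fun x => b * x) (monomial (mu G) (1 : K₀))

theorem yb_si (α : G →* (L ≃ₐ[K] L)) (c : L) (f : K₀ →+* K₀) (β : G)
    (hf : ∀ a, f (algebraMap L K₀ a) = algebraMap L K₀ (α β a)) :
    rename (Equiv.mulLeft β) (MvPolynomial.map f (yb K₀ α c)) = yb K₀ α c := by
  unfold yb
  rw [map_sum, map_sum]
  conv_rhs => rw [← Equiv.sum_comp (Equiv.mulLeft β)]
  refine Finset.sum_congr rfl fun b _ => ?_
  rw [map_mul, map_C, hf, map_mul, rename_C, MvPolynomial.map_rename, rename_rename, map_monomial,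
    map_one, Equiv.coe_mulLeft, map_mul]
  congr 3
  funext x
  change β * (b * x) = β * b * x
  rw [mul_assoc]

theorem yb_inv (α : G →* (L ≃ₐ[K] L)) (c : L) (h : α.ker) :
    rename (Equiv.mulLeft (h : G)) (yb K₀ α c) = yb K₀ α c := by
  have h1 := yb_si (K₀ := K₀) α c (RingHom.id K₀) (h : G) (fun a => by
    have h2 : α (h : G) = 1 := h.2
    rw [h2]
    rfl)
  rwa [MvPolynomial.map_id] at h1

open Classical in
theorem yb_coeff (α : G →* (L ≃ₐ[K] L)) (c : L) (π : Equiv.Perm G) :
    coeff (Finsupp.mapDomain π (mu G)) (yb K₀ α c) =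
      ∑ b : G, if (fun x => b * x) = π then algebraMap L K₀ (α b c) else 0 := by
  unfold yb
  rw [coeff_sum]
  refine Finset.sum_congr rfl fun b _ => ?_
  rw [coeff_C_mul, rename_monomial, coeff_monomial]
  by_cases h : (fun x => b * x) = π
  · rw [if_pos h, if_pos (by rw [h]), mul_one]
  · rw [if_neg h, if_neg, mul_zero]
    intro h1
    apply h
    have hinj : Function.Injective (fun x => b * x) := fun a c hac => mul_left_cancel hac
    funext x
    have h2 := DFunLike.congr_fun h1 (b * x)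
    have h3 : Finsupp.mapDomain (fun x => b * x) (mu G) (b * x) = mu G x :=
      Finsupp.mapDomain_apply hinj _ x
    rw [h3] at h2
    obtain ⟨z, hz⟩ := π.surjective (b * x)
    rw [← hz, Finsupp.mapDomain_apply π.injective] at h2
    have h4 : x = z := mu_inj G h2
    change b * x = π x
    rw [← hz, h4]

theorem yb_stab (α : G →* (L ≃ₐ[K] L)) (c : L) (hc0 : c ≠ 0)
    (hc : ∀ ρ : L ≃ₐ[K] L, ρ c = c → ρ = 1) (π : Equiv.Perm G)
    (h : rename π (yb K₀ α c) = yb K₀ α c) : ∃ g : α.ker, π = Equiv.mulLeft (g : G) := by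
  classical
  have h1 : coeff (mu G) (yb K₀ α c) = coeff (Finsupp.mapDomain π (mu G)) (yb K₀ α c) := by
    nth_rewrite 2 [← h]
    exact (coeff_rename_mapDomain π π.injective _ _).symm
  -- the general coefficient
  have h2 : ∀ (b₀ : G) (σ : Equiv.Perm G), (fun x => b₀ * x) = σ →
      coeff (Finsupp.mapDomain σ (mu G)) (yb K₀ α c) = algebraMap L K₀ (α b₀ c) := by
    intro b₀ σ hσ
    rw [yb_coeff, Finset.sum_eq_single b₀]
    · rw [if_pos hσ]
    · intro b _ hb
      rw [if_neg]
      intro h4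
      rw [← hσ] at h4
      have h5 := congrFun h4 1
      simp only [mul_one] at h5
      exact hb h5
    · intro h5
      exact absurd (Finset.mem_univ _) h5
  have h3 := h2 1 1 (by
    funext x
    simp)
  have h4 : Finsupp.mapDomain (1 : Equiv.Perm G) (mu G) = mu G := by
    rw [Equiv.Perm.coe_one]
    exact Finsupp.mapDomain_id
  rw [h4, map_one] at h3
  have h5 : coeff (mu G) (yb K₀ α c) ≠ 0 := by
    rw [h3, _root_.map_ne_zero]
    exact hc0
  -- a representative
  have h6 : ∃ b : G, (fun x => b * x) = π := by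
    by_contra hne
    push Not at hne
    apply h5
    rw [h1, yb_coeff]
    exact Finset.sum_eq_zero fun b _ => if_neg (hne b)
  obtain ⟨b, hb⟩ := h6
  have h7 := h2 b π hb
  rw [← h1, h3] at h7
  have h8 : α b = 1 := hc _ ((algebraMap L K₀).injective h7).symm
  refine ⟨⟨b, h8⟩, ?_⟩
  apply Equiv.ext
  intro x
  exact (congrFun hb x).symm

theorem yb_data (α : G →* (L ≃ₐ[K] L)) (c : L) (hc0 : c ≠ 0)
    (hc : ∀ ρ : L ≃ₐ[K] L, ρ c = c → ρ = 1) : YD α.ker (yb K₀ α c) :=
  ⟨yb_inv α c, yb_stab α c hc0 hc⟩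

theorem yb_deg (α : G →* (L ≃ₐ[K] L)) (c : L) :
    (yb K₀ α c).totalDegree ≤ (Fintype.card G) ^ 2 := by
  unfold yb
  refine totalDegree_finsetSum_le fun g _ => ?_
  refine (totalDegree_mul _ _).trans ?_
  rw [totalDegree_C, zero_add]
  refine (totalDegree_rename_le _ _).trans ?_
  refine (totalDegree_monomial_le _ _).trans ?_
  exact Pool.Agent.W200.IK.mu_sum_le

end ypoly

section card

variable {k : Type} [Field k] {G : Type} [Group G] [Fintype G] {G₀ : Subgroup G}
  {y : MvPolynomial G k}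

/-- The size of the orbit. -/
theorem card_orb (hY : YD G₀ y) : (orb y).card * Nat.card G₀ = (Fintype.card G).factorial := by
  classical
  have h1 : (Finset.univ : Finset (Equiv.Perm G)).card =
      ∑ q ∈ orb y, (Finset.univ.filter (fun π : Equiv.Perm G => rename π y = q)).card :=
    Finset.card_eq_sum_card_fiberwise (fun π _ => (mem_orb y).2 ⟨π, rfl⟩)
  have h2 : ∀ q ∈ orb y, (Finset.univ.filter (fun π : Equiv.Perm G => rename π y = q)).card =
      Nat.card G₀ := by
    intro q hq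
    obtain ⟨π₀, hπ₀⟩ := (mem_orb y).1 hq
    have := Fintype.ofFinite G₀
    rw [Nat.card_eq_fintype_card, ← Finset.card_univ]
    symm
    refine Finset.card_bij (fun (g : G₀) _ => π₀ * Equiv.mulLeft (g : G)) ?_ ?_ ?_
    · intro g _
      rw [Finset.mem_filter]
      refine ⟨Finset.mem_univ _, ?_⟩
      rw [← hπ₀, Equiv.Perm.coe_mul, ← rename_rename, hY.inv]
    · intro g _ g' _ hgg
      have h3 := mul_left_cancel hgg
      have h4 := congrArg (fun e : Equiv.Perm G => e 1) h3
      simp only [Equiv.coe_mulLeft, mul_one] at h4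
      exact Subtype.ext h4
    · intro π hπ
      rw [Finset.mem_filter] at hπ
      have h3 : rename (π₀⁻¹ * π : Equiv.Perm G) y = y := by
        rw [Equiv.Perm.coe_mul, ← rename_rename, hπ.2, ← hπ₀, rename_rename,
          ← Equiv.Perm.coe_mul, inv_mul_cancel]
        simp
      obtain ⟨g, hg⟩ := hY.stab _ h3
      refine ⟨g, Finset.mem_univ _, ?_⟩
      rw [← hg, mul_inv_cancel_left]
  rw [Finset.sum_congr rfl h2, Finset.sum_const, smul_eq_mul, Finset.card_univ,
    Fintype.card_perm] at h1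
  exact h1.symm

theorem dvd_orb {Γ : Type} [Group Γ] (α : G →* Γ) (hα : Function.Surjective α)
    {y : MvPolynomial G k} (hY : YD α.ker y) : Nat.card Γ ∣ (orb y).card := by
  have h1 := card_orb hY
  have h2 : Nat.card G = Nat.card Γ * Nat.card α.ker := by
    rw [Subgroup.card_eq_card_quotient_mul_card_subgroup α.ker,
      Nat.card_congr (QuotientGroup.quotientKerEquivOfSurjective α hα).toEquiv]
  rw [Nat.card_eq_fintype_card] at h2
  have h3 : 0 < Fintype.card G := Fintype.card_pos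
  obtain ⟨g, hg⟩ : ∃ g, Fintype.card G = g + 1 := ⟨Fintype.card G - 1, by omega⟩
  have h4 : 0 < Nat.card α.ker := Nat.card_pos
  refine ⟨g.factorial, ?_⟩
  apply Nat.eq_of_mul_eq_mul_right h4
  rw [h1, hg, Nat.factorial_succ, ← hg, h2]
  ring

end card

/-- The numbers. -/
theorem numbers6 (g c s D T q : ℕ) (hD : 0 < D) (hDg : D ≤ g.factorial)
    (hT : T ≤ g.factorial * g ^ 2) (hq : q ≤ c * g) (hsD : s ∣ D) (hsq : s ∣ q)
    (n : ℕ) (hn : Pool.Agent.TH59.WX.nb g c ≤ n) (hsn : s ∣ n) : 3 ≤ n ∧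
    ∃ j M : ℕ, q + s * j + 1 < M ∧ T * (q + s * j + 1) < M ∧ D * M = n + (q + s * j) := by
  have hn : 3 + D * ((T + 1) * (q + D + 1) + 2) ≤ n := by
    refine le_trans ?_ hn
    unfold Pool.Agent.TH59.WX.nb
    have h1 : (T + 1) * (q + D + 1) ≤ (g.factorial * g ^ 2 + 1) * (c * g + g.factorial + 1) :=
      Nat.mul_le_mul (by omega) (by omega)
    have h2 : D * ((T + 1) * (q + D + 1) + 2) ≤
        g.factorial * ((g.factorial * g ^ 2 + 1) * (c * g + g.factorial + 1) + 2) :=
      Nat.mul_le_mul hDg (by omega)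
    omega
  refine ⟨by omega, ?_⟩
  obtain ⟨j₀, M, hj, hM⟩ : ∃ j M, j < D ∧ D * M = n + (q + j) := by
    have h1 := Nat.div_add_mod (n + q) D
    have h2 := Nat.mod_lt (n + q) hD
    by_cases h0 : (n + q) % D = 0
    · exact ⟨0, (n + q) / D, hD, by omega⟩
    · refine ⟨D - (n + q) % D, (n + q) / D + 1, by omega, ?_⟩
      rw [mul_add, mul_one]
      omega
  have hsj : s ∣ j₀ := by
    have h1 : s ∣ n + (q + j₀) := by
      rw [← hM]
      exact hsD.mul_right M
    have h2 : s ∣ q + j₀ := (Nat.dvd_add_right hsn).1 h1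
    exact (Nat.dvd_add_right hsq).1 h2
  obtain ⟨j, rfl⟩ := hsj
  refine ⟨j, M, ?_, ?_, hM⟩
  · have h1 : D * ((T + 1) * (q + D + 1) + 2) < D * M := by omega
    have h2 : (T + 1) * (q + D + 1) + 2 < M := Nat.lt_of_mul_lt_mul_left h1
    nlinarith
  · have h1 : D * ((T + 1) * (q + D + 1) + 2) < D * M := by omega
    have h2 : (T + 1) * (q + D + 1) + 2 < M := Nat.lt_of_mul_lt_mul_left h1
    nlinarith

section nodes

variable (K L L' : Type) [Field K] [CharZero K] [Field L] [Algebra K L]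
  [FiniteDimensional K L] [IsGalois K L] [Field L'] [Algebra K L']
  [FiniteDimensional K L'] [IsGalois K L'] [Algebra L L'] [IsScalarTower K L L']

theorem exists_nodes2 (S T : Type) [Finite S] [Finite T] :
    ∃ nod : ((((L' ≃ₐ[K] L') × S) ⊕ ((L ≃ₐ[K] L) × T)) ⊕ ℕ) → L',
    Function.Injective nod ∧ (∀ v, nod v ≠ 0) ∧
    (∀ (ρ γ : L' ≃ₐ[K] L') (g : S),
      ρ (nod (Sum.inl (Sum.inl (γ, g)))) = nod (Sum.inl (Sum.inl (ρ * γ, g)))) ∧
    (∀ (ρ : L' ≃ₐ[K] L') (γ : L ≃ₐ[K] L) (g : T),
      ρ (nod (Sum.inl (Sum.inr (γ, g)))) = nod (Sum.inl (Sum.inr (ρ.restrictNormal L * γ, g)))) ∧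
    ∀ (ρ : L' ≃ₐ[K] L') (m : ℕ), ρ (nod (Sum.inr m)) = nod (Sum.inr m) := by
  classical
  obtain ⟨θ', hθ'⟩ := exists_prim K L'
  obtain ⟨θ, hθ⟩ := exists_prim K L
  have hinj := (algebraMap K L').injective
  have hinf : Infinite K := inferInstance
  -- finite bad sets: preimages of finite sets
  have hfin : ∀ X : Set L', X.Finite → ((algebraMap K L') ⁻¹' X).Finite := fun X hX =>
    hX.preimage hinj.injOn
  obtain ⟨c, hc, hcS⟩ := exists_nat_avoid K ((algebraMap K L') ⁻¹'
    (Set.range fun γ : L' ≃ₐ[K] L' => -γ θ')) (hfin _ (Set.finite_range _))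
  obtain ⟨e⟩ : Nonempty (S ↪ ℕ) := by
    have := Fintype.ofFinite S
    exact ⟨(Fintype.equivFin S).toEmbedding.trans Fin.valEmbedding⟩
  obtain ⟨e'⟩ : Nonempty (T ↪ ℕ) := by
    have := Fintype.ofFinite T
    exact ⟨(Fintype.equivFin T).toEmbedding.trans Fin.valEmbedding⟩
  let n1 : (L' ≃ₐ[K] L') × S → L' := fun p => p.1 θ' + algebraMap K L' (c (e p.2))
  obtain ⟨c', hc', hcS'⟩ := exists_nat_avoid K ((algebraMap K L') ⁻¹'
    ((Set.range fun γ : L ≃ₐ[K] L => -algebraMap L L' (γ θ)) ∪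
      (Set.range fun p : ((L' ≃ₐ[K] L') × S) × (L ≃ₐ[K] L) => n1 p.1 - algebraMap L L' (p.2 θ))))
      (hfin _ ((Set.finite_range _).union (Set.finite_range _)))
  let n2 : (L ≃ₐ[K] L) × T → L' := fun p => algebraMap L L' (p.1 θ) + algebraMap K L' (c' (e' p.2))
  obtain ⟨c'', hc'', hcS''⟩ := exists_nat_avoid K ((algebraMap K L') ⁻¹'
    ({0} ∪ (Set.range n1 ∪ Set.range n2))) (hfin _ ((Set.finite_singleton _).union
      ((Set.finite_range _).union (Set.finite_range _))))
  refine ⟨Sum.elim (Sum.elim n1 n2) (fun m => algebraMap K L' (c'' m)), ?_, ?_, ?_, ?_, ?_⟩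
  · have h11 : Function.Injective n1 := by
      intro p p' h
      change p.1 θ' + algebraMap K L' (c (e p.2)) = p'.1 θ' + algebraMap K L' (c (e p'.2)) at h
      have h1 : p.1 = p'.1 := hθ' _ _ ⟨c (e p'.2) - c (e p.2), by
        rw [map_sub]
        linear_combination h⟩
      have h2 : p.2 = p'.2 := by
        rw [h1] at h
        exact e.injective (hc (hinj (add_left_cancel h)))
      exact Prod.ext h1 h2
    have h22 : Function.Injective n2 := by
      intro p p' h
      change algebraMap L L' (p.1 θ) + algebraMap K L' (c' (e' p.2)) =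
        algebraMap L L' (p'.1 θ) + algebraMap K L' (c' (e' p'.2)) at h
      have h1 : p.1 = p'.1 := hθ _ _ ⟨c' (e' p'.2) - c' (e' p.2), by
        apply (algebraMap L L').injective
        rw [map_sub, ← IsScalarTower.algebraMap_apply K L L', map_sub]
        linear_combination h⟩
      have h2 : p.2 = p'.2 := by
        rw [h1] at h
        exact e'.injective (hc' (hinj (add_left_cancel h)))
      exact Prod.ext h1 h2
    have h12 : ∀ p p', n1 p ≠ n2 p' := by
      intro p p' h
      refine hcS' (e' p'.2) (Or.inr ⟨(p, p'.1), ?_⟩)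
      change n1 p - algebraMap L L' (p'.1 θ) = algebraMap K L' (c' (e' p'.2))
      rw [h]
      change algebraMap L L' (p'.1 θ) + algebraMap K L' (c' (e' p'.2)) - _ = _
      ring
    rintro ((p | p) | m) ((p' | p') | m') h
    · rw [h11 h]
    · exact absurd h (h12 _ _)
    · exact absurd (show c'' m' ∈ _ from Or.inr (Or.inl ⟨p, h⟩)) (hcS'' m')
    · exact absurd h.symm (h12 _ _)
    · rw [h22 h]
    · exact absurd (show c'' m' ∈ _ from Or.inr (Or.inr ⟨p, h⟩)) (hcS'' m')
    · exact absurd (show c'' m ∈ _ from Or.inr (Or.inl ⟨p', h.symm⟩)) (hcS'' m)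
    · exact absurd (show c'' m ∈ _ from Or.inr (Or.inr ⟨p', h.symm⟩)) (hcS'' m)
    · exact congrArg _ (hc'' (hinj h))
  · rintro ((p | p) | m)
    · intro h
      refine hcS (e p.2) ⟨p.1, ?_⟩
      change p.1 θ' + algebraMap K L' (c (e p.2)) = 0 at h
      change -p.1 θ' = algebraMap K L' (c (e p.2))
      linear_combination -h
    · intro h
      refine hcS' (e' p.2) (Or.inl ⟨p.1, ?_⟩)
      change algebraMap L L' (p.1 θ) + algebraMap K L' (c' (e' p.2)) = 0 at h
      change -algebraMap L L' (p.1 θ) = algebraMap K L' (c' (e' p.2))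
      linear_combination -h
    · intro h
      exact hcS'' m (Or.inl h)
  · intro ρ γ g
    change ρ (γ θ' + algebraMap K L' (c (e g))) = (ρ * γ) θ' + algebraMap K L' (c (e g))
    rw [map_add, ρ.commutes]
    rfl
  · intro ρ γ g
    change ρ (algebraMap L L' (γ θ) + algebraMap K L' (c' (e' g))) =
      algebraMap L L' ((ρ.restrictNormal L * γ) θ) + algebraMap K L' (c' (e' g))
    rw [map_add, ρ.commutes, ← AlgEquiv.restrictNormal_commutes ρ L]
    rfl
  · intro ρ m
    exact ρ.commutes _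

end nodes

end Pool.Agent.N600.NS
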