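import Mathlib
import Pool.Agent.N600.NS.DatA

/-!
# Symmetric fibre powers of arbitrary embedding problems
-/

set_option autoImplicit false

namespace Pool.Agent.N600.NS

open MvPolynomial
open Pool.Agent.H391R2 hiding PhiP_eval_prod Phi_eval_prod Sol SolP SolP_Pc SolP_map SolP_mulLeft
  SolP_of_map SolP_root Sol_map Sol_mulLeft Sol_root aeval_mem_orb aeval_mulLeft class_eq
  exists_Sol exists_SolP exists_psi indep_v main_abs mem_orb norm_theorem norm_theorem_aux nt_core
  orb orb_image pair_aut pair_indep pr psi_map qv qv_map rename_mem_orb rr rr_eq rr_map sol_place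
  stab_path tv tv_mulLeft uniq_of_y0 unique_v
open Pool.Agent.H391R2.T4

set_option linter.unusedSectionVars false

section gen

/-- The permutation of the nodes with inertia. -/
def permQ {Γ' S : Type} [Group Γ'] : Γ' →* Equiv.Perm (Γ' × S) where
  toFun ρ := Equiv.prodCongr (Equiv.mulLeft ρ) (Equiv.refl S)
  map_one' := by
    apply Equiv.ext
    intro p
    change ((1 : Γ') * p.1, p.2) = _
    rw [one_mul]
    rfl
  map_mul' ρ ρ' := by
    apply Equiv.ext
    intro p
    change (ρ * ρ' * p.1, p.2) = (ρ * (ρ' * p.1), p.2)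
    rw [mul_assoc]

end gen

section emb

variable (K L : Type) [Field K] [CharZero K] [Field L] [Algebra K L] [FiniteDimensional K L]
variable (V : Type) [Fintype V] (act : (L ≃ₐ[K] L) →* Equiv.Perm V)

/-- Equivariant embeddings of finite sets. -/
theorem exists_emb : ∃ nod : V → L, Function.Injective nod ∧ (∀ v, nod v ≠ 0) ∧
    ∀ (ρ : L ≃ₐ[K] L) v, ρ (nod v) = nod (act ρ v) := by
  classical
  obtain ⟨a, b, ha, hb⟩ := exists_desc K L V act
  have hinfK : Infinite K := inferInstance
  have hinj : Function.Injective (algebraMap K L) := (algebraMap K L).injective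
  let Λ : V → MvPolynomial V L := fun v => ∑ u, C (a u v) * X u
  have hΛ : ∀ (x : V → L) (v : V), aeval x (Λ v) = ∑ u, a u v * x u := by
    intro x v
    simp only [Λ, map_sum, map_mul, aeval_X, aeval_C]
    rfl
  have hcoef : ∀ v v', ∑ u, b v u * a u v' = if v = v' then 1 else 0 := hb
  have hval : ∀ v v', aeval (fun u => b v u) (Λ v') = if v = v' then 1 else 0 := by
    intro v v'
    rw [hΛ, ← hcoef]
    exact Finset.sum_congr rfl fun u _ => mul_comm _ _
  let P : MvPolynomial V L := (∏ v, Λ v) * ∏ p : V × V, if p.1 = p.2 then 1 else Λ p.1 - Λ p.2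
  have hP : P ≠ 0 := by
    refine mul_ne_zero (Finset.prod_ne_zero_iff.2 fun v _ h => ?_)
      (Finset.prod_ne_zero_iff.2 fun p _ => ?_)
    · have h1 := hval v v
      rw [h, map_zero, if_pos rfl] at h1
      exact zero_ne_one h1
    · by_cases h : p.1 = p.2
      · rw [if_pos h]
        exact one_ne_zero
      · rw [if_neg h]
        intro h0
        have h1 := hval p.1 p.1
        have h2 := hval p.1 p.2
        rw [sub_eq_zero] at h0
        rw [if_pos rfl] at h1
        rw [if_neg h] at h2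
        rw [h0, h2] at h1
        exact zero_ne_one h1
  obtain ⟨x, hx, hx0⟩ : ∃ x ∈ Set.pi Set.univ
      (fun _ : V => Set.range (algebraMap K L)), eval x P ≠ 0 := by
    by_contra hne
    push Not at hne
    apply hP
    refine MvPolynomial.funext_set _ (fun _ => Set.infinite_range_of_injective hinj)
      fun a ha => ?_
    rw [hne a ha, map_zero]
  choose x' hx' using fun p => hx p (Set.mem_univ p)
  have hev : ∀ v, eval x (Λ v) = ∑ u, a u v * x u := fun v => hΛ x v
  refine ⟨fun v => ∑ u, a u v * x u, ?_, ?_, ?_⟩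
  · intro v v' hvv
    by_contra hne
    apply hx0
    rw [map_mul, map_prod, map_prod, Finset.prod_eq_zero (Finset.mem_univ (v, v')) (by
      simp only
      rw [if_neg hne, map_sub, hev, hev]
      exact sub_eq_zero.2 hvv), mul_zero]
  · intro v h
    apply hx0
    rw [map_mul, map_prod, Finset.prod_eq_zero (Finset.mem_univ v) (by rw [hev]; exact h),
      zero_mul]
  · intro ρ v
    rw [map_sum]
    refine Finset.sum_congr rfl fun u _ => ?_
    rw [map_mul, ha, ← hx', ρ.commutes]

end emb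

section fin

variable (K L L' : Type) [Field K] [CharZero K] [Field L] [Algebra K L]
  [FiniteDimensional K L] [IsGalois K L] [Field L'] [Algebra K L']
  [FiniteDimensional K L'] [IsGalois K L'] [Algebra L L'] [IsScalarTower K L L']

/-- The degree in the construction. -/
def dg (g k : ℕ) : ℕ := g.factorial / k

/-- The bound for the total degree. -/
def tg (g : ℕ) : ℕ := g.factorial * g ^ 2

open Classical in
theorem sym_one (G : Type) [Group G] [Fintype G] (hG3 : 3 ≤ Fintype.card G)
    (α : G →* (L ≃ₐ[K] L)) (hα : Function.Surjective α) (e : ℕ) (he : 0 < e)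
    (hge : ∀ g : α.ker, g ^ e = 1) (ζ : L') (hζ : IsPrimitiveRoot ζ e)
    (Z : Type) [Fintype Z] (πZ : (L' ≃ₐ[K] L') →* Equiv.Perm Z) (βZ : (L' ≃ₐ[K] L') → Z → G)
    (hβZ : ∀ ρ ρ' z, βZ (ρ * ρ') z = βZ ρ (πZ ρ' z) * βZ ρ' z)
    (hαβ : ∀ ρ z, α (βZ ρ z) = ρ.restrictNormal L) (n M : ℕ) (hn3 : 3 ≤ n)
    (hJM : Nat.card (L' ≃ₐ[K] L') * Nat.card α.ker + Fintype.card Z + 1 < M)
    (hTM : tg (Fintype.card G) *
      (Nat.card (L' ≃ₐ[K] L') * Nat.card α.ker + Fintype.card Z + 1) < M)
    (hDM : dg (Fintype.card G) (Nat.card α.ker) * M =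
      n + (Nat.card (L' ≃ₐ[K] L') * Nat.card α.ker + Fintype.card Z)) :
    ∃ (ι : Type) (_ : Finite ι) (E : Type) (_ : Field E) (_ : Algebra (MvPolynomial ι K) E)
      (_ : IsFractionRing (MvPolynomial ι K) E) (_ : Algebra K E)
      (_ : IsScalarTower K (MvPolynomial ι K) E)
      (F : Type) (_ : Field F) (_ : Algebra E F) (_ : Algebra L F) (_ : Algebra K F)
      (_ : IsScalarTower K E F) (_ : IsScalarTower K L F) (_ : FiniteDimensional E F)
      (_ : IsGalois E F) (γ : (F ≃ₐ[E] F) ≃* SymEP α n),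
      (∀ (σ : F ≃ₐ[E] F) (x : L),
        σ (algebraMap L F x) = algebraMap L F (symProj α n (γ σ) x)) ∧
      (∀ y : F, IsAlgebraic L y → y ∈ Set.range (algebraMap L F)) := by
  have := Fintype.ofFinite (L ≃ₐ[K] L)
  have := Fintype.ofFinite (L' ≃ₐ[K] L')
  let K₀ := AlgebraicClosure L'
  have hcL' : CharZero L' := charZero_of_injective_algebraMap (algebraMap K L').injective
  have hcL : CharZero L := charZero_of_injective_algebraMap (algebraMap K L).injective
  have hcK₀ : CharZero K₀ := charZero_of_injective_algebraMap (algebraMap L' K₀).injective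
  have hTLL' : IsScalarTower L L' K₀ := inferInstance
  have hTKL : IsScalarTower K L K₀ := inferInstance
  have halg : Algebra.IsAlgebraic L K₀ := by
    have : Algebra.IsAlgebraic K K₀ := Algebra.IsAlgebraic.trans K L' K₀
    exact Algebra.IsAlgebraic.tower_top (K := K) L
  have hinj₀ : Function.Injective (algebraMap L' K₀) := (algebraMap L' K₀).injective
  have hinjK : Function.Injective (algebraMap K K₀) := (algebraMap K K₀).injective
  obtain ⟨c₀, hc00, hc0⟩ := exists_ker_elt K L (MonoidHom.id (L ≃ₐ[K] L))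
  obtain ⟨y, hy⟩ : ∃ y : MvPolynomial G K₀, y = yb K₀ α c₀ := ⟨_, rfl⟩
  have hYD : YD α.ker y := by
    rw [hy]
    exact yb_data α c₀ hc00 (fun ρ hρ => (hc0 ρ).1 hρ)
  obtain ⟨Ψ, hm, hdeg, hΨ⟩ := exists_psi y
  have hyd : y.totalDegree ≤ (Fintype.card G) ^ 2 := by
    rw [hy]
    exact yb_deg α c₀
  obtain ⟨T, hTdef⟩ : ∃ T : ℕ, T = tg (Fintype.card G) := ⟨_, rfl⟩
  have hT : ∀ e, (Ψ.coeff e).totalDegree ≤ T := fun e => by
    rw [hTdef]
    exact Pool.Agent.W200.IK.psi_deg y _ hyd hΨ e
  have hd1 : dg (Fintype.card G) (Nat.card α.ker) = (orb y).card := by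
    unfold dg
    rw [← card_orb hYD]
    exact Nat.mul_div_cancel _ Nat.card_pos
  -- the constants
  let P : MvPolynomial G K₀ := (∏ p : G × G, if p.1 = p.2 then 1 else X p.1 - X p.2) *
    ∏ p ∈ (orb y) ×ˢ (orb y), if p.1 = p.2 then 1 else p.1 - p.2
  have hP : P ≠ 0 := by
    refine mul_ne_zero (Finset.prod_ne_zero_iff.2 fun p _ => ?_)
      (Finset.prod_ne_zero_iff.2 fun p _ => ?_)
    · by_cases h : p.1 = p.2
      · rw [if_pos h]
        exact one_ne_zero
      · rw [if_neg h]
        exact sub_ne_zero.2 fun h' => h (X_injective h')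
    · by_cases h : p.1 = p.2
      · rw [if_pos h]
        exact one_ne_zero
      · rw [if_neg h]
        exact sub_ne_zero.2 h
  have hinf₀ : Infinite K₀ := inferInstance
  obtain ⟨lK, hl2⟩ : ∃ lK : G → K₀, aeval lK P ≠ 0 := by
    by_contra hne
    push Not at hne
    apply hP
    apply MvPolynomial.funext
    intro x
    rw [map_zero]
    exact hne x
  have hlinj : Function.Injective lK := by
    intro g g' hgg
    by_contra hne
    apply hl2
    rw [map_mul, map_prod, Finset.prod_eq_zero (Finset.mem_univ (g, g')), zero_mul]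
    simp only [if_neg hne, map_sub, aeval_X, hgg, sub_self]
  have hlδ : ∀ q ∈ orb y, ∀ q' ∈ orb y, q ≠ q' → aeval lK q ≠ aeval lK q' := by
    intro q hq q' hq' hne h
    apply hl2
    rw [map_mul, map_prod, map_prod, Finset.prod_eq_zero
      (Finset.mem_product.2 ⟨hq, hq'⟩ : (q, q') ∈ (orb y) ×ˢ (orb y)), mul_zero]
    simp only [if_neg hne, map_sub, h, sub_self]
  let Q := (L' ≃ₐ[K] L') × α.ker
  have hQcard : Fintype.card Q = Nat.card (L' ≃ₐ[K] L') * Nat.card α.ker := by
    rw [Fintype.card_prod, Nat.card_eq_fintype_card, Nat.card_eq_fintype_card]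
  have hQZ : Fintype.card (Q ⊕ Z) = Nat.card (L' ≃ₐ[K] L') * Nat.card α.ker + Fintype.card Z := by
    rw [Fintype.card_sum, hQcard]
  rw [← hQZ] at hJM hTM hDM
  let res : (L' ≃ₐ[K] L') →* (L ≃ₐ[K] L) := AlgEquiv.restrictNormalHom L
  have hres : Function.Surjective res := AlgEquiv.restrictNormalHom_surjective L'
  let πA : (L' ≃ₐ[K] L') →* Equiv.Perm (Q ⊕ Z) :=
    { toFun := fun ρ => Equiv.sumCongr (permQ ρ) (πZ ρ)
      map_one' := by
        apply Equiv.ext
        rintro (q | z)
        · change Sum.inl (permQ 1 q) = _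
          rw [map_one]
          rfl
        · change Sum.inr (πZ 1 z) = _
          rw [map_one]
          rfl
      map_mul' := fun ρ ρ' => by
        apply Equiv.ext
        rintro (q | z)
        · change Sum.inl (permQ (ρ * ρ') q) = _
          rw [map_mul]
          rfl
        · change Sum.inr (πZ (ρ * ρ') z) = _
          rw [map_mul]
          rfl }
  obtain ⟨j', hj'⟩ : ∃ j', 2 + (Fintype.card (Q ⊕ Z) + j') = M :=
    ⟨M - 2 - Fintype.card (Q ⊕ Z), by omega⟩
  let πV : (L' ≃ₐ[K] L') →* Equiv.Perm ((Q ⊕ Z) ⊕ Fin j') :=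
    { toFun := fun ρ => Equiv.sumCongr (πA ρ) (Equiv.refl _)
      map_one' := by
        apply Equiv.ext
        rintro (q | z)
        · change Sum.inl (πA 1 q) = _
          rw [map_one]
          rfl
        · rfl
      map_mul' := fun ρ ρ' => by
        apply Equiv.ext
        rintro (q | z)
        · change Sum.inl (πA (ρ * ρ') q) = _
          rw [map_mul]
          rfl
        · rfl }
  obtain ⟨nod, hnod1, hnod2, hnod3⟩ := exists_emb K L' ((Q ⊕ Z) ⊕ Fin j') πV
  let nK : (Q ⊕ Z) ⊕ Fin j' → K₀ := fun v => algebraMap L' K₀ (nod v)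
  have hnKinj : Function.Injective nK := hinj₀.comp hnod1
  have hnK0 : ∀ v, nK v ≠ 0 := fun v => (map_ne_zero_iff _ hinj₀).2 (hnod2 v)
  let R : Polynomial K₀ := ∏ v : (Q ⊕ Z) ⊕ Fin j', (Polynomial.X - Polynomial.C (nK v))
  have hRm : R.Monic := Polynomial.monic_prod_of_monic _ _ fun v _ => Polynomial.monic_X_sub_C _
  have hRd : R.natDegree = Fintype.card (Q ⊕ Z) + j' := by
    rw [Polynomial.natDegree_prod_of_monic _ _ fun v _ => Polynomial.monic_X_sub_C _]
    simp only [Polynomial.natDegree_X_sub_C, Finset.sum_const, smul_eq_mul, mul_one,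
      Finset.card_univ]
    rw [Fintype.card_sum, Fintype.card_fin]
  have hRs : R.Separable := Polynomial.separable_prod_X_sub_C_iff.2 hnKinj
  obtain ⟨B, hB, hBc⟩ := sep_c ((orb y).erase y) (fun q => aeval lK q - aeval lK y)
    (fun q hq => sub_ne_zero.2 (hlδ q (Finset.mem_of_mem_erase hq) y (y_mem_orb y)
      (Finset.ne_of_mem_erase hq)))
    (fun q hq q' hq' hne h => hlδ q (Finset.mem_of_mem_erase hq) q' (Finset.mem_of_mem_erase hq')
      hne (sub_left_injective h)) R hRs hRm.ne_zero
  obtain ⟨c, hc0', hcB⟩ : ∃ c : K, c ≠ 0 ∧ algebraMap K K₀ c ∉ B := by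
    have hinf : Infinite K := inferInstance
    obtain ⟨cc, -, hcc⟩ := exists_nat_avoid K ({0} ∪ (algebraMap K K₀) ⁻¹' B)
      ((Set.finite_singleton _).union (hB.preimage hinjK.injOn))
    exact ⟨cc 0, fun h => hcc 0 (Or.inl h), fun h => hcc 0 (Or.inr h)⟩
  let d : DB K₀ G (Q ⊕ Z) :=
    { l := lK
      c := algebraMap K K₀ c
      R := R
      nd := fun a => nK (Sum.inl a)
      w := ∏ a, (Polynomial.X - Polynomial.C (nK (Sum.inl a))) }
  have hDG : DG y d :=
    { hl := hlinj
      hδ := fun q hq hne => sub_ne_zero.2 (hlδ q hq y (y_mem_orb y) hne)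
      hc := (_root_.map_ne_zero _).2 hc0'
      hR := hRm
      hR0 := by
        change R.eval 0 ≠ 0
        rw [Polynomial.eval_prod]
        refine Finset.prod_ne_zero_iff.2 fun v _ => ?_
        simp only [Polynomial.eval_sub, Polynomial.eval_X, Polynomial.eval_C, zero_sub,
          neg_ne_zero]
        exact hnK0 _
      hnd := hnKinj.comp Sum.inl_injective
      hndR := fun a => by
        change R.eval (nK (Sum.inl a)) = 0
        rw [Polynomial.eval_prod]
        refine Finset.prod_eq_zero (Finset.mem_univ (Sum.inl a)) ?_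
        rw [Polynomial.eval_sub, Polynomial.eval_X, Polynomial.eval_C, sub_self]
      hw := rfl }
  -- the section and the nodes with inertia
  choose sec hsec using hα
  have hmemc : ∀ (ρ : L ≃ₐ[K] L) (g : α.ker), sec ρ * g * (sec ρ)⁻¹ ∈ α.ker := fun ρ g =>
    (inferInstance : α.ker.Normal).conj_mem _ g.2 _
  let m : ND K₀ G Q :=
    { hh := fun q => sec (res q.1) * q.2 * (sec (res q.1))⁻¹
      ζ := fun q => algebraMap L' K₀ (q.1 ζ)
      e := e }
  have hNG : NG α.ker m :=
    { he0 := he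
      hhe := fun q => by
        change (sec (res q.1) * q.2 * (sec (res q.1))⁻¹) ^ e = 1
        have h1 : ((q.2 : G)) ^ e = 1 := by
          have h2 := congrArg Subtype.val (hge q.2)
          exact h2
        rw [conj_pow, h1, mul_one, mul_inv_cancel]
      hζ := fun q => (hζ.map_of_injective (f := q.1) q.1.injective).map_of_injective hinj₀
      hmem := fun q => hmemc _ _
      hsurj := fun g => ⟨(1, ⟨(sec 1)⁻¹ * g * sec 1, by
        have h1 := (inferInstance : α.ker.Normal).conj_mem _ g.2 (sec 1)⁻¹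
        rwa [inv_inv] at h1⟩), by
        change sec (res 1) * ((sec 1)⁻¹ * g * sec 1) * (sec (res 1))⁻¹ = g
        rw [map_one]
        group⟩ }
  let β : (L' ≃ₐ[K] L') → Q ⊕ Z → G := fun ρ =>
    Sum.elim (fun q => sec (res (ρ * q.1)) * (sec (res q.1))⁻¹) (βZ ρ)
  have hβ : ∀ ρ ρ' a, β (ρ * ρ') a = β ρ (πA ρ' a) * β ρ' a := by
    intro ρ ρ' a
    rcases a with q | z
    · change sec (res (ρ * ρ' * q.1)) * (sec (res q.1))⁻¹ =
        sec (res (ρ * (ρ' * q.1))) * (sec (res (ρ' * q.1)))⁻¹ *
          (sec (res (ρ' * q.1)) * (sec (res q.1))⁻¹)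
      rw [mul_assoc ρ]
      group
    · exact hβZ ρ ρ' z
  have hαb : ∀ (ρ : L' ≃ₐ[K] L') (a : Q ⊕ Z), α (β ρ a) = res ρ := by
    intro ρ a
    rcases a with q | z
    · change α (sec (res (ρ * q.1)) * (sec (res q.1))⁻¹) = res ρ
      rw [map_mul, map_inv, hsec, hsec, map_mul, mul_inv_cancel_right]
    · exact hαβ ρ z
  have hy0 : ∀ (f : K₀ ≃ₐ[K] K₀) (β : G),
      (∀ a : L, f (algebraMap L K₀ a) = algebraMap L K₀ (α β a)) →
      rename (Equiv.mulLeft β) (MvPolynomial.map (f : K₀ →+* K₀) y) = y := by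
    intro f β hf
    rw [hy]
    exact yb_si α c₀ (f : K₀ →+* K₀) β hf
  have hSI : ∀ (f : K₀ ≃ₐ[K] K₀) (ρ : L' ≃ₐ[K] L'),
      (∀ a, f (algebraMap L' K₀ a) = algebraMap L' K₀ (ρ a)) →
      SIA (f : K₀ →+* K₀) (πA ρ) (permQ ρ) (β ρ) y d m := by
    intro f ρ hf
    have hfn : ∀ v : (Q ⊕ Z) ⊕ Fin j', f (nK v) = nK (πV ρ v) := by
      intro v
      change f (algebraMap L' K₀ (nod v)) = _
      rw [hf, hnod3]
    exact
      { hy := fun a => hy0 f _ (fun x => by
          change f (algebraMap L' K₀ (algebraMap L L' x)) =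
            algebraMap L' K₀ (algebraMap L L' _)
          rw [hf, hαb]
          congr 1
          exact (AlgEquiv.restrictNormal_commutes ρ L x).symm)
        hc := f.commutes c
        hR := by
          change R.map (f : K₀ →+* K₀) = R
          simp only [R]
          rw [Polynomial.map_prod]
          conv_rhs => rw [← Equiv.prod_comp (πV ρ)]
          refine Finset.prod_congr rfl fun v _ => ?_
          rw [Polynomial.map_sub, Polynomial.map_X, Polynomial.map_C]
          congr 2
          exact hfn v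
        hnd := fun a => hfn (Sum.inl a)
        hπ := fun q => rfl
        hπ' := fun p => ⟨_, rfl⟩
        hh := fun q => by
          change sec (res (ρ * q.1)) * q.2 * (sec (res (ρ * q.1)))⁻¹ =
            sec (res (ρ * q.1)) * (sec (res q.1))⁻¹ * (sec (res q.1) * q.2 * (sec (res q.1))⁻¹) *
              (sec (res (ρ * q.1)) * (sec (res q.1))⁻¹)⁻¹
          group
        hζ := fun q => by
          change f (algebraMap L' K₀ (q.1 ζ)) = algebraMap L' K₀ ((ρ * q.1) ζ)
          rw [hf]
          rfl }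
  have hne : Nonempty (Q ⊕ Z) := ⟨Sum.inl (1, 1)⟩
  obtain ⟨N, i1, i2, i3, ξ, hξ⟩ := exists_big K₀ ((Q ⊕ ((Q ⊕ Z) × G)) ⊕ (Unit ⊕
    (Option (Fin (Fintype.card G)) ⊕ Option (Fin (Fintype.card G)))))
  let _ : Algebra K N := ((algebraMap K₀ N).comp (algebraMap K K₀)).toAlgebra
  let _ : Algebra L N := ((algebraMap K₀ N).comp (algebraMap L K₀)).toAlgebra
  let _ : Algebra L' N := ((algebraMap K₀ N).comp (algebraMap L' K₀)).toAlgebra
  have hT1 : IsScalarTower K K₀ N := IsScalarTower.of_algebraMap_eq fun x => rfl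
  have hT2 : IsScalarTower L K₀ N := IsScalarTower.of_algebraMap_eq fun x => rfl
  have hT2' : IsScalarTower L' K₀ N := IsScalarTower.of_algebraMap_eq fun x => rfl
  have hT3 : IsScalarTower K L N := IsScalarTower.of_algebraMap_eq fun x => by
    change algebraMap K₀ N (algebraMap K K₀ x) = algebraMap K₀ N (algebraMap L K₀ _)
    rw [← IsScalarTower.algebraMap_apply K L K₀]
  have hT3' : IsScalarTower K L' N := IsScalarTower.of_algebraMap_eq fun x => by
    change algebraMap K₀ N (algebraMap K K₀ x) = algebraMap K₀ N (algebraMap L' K₀ _)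
    rw [← IsScalarTower.algebraMap_apply K L' K₀]
  obtain ⟨E, a1, a2, a3, a4, a5, F, b1, b2, b3, b4, b5, b6, b7, b8, γ, hγ1, hγ2⟩ :=
    sym_core (K := K) (L := L) (L' := L') (K₀ := K₀) (N := N) α
      (fun ρ => ⟨sec ρ, hsec ρ⟩) hYD hG3 hDG hNG Ψ hm hΨ T hT
      (hBc _ ((_root_.map_ne_zero _).2 hc0') hcB) M hJM (by rw [hTdef]; exact hTM)
      (by change 2 + R.natDegree = M; rw [hRd]; exact hj') n hn3
      (by rw [hdeg, ← hd1]; exact hDM) permQ πA β hβ hSI hy0 ξ hξ
  exact ⟨_, inferInstance, E, a1, a2, a3, a4, a5, F, b1, b2, b3, b4, b5, b6, b7, b8, γ, hγ1, hγ2⟩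

end fin

end Pool.Agent.N600.NS
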