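import Mathlib
import Pool.Agent.N600.NS.Pack

/-!
# The index theorem: sufficiency
-/

set_option autoImplicit false

namespace Pool.Agent.N600.NS

open MvPolynomial
open Pool.Agent.H391R2 hiding PhiP_eval_prod Phi_eval_prod Sol SolP SolP_Pc SolP_map SolP_mulLeft
  SolP_of_map SolP_root Sol_map Sol_mulLeft Sol_root aeval_mem_orb aeval_mulLeft class_eq
  exists_Sol exists_SolP exists_psi indep_v main_abs mem_orb norm_theorem norm_theorem_aux nt_core
  orb orb_image pair_aut pair_indep pr psi_map qv qv_map rename_mem_orb rr rr_eq rr_map sol_place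
  stab_path tv tv_mulLeft uniq_of_y0 unique_v
open Pool.Agent.H391R2.T4

set_option linter.unusedSectionVars false

/-- The numbers. -/
theorem numbers7 (D T q : ℕ) (hD : 0 < D) (r : ℕ) (m : Fin r → ℕ) (f : Fin r → ℤ) (d : ℕ)
    (hf : ∑ i, (m i : ℤ) * f i = d) (hq : d ∣ q) :
    ∃ n₀ : ℕ, ∀ n ≥ n₀, d ∣ n → 3 ≤ n ∧ ∃ (a : Fin r → ℕ) (M : ℕ),
      q + ∑ i, m i * a i + 1 < M ∧ T * (q + ∑ i, m i * a i + 1) < M ∧
      D * M = n + (q + ∑ i, m i * a i) := by
  refine ⟨3 + D * ((T + 1) * (q + D * ∑ i, m i + 2) + 2), fun n hn hdn => ⟨by omega, ?_⟩⟩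
  obtain ⟨x, hx⟩ : d ∣ n + q := dvd_add hdn hq
  have hD' : (D : ℤ) ≠ 0 := by exact_mod_cast hD.ne'
  have hDpos : (0 : ℤ) < D := by exact_mod_cast hD
  let a : Fin r → ℕ := fun i => ((-(x : ℤ) * f i) % (D : ℤ)).toNat
  have ha : ∀ i, (a i : ℤ) = (-(x : ℤ) * f i) % (D : ℤ) := fun i =>
    Int.toNat_of_nonneg (Int.emod_nonneg _ hD')
  have haD : ∀ i, a i ≤ D := by
    intro i
    have h1 := Int.emod_lt_of_pos (-(x : ℤ) * f i) hDpos
    rw [← ha] at h1
    exact_mod_cast h1.le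
  have hJ : ∑ i, m i * a i ≤ D * ∑ i, m i := by
    rw [Finset.mul_sum]
    refine Finset.sum_le_sum fun i _ => ?_
    rw [mul_comm D]
    exact Nat.mul_le_mul_left _ (haD i)
  have hdvd : D ∣ n + (q + ∑ i, m i * a i) := by
    have h1 : (D : ℤ) ∣ ((n + (q + ∑ i, m i * a i) : ℕ) : ℤ) := by
      have h2 : ((n + (q + ∑ i, m i * a i) : ℕ) : ℤ) =
          (D : ℤ) * (-∑ i, (m i : ℤ) * ((-(x : ℤ) * f i) / (D : ℤ))) := by
        have h3 : ((n + q : ℕ) : ℤ) = (d : ℤ) * x := by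
          rw [hx]
          push_cast
          ring
        have h4 : ∀ i, (m i : ℤ) * (a i : ℤ) = -(x : ℤ) * ((m i : ℤ) * f i) -
            (D : ℤ) * ((m i : ℤ) * ((-(x : ℤ) * f i) / (D : ℤ))) := by
          intro i
          rw [ha, Int.emod_def]
          ring
        have h5 : ((∑ i, m i * a i : ℕ) : ℤ) = -(x : ℤ) * d -
            (D : ℤ) * ∑ i, (m i : ℤ) * ((-(x : ℤ) * f i) / (D : ℤ)) := by
          push_cast
          simp only [h4]
          rw [Finset.sum_sub_distrib, ← Finset.mul_sum, ← Finset.mul_sum, hf]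
        have h6 : ((n + (q + ∑ i, m i * a i) : ℕ) : ℤ) = ((n + q : ℕ) : ℤ) +
            ((∑ i, m i * a i : ℕ) : ℤ) := by
          push_cast
          ring
        rw [h6, h3, h5]
        ring
      rw [h2]
      exact dvd_mul_right _ _
    exact_mod_cast h1
  obtain ⟨M, hM⟩ := hdvd
  refine ⟨a, M, ?_, ?_, hM.symm⟩
  · have h1 : D * ((T + 1) * (q + D * ∑ i, m i + 2) + 2) < D * M := by omega
    have h2 : (T + 1) * (q + D * ∑ i, m i + 2) + 2 < M := Nat.lt_of_mul_lt_mul_left h1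
    nlinarith
  · have h1 : D * ((T + 1) * (q + D * ∑ i, m i + 2) + 2) < D * M := by omega
    have h2 : (T + 1) * (q + D * ∑ i, m i + 2) + 2 < M := Nat.lt_of_mul_lt_mul_left h1
    have h3 : T * (q + ∑ i, m i * a i + 1) ≤ T * (q + D * ∑ i, m i + 1) :=
      Nat.mul_le_mul_left _ (by omega)
    have h4 : T * (q + D * ∑ i, m i + 1) ≤ (T + 1) * (q + D * ∑ i, m i + 2) :=
      Nat.mul_le_mul (by omega) (by omega)
    omega

section main

variable (K L : Type) [Field K] [CharZero K] [Field L] [Algebra K L]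
  [FiniteDimensional K L] [IsGalois K L] (B : Type) [Group B] (α : B →* (L ≃ₐ[K] L))

/-- `α` has a weak solution over `L`. -/
theorem card_mem_degs : Nat.card (L ≃ₐ[K] L) ∈ Degs K L B α := by
  refine ⟨L, inferInstance, inferInstance, inferInstance, ?_, ?_⟩
  · rw [IsGalois.card_aut_eq_finrank]
  · refine ⟨L, inferInstance, inferInstance, inferInstance, inferInstance, inferInstance,
      inferInstance, inferInstance, inferInstance, 1, fun σ x => ?_⟩
    rw [MonoidHom.one_apply, map_one]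
    exact σ.commutes x

/-- The index of the embedding problem divides `n`. -/
def IdxDvd (n : ℕ) : Prop := ∀ d : ℕ, (∀ m ∈ Degs K L B α, d ∣ m) → d ∣ n

open Classical in
/-- **The index theorem**, sufficiency: if the index of the embedding problem divides `n`, and `n`
is large, the symmetric fibre power has a regular solution. -/
theorem reg_index [Finite B] (hα : Function.Surjective α) : ∃ n₀ : ℕ, ∀ n ≥ n₀,
    IdxDvd K L B α n → 3 ≤ n ∧ RegSol K L (SymEP α n) (symProj α n) := by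
  have hk0 : 0 < Nat.card α.ker := Nat.card_pos
  have hs0 : 0 < Nat.card (L ≃ₐ[K] L) := Nat.card_pos
  have hg : Nat.card B = Nat.card (L ≃ₐ[K] L) * Nat.card α.ker := by
    rw [Subgroup.card_eq_card_quotient_mul_card_subgroup α.ker,
      Nat.card_congr (QuotientGroup.quotientKerEquivOfSurjective α hα).toEquiv]
  have hkg : Nat.card α.ker ≤ Nat.card B := by
    rw [hg]
    exact Nat.le_mul_of_pos_left _ hs0
  -- the index
  obtain ⟨d, hd1, r, g, f, hf⟩ : ∃ (d : ℕ), (∀ m ∈ Degs K L B α, d ∣ m) ∧ ∃ (r : ℕ)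
      (g : Fin r → Degs K L B α) (f : Fin r → ℤ), ∑ i, ((g i : ℕ) : ℤ) * f i = d := by
    let I : Ideal ℤ := Ideal.span ((fun m : ℕ => (m : ℤ)) '' Degs K L B α)
    obtain ⟨d₀, hd₀⟩ : ∃ d₀ : ℤ, I = Ideal.span {d₀} := (IsPrincipalIdealRing.principal I).1
    refine ⟨d₀.natAbs, fun m hm => ?_, ?_⟩
    · have h1 : (m : ℤ) ∈ I := Ideal.subset_span ⟨m, hm, rfl⟩
      rw [hd₀, Ideal.mem_span_singleton] at h1
      exact Int.natAbs_dvd_natAbs.2 h1
    · have h1 : (d₀.natAbs : ℤ) ∈ I := by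
        rw [hd₀, Ideal.mem_span_singleton]
        exact Int.dvd_natAbs.2 (dvd_refl _)
      obtain ⟨r, f, g, hfg⟩ := Submodule.mem_span_set'.1 h1
      choose g' hg' using fun i => (g i).2
      refine ⟨r, fun i => ⟨g' i, (hg' i).1⟩, f, ?_⟩
      rw [← hfg]
      refine Finset.sum_congr rfl fun i _ => ?_
      rw [smul_eq_mul, mul_comm, ← (hg' i).2]
  -- the big extension
  choose S hS hpack using fun i : Fin r => pack_degs α hα (g i) (g i).2
  obtain ⟨ζ₀, hζ₀⟩ : ∃ ζ₀ : AlgebraicClosure L, IsPrimitiveRoot ζ₀ (3 * Nat.card α.ker) := by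
    have hcL : CharZero L := charZero_of_injective_algebraMap (algebraMap K L).injective
    have hcΩ : CharZero (AlgebraicClosure L) :=
      charZero_of_injective_algebraMap (algebraMap L (AlgebraicClosure L)).injective
    have : NeZero (3 * Nat.card α.ker) := ⟨by omega⟩
    exact HasEnoughRootsOfUnity.exists_primitiveRoot (AlgebraicClosure L) _
  obtain ⟨L', i1, i2, i3, i4, i5, i6, j, hj⟩ := exists_big_gal (K := K) (L := L)
    (insert ζ₀ (Finset.univ.biUnion S))
  obtain ⟨ζ, hζ⟩ := hj ζ₀ (Finset.mem_insert_self _ _)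
  have hζp : IsPrimitiveRoot ζ (3 * Nat.card α.ker) := by
    have h1 : IsPrimitiveRoot (j ζ) (3 * Nat.card α.ker) := by rw [hζ]; exact hζ₀
    exact h1.of_map_of_injective j.toRingHom.injective
  have hpack' := fun i => hpack i L' j (fun x hx => hj x (Finset.mem_insert_of_mem
    (Finset.mem_biUnion.2 ⟨i, Finset.mem_univ i, hx⟩)))
  choose Z hZfin π β hβ hαβ hZcard using hpack'
  have hsdvd : Nat.card (L ≃ₐ[K] L) ∣ Nat.card (L' ≃ₐ[K] L') :=
    Subgroup.card_dvd_of_surjective (AlgEquiv.restrictNormalHom L)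
      (AlgEquiv.restrictNormalHom_surjective L')
  have hdq : d ∣ Nat.card (L' ≃ₐ[K] L') * (3 * Nat.card α.ker) :=
    ((hd1 _ (card_mem_degs K L B α)).trans hsdvd).mul_right _
  obtain ⟨n₀, hn₀⟩ := numbers7 (dg (3 * Nat.card B) (3 * Nat.card α.ker)) (tg (3 * Nat.card B))
    (Nat.card (L' ≃ₐ[K] L') * (3 * Nat.card α.ker)) (dg_pos _ _ (by omega) (by omega)) r
    (fun i => (g i : ℕ)) f d hf hdq
  refine ⟨n₀, fun n hn hdn => ?_⟩
  obtain ⟨hn3, a, M, hJM, hTM, hDM⟩ := hn₀ n hn (hdn d hd1)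
  refine ⟨hn3, ?_⟩
  have hcard : Nat.card (Σ i : Fin r, Z i × Fin (a i)) = ∑ i, (g i : ℕ) * a i := by
    rw [Nat.card_sigma]
    refine Finset.sum_congr rfl fun i _ => ?_
    rw [Nat.card_prod, hZcard, Nat.card_eq_fintype_card (α := Fin (a i)), Fintype.card_fin]
  let πT : (L' ≃ₐ[K] L') →* Equiv.Perm (Σ i : Fin r, Z i × Fin (a i)) :=
    { toFun := fun ρ => Equiv.sigmaCongrRight fun i =>
        Equiv.prodCongr (π i ρ) (Equiv.refl (Fin (a i)))
      map_one' := by
        apply Equiv.ext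
        rintro ⟨i, z, t⟩
        change (⟨i, (π i 1 z, t)⟩ : Σ i : Fin r, Z i × Fin (a i)) = ⟨i, (z, t)⟩
        rw [map_one]
        rfl
      map_mul' := fun ρ ρ' => by
        apply Equiv.ext
        rintro ⟨i, z, t⟩
        change (⟨i, (π i (ρ * ρ') z, t)⟩ : Σ i : Fin r, Z i × Fin (a i)) =
          ⟨i, (π i ρ (π i ρ' z), t)⟩
        rw [map_mul]
        rfl }
  refine reg_one K L L' B α hα ζ hζp (Σ i : Fin r, Z i × Fin (a i)) πT
    (fun ρ x => β x.1 ρ x.2.1) (fun ρ ρ' x => hβ x.1 ρ ρ' x.2.1) (fun ρ x => hαβ x.1 ρ x.2.1)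
    n M hn3 ?_ ?_ ?_
  · rw [hcard]
    exact hJM
  · rw [hcard]
    exact hTM
  · rw [hcard]
    exact hDM

end main

end Pool.Agent.N600.NS
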