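import Mathlib
import Pool.Agent.H81R2.BT.TaskA
import Pool.Agent.H391R2.T4.Red
import Pool.Agent.H391R2.T4.Hil

/-!
# Specialisation at a rational point: regular solutions give weak solutions
-/

set_option autoImplicit false

namespace Pool.Agent.N600.NS

open Polynomial
open scoped Pointwise
open Pool.Agent.H391R2.T4

/-- Specialisation of a Galois covering along `φ : A → K`. -/
theorem spec_point {K L : Type} [Field K] [CharZero K] [Field L] [Algebra K L]
    [FiniteDimensional K L] [IsGalois K L] {G : Type} [Group G] [Finite G]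
    (α : G →* (L ≃ₐ[K] L)) {A C : Type} [CommRing A] [CommRing C] [IsDomain A] [IsDomain C]
    [Algebra A C] [FaithfulSMul A C] [Algebra K A] [MulSemiringAction G C]
    [Algebra.IsInvariant A C G] [SMulCommClass G A C]
    (ψ : L →+* C) (hψK : ∀ k : K, ψ (algebraMap K L k) = algebraMap A C (algebraMap K A k))
    (hψ : ∀ (g : G) (x : L), g • ψ x = ψ (α g x))
    (φ : A →ₐ[K] K)
    (hI : ∀ Q : Ideal C, Q.IsPrime → (∀ a : A, algebraMap A C a ∈ Q ↔ φ a = 0) →
      ∀ g : G, g ≠ 1 → ∃ x : C, g • x - x ∉ Q) :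
    WeakSol K L G α := by
  classical
  let φ' : A →+* K := (φ : A →+* K)
  have hφ' : Function.Surjective φ' := fun k => ⟨algebraMap K A k, φ.commutes k⟩
  let P : Ideal A := RingHom.ker φ'
  have hPprime : P.IsPrime := RingHom.ker_isPrime φ'
  have hintegral : Algebra.IsIntegral A C := Algebra.IsInvariant.isIntegral A C G
  obtain ⟨⟨Q, hQprime, hQP⟩⟩ := Ideal.nonempty_primesOver (S := C) P
  have hφunder : ∀ a : A, algebraMap A C a ∈ Q ↔ φ a = 0 := by
    intro a
    have h4 : P = Q.under A := hQP.over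
    have h5 : a ∈ P ↔ φ a = 0 := RingHom.mem_ker
    rw [← h5, h4]
    rfl
  let j : A ⧸ P ≃+* K := RingHom.quotientKerEquivOfSurjective hφ'
  have hj : ∀ a : A, j (Ideal.Quotient.mk P a) = φ a := fun a => rfl
  let algPt : Algebra (A ⧸ P) K := j.toRingHom.toAlgebra
  have hPt : ∀ a : A, algebraMap (A ⧸ P) K (Ideal.Quotient.mk P a) = φ a := fun a => rfl
  have frPt : IsFractionRing (A ⧸ P) K :=
    (IsFractionRing.isFractionRing_iff_of_base_ringEquiv K j.symm).1 inferInstance
  -- the residue field
  have hPQinj : Function.Injective (algebraMap (A ⧸ P) (C ⧸ Q)) :=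
    FaithfulSMul.algebraMap_injective _ _
  have hPFinj : Function.Injective (algebraMap (A ⧸ P) (FractionRing (C ⧸ Q))) := by
    rw [IsScalarTower.algebraMap_eq (A ⧸ P) (C ⧸ Q) (FractionRing (C ⧸ Q))]
    exact (IsFractionRing.injective (C ⧸ Q) (FractionRing (C ⧸ Q))).comp hPQinj
  let algKtF : Algebra K (FractionRing (C ⧸ Q)) :=
    (IsFractionRing.lift (K := K) hPFinj).toAlgebra
  have towPKtF : IsScalarTower (A ⧸ P) K (FractionRing (C ⧸ Q)) := by
    apply IsScalarTower.of_algebraMap_eq
    intro x
    exact (IsFractionRing.lift_algebraMap hPFinj x).symm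
  have hKtF : ∀ a : A, algebraMap K (FractionRing (C ⧸ Q)) (φ a) =
      algebraMap (C ⧸ Q) (FractionRing (C ⧸ Q)) (Ideal.Quotient.mk Q (algebraMap A C a)) := by
    intro a
    rw [← hPt, ← IsScalarTower.algebraMap_apply (A ⧸ P) K (FractionRing (C ⧸ Q)),
      IsScalarTower.algebraMap_apply (A ⧸ P) (C ⧸ Q) (FractionRing (C ⧸ Q))]
    rfl
  let algLF : Algebra L (FractionRing (C ⧸ Q)) :=
    ((algebraMap (C ⧸ Q) (FractionRing (C ⧸ Q))).comp ((Ideal.Quotient.mk Q).comp ψ)).toAlgebra
  have hLF : ∀ x : L, algebraMap L (FractionRing (C ⧸ Q)) x =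
      algebraMap (C ⧸ Q) (FractionRing (C ⧸ Q)) (Ideal.Quotient.mk Q (ψ x)) := fun _ => rfl
  have towKLF : IsScalarTower K L (FractionRing (C ⧸ Q)) := by
    apply IsScalarTower.of_algebraMap_eq
    intro k
    have h1 : k = φ (algebraMap K A k) := (φ.commutes k).symm
    rw [hLF, hψK, ← hKtF, ← h1]
  -- Galois
  have hnormal : Normal K (FractionRing (C ⧸ Q)) :=
    Ideal.IsFractionRing.normal G P Q K (FractionRing (C ⧸ Q))
  have halg : Algebra.IsAlgebraic K (FractionRing (C ⧸ Q)) := hnormal.toIsAlgebraic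
  have hgal : IsGalois K (FractionRing (C ⧸ Q)) := { __ := hnormal }
  have hfd : FiniteDimensional K (FractionRing (C ⧸ Q)) :=
    Ideal.IsFractionRing.finite_of_isInvariant G P Q K (FractionRing (C ⧸ Q))
  let st : MulAction.stabilizer G Q →*
      (FractionRing (C ⧸ Q) ≃ₐ[K] FractionRing (C ⧸ Q)) :=
    IsFractionRing.stabilizerHom G P Q K (FractionRing (C ⧸ Q))
  have hst : Function.Surjective st := IsFractionRing.stabilizerHom_surjective G P Q _ _
  have hstmk : ∀ (σ : MulAction.stabilizer G Q) (x : C),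
      st σ (algebraMap (C ⧸ Q) (FractionRing (C ⧸ Q)) (Ideal.Quotient.mk Q x)) =
      algebraMap (C ⧸ Q) (FractionRing (C ⧸ Q)) (Ideal.Quotient.mk Q (σ.val • x)) :=
    fun σ x => IsFractionRing.stabilizerHom_apply_apply_mk G P Q _ _ σ x
  have hinjF : Function.Injective (algebraMap (C ⧸ Q) (FractionRing (C ⧸ Q))) :=
    IsFractionRing.injective (C ⧸ Q) (FractionRing (C ⧸ Q))
  have hstinj : Function.Injective st := by
    rw [injective_iff_map_eq_one]
    intro g hg
    by_contra hne
    have hne' : (g : G) ≠ 1 := fun h => hne (Subtype.ext h)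
    obtain ⟨x, hx⟩ := hI Q hQprime hφunder g hne'
    apply hx
    rw [← Ideal.Quotient.eq]
    apply hinjF
    rw [← hstmk, hg]
    rfl
  have hstL : ∀ (σ : MulAction.stabilizer G Q) (x : L),
      st σ (algebraMap L (FractionRing (C ⧸ Q)) x) =
      algebraMap L (FractionRing (C ⧸ Q)) (α σ.val x) := by
    intro σ x
    rw [hLF, hLF, hstmk, hψ]
  let E1 : MulAction.stabilizer G Q ≃* (FractionRing (C ⧸ Q) ≃ₐ[K] FractionRing (C ⧸ Q)) :=
    MulEquiv.ofBijective st ⟨hstinj, hst⟩
  have hE1 : ∀ σ, E1 σ = st σ := fun σ => rfl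
  refine ⟨FractionRing (C ⧸ Q), inferInstance, algKtF, hfd, hgal, algLF, towKLF,
    (MulAction.stabilizer G Q).subtype.comp E1.symm.toMonoidHom, ?_⟩
  intro ρ
  obtain ⟨σ, rfl⟩ := E1.surjective ρ
  apply AlgEquiv.ext
  intro x
  apply (algebraMap L (FractionRing (C ⧸ Q))).injective
  rw [AlgEquiv.restrictNormal_commutes, hE1, hstL]
  congr 2
  change α ((E1.symm (E1 σ) : MulAction.stabilizer G Q) : G) = _
  rw [E1.symm_apply_apply]

/-- Regular solutions give weak solutions (characteristic zero). -/
theorem weak_of_reg (K L : Type) [Field K] [CharZero K] [Field L] [Algebra K L]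
    [FiniteDimensional K L] [IsGalois K L] (G : Type) [Group G] [Finite G]
    (α : G →* (L ≃ₐ[K] L)) (h : RegSol K L G α) : WeakSol K L G α := by
  classical
  obtain ⟨F, i1, i2, i3, i4, i5, i6, i7, i8, γ, hαγ, _⟩ := h
  let A := K[X]
  let E := RatFunc K
  let algAF : Algebra A F := ((algebraMap E F).comp (algebraMap A E)).toAlgebra
  have towAEF : IsScalarTower A E F := IsScalarTower.of_algebraMap_eq fun _ => rfl
  have towKAF : IsScalarTower K A F := by
    apply IsScalarTower.of_algebraMap_eq
    intro k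
    rw [IsScalarTower.algebraMap_apply A E F, ← IsScalarTower.algebraMap_apply K A E,
      ← IsScalarTower.algebraMap_apply K E F]
  have hfr : IsFractionRing (integralClosure A F) F :=
    integralClosure.isFractionRing_of_finite_extension E F
  let act : MulSemiringAction (F ≃ₐ[E] F) (integralClosure A F) :=
    IsIntegralClosure.MulSemiringAction A E F (integralClosure A F)
  have hact : ∀ (g : F ≃ₐ[E] F) (c : integralClosure A F),
      ((g • c : integralClosure A F) : F) = g (c : F) :=
    fun g c => algebraMap_galRestrict_apply A g c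
  have hinv : Algebra.IsInvariant A (integralClosure A F) (F ≃ₐ[E] F) :=
    Algebra.isInvariant_of_isGalois A E F (integralClosure A F)
  have hAF : Function.Injective (algebraMap A F) :=
    (algebraMap E F).injective.comp (IsFractionRing.injective A E)
  have hAC : Function.Injective (algebraMap A (integralClosure A F)) := by
    intro a b hab
    apply hAF
    exact congrArg (Subtype.val) hab
  have hfaith : FaithfulSMul A (integralClosure A F) :=
    (faithfulSMul_iff_algebraMap_injective A _).2 hAC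
  have hcomm : SMulCommClass (F ≃ₐ[E] F) A (integralClosure A F) :=
    ⟨fun g a c => map_smul (galRestrict A E F (integralClosure A F) g) a c⟩
  have hfaithG : FaithfulSMul (F ≃ₐ[E] F) (integralClosure A F) := by
    constructor
    intro g g' h
    apply (galRestrict A E F (integralClosure A F)).injective
    apply AlgEquiv.ext
    intro c
    exact h c
  -- the embedding of `L`
  have hLint : ∀ x : L, algebraMap L F x ∈ integralClosure A F := by
    intro x
    have h1 : IsIntegral K (algebraMap L F x) :=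
      (Algebra.IsIntegral.isIntegral (R := K) x).algebraMap
    exact h1.tower_top
  let ψ : L →+* integralClosure A F :=
    (algebraMap L F).codRestrict (integralClosure A F) hLint
  have hψval : ∀ x : L, ((ψ x : integralClosure A F) : F) = algebraMap L F x := fun _ => rfl
  let α' : (F ≃ₐ[E] F) →* (L ≃ₐ[K] L) := α.comp γ.toMonoidHom
  have hα' : ∀ (σ : F ≃ₐ[E] F) (x : L), σ (algebraMap L F x) = algebraMap L F (α' σ x) := hαγ
  have hψK : ∀ k : K, ψ (algebraMap K L k) =
      algebraMap A (integralClosure A F) (algebraMap K A k) := by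
    intro k
    apply Subtype.ext
    rw [hψval]
    change _ = algebraMap A F (algebraMap K A k)
    rw [← IsScalarTower.algebraMap_apply, ← IsScalarTower.algebraMap_apply]
  have hψ : ∀ (g : F ≃ₐ[E] F) (x : L), g • ψ x = ψ (α' g x) := by
    intro g x
    apply Subtype.ext
    rw [hact, hψval, hψval, hα']
  have hfinG : Finite (F ≃ₐ[E] F) := inferInstance
  obtain ⟨D, hD0, hD⟩ := Pool.Agent.H81R2.BT.exists_inertia_bad (A := A)
    (C := integralClosure A F) (G := F ≃ₐ[E] F)
  obtain ⟨a, ha⟩ : ∃ a : K, D.eval a ≠ 0 := by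
    by_contra hcon
    push Not at hcon
    apply hD0
    apply Polynomial.funext
    intro x
    rw [hcon x, eval_zero]
  obtain ⟨L', j1, j2, j3, j4, j5, j6, s, hs⟩ := spec_point α' ψ hψK hψ (aeval a : K[X] →ₐ[K] K) (by
      intro Q _ hQ g hg
      apply hD Q _ g hg
      rw [hQ]
      exact ha)
  exact ⟨L', j1, j2, j3, j4, j5, j6, γ.toMonoidHom.comp s, hs⟩

end Pool.Agent.N600.NS
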