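import Mathlib
import Pool.Agent.N600.NS.FinB
import Pool.Agent.N600.NS.SpecK
import Pool.Agent.N600.UK.Compl
import Pool.Agent.TH59.WX.UG
import Pool.Agent.TH59.WX.UH

/-!
# Embedding problems with kernel `G ≀ S_n`, where `|Out G|` divides `n`
-/

set_option autoImplicit false

namespace Pool.Agent.N600.NS

open Pool.Agent.H391R2 (Wr wr_mul_left wr_mul_right wr_inv_left)
open Pool.Agent.H391R2.T4 (RegSol SymEP symProj finite_wr HilbField)
open Pool.Agent.TH59.WX (exists_D reg_lift nb nb_mono ub ub_mono ub_le_fac card_mulAut_le wr_ext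
  finite_of_kernel hil_of_reg exists_gal_of)
open Pool.Agent.N600.UK (Out cls cls_eq_one cls_conj cm cm_inj Inn conj_inj)

set_option linter.unusedSectionVars false

/-- The bound. -/
theorem nb_le_fac (g b s : ℕ) (hg : 1 ≤ g) (hb : b ≤ g) (hs : s ≤ g) :
    nb (3 * b) (3 * b * s) ≤ ((3 * g + 2).factorial) ^ 3 := by
  refine le_trans ?_ (ub_le_fac g hg)
  refine le_trans ?_ (le_max_left _ _)
  refine nb_mono _ _ _ _ (by omega) ?_
  refine Nat.mul_le_mul (by omega) ?_
  refine hs.trans ?_
  exact Nat.le_self_pow (by omega) g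

section ker

variable (K L : Type) [Field K] [CharZero K] [Field L] [Algebra K L] [FiniteDimensional K L]
  [IsGalois K L]

theorem finite_mulAut (G : Type) [Group G] [Finite G] : Finite (MulAut G) :=
  Finite.of_injective (fun f : MulAut G => (f : G → G)) DFunLike.coe_injective

/-- **Embedding problems with kernel `G ≀ S_n`**, `|Out G|` divides `n`, characteristic zero. -/
theorem kernel_reg (G : Type) [Group G] [Finite G] [Nontrivial G]
    (hZ : ∀ z : G, (∀ g : G, z * g = g * z) → z = 1) (n : ℕ)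
    (hn : ((3 * Nat.card (MulAut G) + 2).factorial) ^ 3 ≤ n) (hd : Nat.card (Out G) ∣ n)
    (X : Type) [Group X] (β : X →* (L ≃ₐ[K] L)) (hβ : Function.Surjective β)
    (ι : Wr G n ≃* β.ker) : RegSol K L X β := by
  classical
  have hfA : Finite (MulAut G) := finite_mulAut G
  have hfO : Finite (Out G) := inferInstance
  have hGA : Nat.card G ≤ Nat.card (MulAut G) :=
    Nat.card_le_card_of_injective _ (conj_inj hZ)
  have hA1 : 1 ≤ Nat.card (MulAut G) := Nat.card_pos
  have hbig : 2 * (Nat.card G + 2) ≤ n := by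
    refine le_trans ?_ hn
    have h1 : 3 * Nat.card (MulAut G) + 2 ≤ (3 * Nat.card (MulAut G) + 2).factorial :=
      Nat.self_le_factorial _
    generalize (3 * Nat.card (MulAut G) + 2).factorial = f at h1 ⊢
    have h2 : 2 ≤ f := by omega
    have h3 : 4 * f ≤ f ^ 3 := by
      calc 4 * f = (2 * 2) * f := by ring
        _ ≤ (f * f) * f := Nat.mul_le_mul_right _ (Nat.mul_le_mul h2 h2)
        _ = f ^ 3 := by ring
    omega
  obtain ⟨D, -, hDc, hDin⟩ := exists_D (G := G) (n := n) hbig hZ
  have hn0 : 0 < n := by omega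
  let j₀ : Fin n := ⟨0, hn0⟩
  -- the action on the kernel
  let c : X →* MulAut (Wr G n) := (MulAut.congr ι.symm).toMonoidHom.comp MulAut.conjNormal
  have hc : ∀ w : Wr G n, c (ι w) = MulAut.conj w := by
    intro w
    apply MulEquiv.ext
    intro x
    change ι.symm (MulAut.conjNormal (ι w : X) (ι x)) = w * x * w⁻¹
    rw [MulEquiv.symm_apply_eq]
    apply Subtype.ext
    rw [MulAut.conjNormal_apply]
    simp only [map_mul, map_inv, Subgroup.coe_mul, Subgroup.coe_inv]
  let e : X →* Wr (MulAut G) n := D.comp c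
  have he : ∀ w : Wr G n, e (ι w) = cm G n w := by
    intro w
    change D (c (ι w)) = _
    rw [hc, hDc]
    rfl
  have hsame : ∀ x i, cls G ((e x).left i) = cls G ((e x).left j₀) := by
    intro x i
    obtain ⟨u, hu⟩ := hDin (c x) i j₀
    change cls G ((D (c x)).left i) = cls G ((D (c x)).left j₀)
    rw [hu, map_mul, cls_conj, one_mul]
  let ω : X →* Out G := MonoidHom.mk' (fun x => cls G ((e x).left j₀)) (fun x y => by
    change cls G ((e (x * y)).left j₀) = _
    rw [map_mul, wr_mul_left, map_mul, hsame y])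
  have hω : ∀ x i, cls G ((e x).left i) = ω x := hsame
  have hker : β.ker ≤ ω.ker := by
    intro x hx
    obtain ⟨w, hw⟩ := ι.surjective ⟨x, hx⟩
    have h1 : (ι w : X) = x := congrArg Subtype.val hw
    rw [MonoidHom.mem_ker, ← h1, ← hω _ j₀, he]
    exact cls_conj _
  let ωb : (L ≃ₐ[K] L) →* Out G := β.liftOfSurjective hβ ⟨ω, hker⟩
  have hωb : ∀ x, ωb (β x) = ω x := fun x =>
    MonoidHom.liftOfRightInverse_comp_apply β _ (Function.rightInverse_surjInv hβ)
      ⟨ω, hker⟩ x
  -- the field
  let L₀ := IntermediateField.fixedField ωb.ker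
  have hgal : IsGalois K L₀ := IsGalois.of_fixedField_normal_subgroup ωb.ker
  let res : (L ≃ₐ[K] L) →* (L₀ ≃ₐ[K] L₀) := AlgEquiv.restrictNormalHom L₀
  have hres : Function.Surjective res := AlgEquiv.restrictNormalHom_surjective L
  have hkerres : res.ker = ωb.ker := by
    ext σ
    rw [MonoidHom.mem_ker]
    constructor
    · intro h
      have h1 : σ ∈ L₀.fixingSubgroup := by
        rw [IntermediateField.mem_fixingSubgroup_iff]
        intro x hx
        have h2 := AlgEquiv.restrictNormal_commutes σ L₀ (⟨x, hx⟩ : L₀)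
        have h3 : σ.restrictNormal L₀ = 1 := h
        rw [h3] at h2
        exact h2.symm
      rw [IntermediateField.fixingSubgroup_fixedField] at h1
      exact h1
    · intro h
      apply AlgEquiv.ext
      intro x
      apply Subtype.ext
      have h1 := AlgEquiv.restrictNormal_commutes σ L₀ x
      exact h1.trans (x.2 ⟨σ, h⟩)
  let ω₀ : (L₀ ≃ₐ[K] L₀) →* Out G := res.liftOfSurjective hres ⟨ωb, hkerres.le⟩
  have hω₀ : ∀ σ, ω₀ (res σ) = ωb σ := fun σ =>
    MonoidHom.liftOfRightInverse_comp_apply res _ (Function.rightInverse_surjInv hres)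
      ⟨ωb, hkerres.le⟩ σ
  have hinj₀ : Function.Injective ω₀ := by
    rw [injective_iff_map_eq_one]
    intro ρ hρ
    obtain ⟨σ, rfl⟩ := hres ρ
    rw [hω₀] at hρ
    have h1 : σ ∈ res.ker := by rw [hkerres]; exact hρ
    exact h1
  -- the group
  let B : Subgroup (MulAut G × (L₀ ≃ₐ[K] L₀)) :=
    { carrier := {p | cls G p.1 = ω₀ p.2}
      one_mem' := by
        change cls G 1 = ω₀ 1
        rw [map_one, map_one]
      mul_mem' := by
        intro p q hp hq
        change cls G (p.1 * q.1) = ω₀ (p.2 * q.2)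
        rw [map_mul, map_mul, hp, hq]
      inv_mem' := by
        intro p hp
        change cls G (p.1⁻¹) = ω₀ (p.2⁻¹)
        rw [map_inv, map_inv, hp] }
  have hB : ∀ p, p ∈ B ↔ cls G p.1 = ω₀ p.2 := fun _ => Iff.rfl
  let α : B →* (L₀ ≃ₐ[K] L₀) := (MonoidHom.snd _ _).comp B.subtype
  have hα : Function.Surjective α := by
    intro ρ
    obtain ⟨a, ha⟩ := QuotientGroup.mk'_surjective (Inn G) (ω₀ ρ)
    exact ⟨⟨(a, ρ), ha⟩, rfl⟩
  have hfB : Finite B := inferInstance
  have hcB : Nat.card B ≤ Nat.card (MulAut G) := by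
    refine Nat.card_le_card_of_injective (fun b : B => b.1.1) ?_
    intro b b' hbb
    have hbb' : b.1.1 = b'.1.1 := hbb
    apply Subtype.ext
    refine Prod.ext hbb' ?_
    apply hinj₀
    rw [← (hB _).1 b.2, ← (hB _).1 b'.2, hbb']
  have hcΓ : Nat.card (L₀ ≃ₐ[K] L₀) ≤ Nat.card (MulAut G) := by
    refine (Nat.card_le_card_of_injective _ hinj₀).trans ?_
    exact Nat.card_le_card_of_surjective _ (QuotientGroup.mk'_surjective (Inn G))
  have hdΓ : Nat.card (L₀ ≃ₐ[K] L₀) ∣ n := by
    refine dvd_trans ?_ hd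
    exact Subgroup.card_dvd_of_injective ω₀ hinj₀
  have hreg : RegSol K L₀ (SymEP α n) (symProj α n) :=
    reg_dvd K L₀ B α hα n ((nb_le_fac _ _ _ hA1 hcB hcΓ).trans hn) hdΓ
  -- the map
  let pf : X → SymEP α n := fun x =>
    ⟨(⟨fun i => ⟨((e x).left i, res (β x)), by
      rw [hB]
      change cls G ((e x).left i) = ω₀ (res (β x))
      rw [hω, hω₀, hωb]⟩, (e x).right⟩, res (β x)), fun i => rfl⟩
  let p : X →* SymEP α n := MonoidHom.mk' pf (fun x y => by
    apply Subtype.ext
    refine Prod.ext ?_ ?_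
    · refine wr_ext (fun i => ?_) ?_
      · apply Subtype.ext
        refine Prod.ext ?_ ?_
        · change (e (x * y)).left i = (((pf x).1.1 * (pf y).1.1).left i).1.1
          rw [wr_mul_left, map_mul, wr_mul_left]
          rfl
        · change res (β (x * y)) = (((pf x).1.1 * (pf y).1.1).left i).1.2
          rw [wr_mul_left, map_mul, map_mul]
          rfl
      · change (e (x * y)).right = (e x).right * (e y).right
        rw [map_mul]
        rfl
    · change res (β (x * y)) = res (β x) * res (β y)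
      rw [map_mul, map_mul])
  have hpl : ∀ x i, ((p x).1.1.left i).1.1 = (e x).left i := fun _ _ => rfl
  have hpr : ∀ x, (p x).1.1.right = (e x).right := fun _ => rfl
  have hp2 : ∀ x, (p x).1.2 = res (β x) := fun _ => rfl
  refine reg_lift (symProj α n) β p (fun _ => rfl) ?_ ?_ hreg
  · intro x hx1 hx2
    obtain ⟨w, hw⟩ := ι.surjective ⟨x, hx2⟩
    have h1 : (ι w : X) = x := congrArg Subtype.val hw
    have h2 : cm G n w = cm G n 1 := by
      rw [← he, h1, map_one]
      refine wr_ext (fun i => ?_) ?_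
      · rw [← hpl, hx1]
        rfl
      · rw [← hpr, hx1]
        rfl
    have h3 : w = 1 := cm_inj hZ h2
    rw [← h1, h3, map_one]
    rfl
  · intro s σ hs
    obtain ⟨x₀, rfl⟩ := hβ σ
    have hs2 : s.1.2 = res (β x₀) := hs
    set t := s * (p x₀)⁻¹ with ht
    have ht2 : t.1.2 = 1 := by
      change s.1.2 * ((p x₀).1.2)⁻¹ = 1
      rw [hp2, hs2, mul_inv_cancel]
    have htl : ∀ i, cls G (t.1.1.left i).1.1 = 1 := by
      intro i
      rw [(hB _).1 (t.1.1.left i).2]
      have h1 : (t.1.1.left i).1.2 = t.1.2 := t.2 i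
      rw [h1, ht2, map_one]
    have h1 : ∀ i, ∃ g : G, MulAut.conj g = (t.1.1.left i).1.1 := fun i =>
      (cls_eq_one _).1 (htl i)
    choose g hg using h1
    let w : Wr G n := ⟨g, t.1.1.right⟩
    have hβw : β (ι w : X) = 1 := (ι w).2
    have hpw : p (ι w : X) = t := by
      apply Subtype.ext
      refine Prod.ext ?_ ?_
      · refine wr_ext (fun i => ?_) ?_
        · apply Subtype.ext
          refine Prod.ext ?_ ?_
          · rw [hpl, he]
            exact hg i
          · have h2 : (t.1.1.left i).1.2 = t.1.2 := t.2 i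
            rw [h2, ht2]
            change res (β (ι w : X)) = 1
            rw [hβw, map_one]
        · rw [hpr, he]
          rfl
      · rw [hp2, hβw, map_one, ht2]
    refine ⟨(ι w : X) * x₀, ?_, ?_⟩
    · rw [map_mul, hpw, ht, inv_mul_cancel_right]
    · rw [map_mul, hβw, one_mul]

end ker

end Pool.Agent.N600.NS
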