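import Mathlib
import Pool.Agent.N600.NS.FinC
import Pool.Agent.H391R2.T4.Hil

/-!
# The index theorem: necessity
-/

set_option autoImplicit false

namespace Pool.Agent.N600.NS

open MvPolynomial
open Pool.Agent.H391R2 hiding PhiP_eval_prod Phi_eval_prod Sol SolP SolP_Pc SolP_map SolP_mulLeft
  SolP_of_map SolP_root Sol_map Sol_mulLeft Sol_root aeval_mem_orb aeval_mulLeft class_eq
  exists_Sol exists_SolP exists_psi indep_v main_abs mem_orb norm_theorem norm_theorem_aux nt_core
  orb orb_image pair_aut pair_indep pr psi_map qv qv_map rename_mem_orb rr rr_eq rr_map sol_place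
  stab_path tv tv_mulLeft uniq_of_y0 unique_v
open Pool.Agent.H391R2.T4

set_option linter.unusedSectionVars false

section nec

variable (K L : Type) [Field K] [Field L] [Algebra K L]
  [FiniteDimensional K L] [IsGalois K L] (B : Type) [Group B] (α : B →* (L ≃ₐ[K] L))

/-- If a symmetric fibre power has a weak solution, the index divides its degree. -/
theorem idx_of_weak (n : ℕ) (h : WeakSol K L (SymEP α n) (symProj α n)) : IdxDvd K L B α n := by
  classical
  intro d hd
  obtain ⟨L', i1, i2, i3, i4, i5, i6, s, hs⟩ := h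
  let p : (L' ≃ₐ[K] L') →* Equiv.Perm (Fin n) :=
    { toFun := fun ρ => (s ρ).1.1.right
      map_one' := by rw [map_one]; rfl
      map_mul' := fun ρ ρ' => by rw [map_mul]; rfl }
  let act : MulAction (L' ≃ₐ[K] L') (Fin n) := MulAction.compHom (Fin n) p
  have hsmul : ∀ (ρ : L' ≃ₐ[K] L') (i : Fin n), ρ • i = (s ρ).1.1.right i := fun _ _ => rfl
  have hdvd : ∀ i : Fin n, d ∣ Nat.card (MulAction.orbit (L' ≃ₐ[K] L') i) := by
    intro i
    let H := MulAction.stabilizer (L' ≃ₐ[K] L') i
    let K' := IntermediateField.fixedField H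
    have hK'H : K'.fixingSubgroup = H := IntermediateField.fixingSubgroup_fixedField H
    have hmem : ∀ σ : L' ≃ₐ[K'] L', (σ.restrictScalars K) ∈ H := by
      intro σ
      rw [← hK'H, IntermediateField.mem_fixingSubgroup_iff]
      intro x hx
      exact σ.commutes ⟨x, hx⟩
    have hfix : ∀ σ : L' ≃ₐ[K'] L', (s (σ.restrictScalars K)).1.1.right i = i := fun σ => hmem σ
    have h1 : Nat.card (MulAction.orbit (L' ≃ₐ[K] L') i) = Module.finrank K K' := by
      rw [Nat.card_coe_set_eq, ← MulAction.index_stabilizer,
        IntermediateField.finrank_eq_fixingSubgroup_index _ K', hK'H]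
    rw [h1]
    apply hd
    refine ⟨K', inferInstance, inferInstance, inferInstance, rfl, L', inferInstance, inferInstance,
      inferInstance, inferInstance, inferInstance, inferInstance, inferInstance, inferInstance,
      { toFun := fun σ => (s (σ.restrictScalars K)).1.1.left i
        map_one' := ?_
        map_mul' := ?_ }, ?_⟩
    · have h2 : (1 : L' ≃ₐ[K'] L').restrictScalars K = 1 := rfl
      rw [h2, map_one]
      rfl
    · intro σ σ'
      have h2 : (σ * σ').restrictScalars K = σ.restrictScalars K * σ'.restrictScalars K := rfl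
      rw [h2, map_mul]
      change ((s (σ.restrictScalars K)).1.1 * (s (σ'.restrictScalars K)).1.1).left i = _
      rw [wr_mul_left]
      have h3 : ((s (σ.restrictScalars K)).1.1.right)⁻¹ i = i := by
        rw [Equiv.Perm.inv_eq_iff_eq]
        exact (hfix σ).symm
      rw [h3]
    · intro σ x
      change σ (algebraMap L L' x) = algebraMap L L' (α ((s (σ.restrictScalars K)).1.1.left i) x)
      have h4 : α ((s (σ.restrictScalars K)).1.1.left i) = (s (σ.restrictScalars K)).1.2 :=
        (s (σ.restrictScalars K)).2 i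
      have h5 : (s (σ.restrictScalars K)).1.2 = (σ.restrictScalars K).restrictNormal L :=
        hs (σ.restrictScalars K)
      rw [h4, h5, AlgEquiv.restrictNormal_commutes]
      rfl
  have h1 : Nat.card (Fin n) = Nat.card (Σ ω : MulAction.orbitRel.Quotient (L' ≃ₐ[K] L') (Fin n),
      MulAction.orbit (L' ≃ₐ[K] L') ω.out) :=
    Nat.card_congr (MulAction.selfEquivSigmaOrbits (L' ≃ₐ[K] L') (Fin n))
  have := Fintype.ofFinite (MulAction.orbitRel.Quotient (L' ≃ₐ[K] L') (Fin n))
  rw [Nat.card_eq_fintype_card, Fintype.card_fin] at h1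
  rw [h1, Nat.card_sigma]
  exact Finset.dvd_sum fun ω _ => hdvd _

end nec

end Pool.Agent.N600.NS
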