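import Mathlib
import Pool.Agent.TH59.WX.UH

/-!
# Symmetric fibre powers of degree divisible by the order of the group split
-/

set_option autoImplicit false

namespace Pool.Agent.N600.NS

open Pool.Agent.H391R2 (Wr wr_mul_left wr_mul_right wr_inv_left)
open Pool.Agent.H391R2.T4 (RegSol SymEP symProj finite_wr HilbField WeakSol)
open Pool.Agent.TH59.WX (wr_ext reg_sym_unif)

set_option linter.unusedSectionVars false

/-- The section. -/
theorem sym_split {B Γ : Type} [Group B] [Group Γ] [Finite Γ] (α : B →* Γ)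
    (hα : Function.Surjective α) (m : ℕ) (hm : Nat.card Γ ∣ m) :
    ∃ s : Γ →* SymEP α m, ∀ γ, symProj α m (s γ) = γ := by
  classical
  have := Fintype.ofFinite Γ
  obtain ⟨k, hk⟩ := hm
  obtain ⟨e⟩ : Nonempty (Γ × Fin k ≃ Fin m) := by
    refine ⟨Fintype.equivOfCardEq ?_⟩
    rw [Fintype.card_prod, Fintype.card_fin, Fintype.card_fin, hk, Nat.card_eq_fintype_card]
  let t : Γ → B := Function.surjInv hα
  have ht' : ∀ γ, α (t γ) = γ := Function.surjInv_eq hα
  let π : Γ → Equiv.Perm (Fin m) := fun γ =>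
    e.symm.trans ((Equiv.prodCongr (Equiv.mulLeft γ) (Equiv.refl (Fin k))).trans e)
  have hπ : ∀ γ p, π γ (e p) = e (γ * p.1, p.2) := by
    intro γ p
    simp only [π, Equiv.trans_apply, Equiv.symm_apply_apply]
    rfl
  have hπ' : ∀ γ p, (π γ)⁻¹ (e p) = e (γ⁻¹ * p.1, p.2) := by
    intro γ p
    rw [Equiv.Perm.inv_eq_iff_eq, hπ]
    simp
  let f : Γ → Wr B m := fun γ =>
    ⟨fun i => t (e.symm i).1 * (t (γ⁻¹ * (e.symm i).1))⁻¹, π γ⟩
  have hf : ∀ γ i, α ((f γ).left i) = γ := by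
    intro γ i
    change α (t (e.symm i).1 * (t (γ⁻¹ * (e.symm i).1))⁻¹) = γ
    rw [map_mul, map_inv, ht', ht']
    group
  let F : Γ → SymEP α m := fun γ => ⟨(f γ, γ), hf γ⟩
  refine ⟨MonoidHom.mk' F fun γ δ => ?_, fun γ => rfl⟩
  apply Subtype.ext
  refine Prod.ext ?_ rfl
  change f (γ * δ) = f γ * f δ
  refine SemidirectProduct.ext (funext fun i => ?_) ?_
  · obtain ⟨p, rfl⟩ := e.surjective i
    rw [wr_mul_left]
    change t (e.symm (e p)).1 * (t ((γ * δ)⁻¹ * (e.symm (e p)).1))⁻¹ =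
      t (e.symm (e p)).1 * (t (γ⁻¹ * (e.symm (e p)).1))⁻¹ *
      (t (e.symm ((π γ)⁻¹ (e p))).1 * (t (δ⁻¹ * (e.symm ((π γ)⁻¹ (e p))).1))⁻¹)
    rw [hπ', Equiv.symm_apply_apply, Equiv.symm_apply_apply]
    have h1 : (γ * δ)⁻¹ * p.1 = δ⁻¹ * (γ⁻¹ * p.1) := by rw [mul_inv_rev, mul_assoc]
    rw [h1, mul_assoc, inv_mul_cancel_left]
  · change π (γ * δ) = π γ * π δ
    apply Equiv.ext
    intro i
    obtain ⟨p, rfl⟩ := e.surjective i
    rw [Equiv.Perm.mul_apply, hπ, hπ, hπ, mul_assoc]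

/-- Twofold symmetric fibre powers, over all fields. -/
theorem reg_twofold (K L : Type) [Field K] [Field L] [Algebra K L] [FiniteDimensional K L]
    [IsGalois K L] (B : Type) [Group B] [Finite B] (α : B →* (L ≃ₐ[K] L))
    (hα : Function.Surjective α) (m : ℕ) (hm : Nat.card (L ≃ₐ[K] L) ∣ m) (n : ℕ)
    (hn : ((3 * Nat.card (symProj α m).ker + 2).factorial) ^ 3 ≤ n) :
    RegSol K L (SymEP (symProj α m) n) (symProj (symProj α m) n) := by
  obtain ⟨s, hs⟩ := sym_split α hα m hm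
  have h1 : Finite (Wr B m) := finite_wr B m
  refine reg_sym_unif K L (SymEP α m) (symProj α m) ⟨L, inferInstance, inferInstance,
    inferInstance, inferInstance, Algebra.id L, IsScalarTower.of_algebraMap_eq (fun _ => rfl), s,
    fun ρ => ?_⟩ n hn
  rw [hs]
  apply AlgEquiv.ext
  intro x
  exact (AlgEquiv.restrictNormal_commutes ρ L x).symm

end Pool.Agent.N600.NS
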