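import Mathlib
import Pool.Agent.N600.UK.Main
import Pool.Agent.N600.NS.GZ
import Pool.Agent.N600.NS.Nec
import Pool.Agent.N600.NS.TwoA

/-!
# Nonsplit symmetric fibre powers: final forms
-/

set_option autoImplicit false

namespace Pool.Agent.N600.NS

open Nfff32c05
open Pool.Agent.H391R2 (Wr isRealizable_of isRealizable_quotient)
open Pool.Agent.H391R2.T4 (RegSol SymEP symProj WeakSol finite_wr HilbField)
open Pool.Agent.TH59.WX (hil_of_reg exists_gal_of finite_of_kernel card_mulAut_le)
open Pool.Agent.N600.UK (ProperSol CL Out Inn cl_of_center center_wr regularOver_of_regSol)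
open Pool.Agent.TH444.TW (RegularOver)

set_option linter.unusedSectionVars false

theorem weak_of_proper {K L X : Type} [Field K] [Field L] [Algebra K L] [Normal K L] [Group X]
    (α : X →* (L ≃ₐ[K] L)) (h : ProperSol K L X α) : WeakSol K L X α := by
  obtain ⟨F, i1, i2, i3, i4, i5, i6, γ, hγ⟩ := h
  exact ⟨F, i1, i2, i5, i6, i3, i4, γ.toMonoidHom, hγ⟩

/-- **The index theorem.** -/
theorem index_main (K L : Type) [Field K] [CharZero K] [Field L] [Algebra K L]
    [FiniteDimensional K L] [IsGalois K L] (B : Type) [Group B] [Finite B] (α : B →* (L ≃ₐ[K] L))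
    (hα : Function.Surjective α) :
    ∃ n₀ : ℕ, ∀ n ≥ n₀,
      (RegSol K L (SymEP α n) (symProj α n) ↔ IdxDvd K L B α n) ∧
      (WeakSol K L (SymEP α n) (symProj α n) ↔ IdxDvd K L B α n) ∧
      (HilbField K → (ProperSol K L (SymEP α n) (symProj α n) ↔ IdxDvd K L B α n)) := by
  obtain ⟨n₀, hn₀⟩ := reg_index K L B α hα
  refine ⟨n₀, fun n hn => ?_⟩
  have hW : Finite (Wr B n) := finite_wr B n
  have h1 : IdxDvd K L B α n → RegSol K L (SymEP α n) (symProj α n) := fun h => (hn₀ n hn h).2
  have h2 : RegSol K L (SymEP α n) (symProj α n) → WeakSol K L (SymEP α n) (symProj α n) :=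
    weak_of_reg K L _ _
  have h3 : WeakSol K L (SymEP α n) (symProj α n) → IdxDvd K L B α n :=
    idx_of_weak K L B α n
  refine ⟨⟨fun h => h3 (h2 h), h1⟩, ⟨h3, fun h => h2 (h1 h)⟩, fun hK => ⟨fun h => ?_, fun h => ?_⟩⟩
  · exact h3 (weak_of_proper _ h)
  · exact hil_of_reg K L _ hK _ (h1 h)

/-- The uniform form. -/
theorem uniform_main (K L : Type) [Field K] [CharZero K] [Field L] [Algebra K L]
    [FiniteDimensional K L] [IsGalois K L] (B : Type) [Group B] [Finite B] (α : B →* (L ≃ₐ[K] L))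
    (hα : Function.Surjective α) (n : ℕ) (hn : ((3 * Nat.card B + 2).factorial) ^ 3 ≤ n)
    (hd : Nat.card (L ≃ₐ[K] L) ∣ n) : RegSol K L (SymEP α n) (symProj α n) := by
  refine reg_dvd K L B α hα n (le_trans ?_ hn) hd
  exact nb_le_fac _ _ _ Nat.card_pos le_rfl (Nat.card_le_card_of_surjective α hα)

section ker

variable {I : Type} [Finite I] {G : I → Type} [∀ i, Group (G i)] [∀ i, Finite (G i)]
  [∀ i, Nontrivial (G i)] {n : I → ℕ} (hZ : ∀ i, Subgroup.center (G i) = ⊥)
  (hd : ∀ i, (MulAut.conj : G i →* MulAut (G i)).range.index ∣ n i)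
  (hn : ∀ i, ((3 * Nat.card (MulAut (G i)) + 2).factorial) ^ 3 ≤ n i)

include hZ hd hn

theorem gz_prod : GoodZ (∀ i, Wr (G i) (n i)) := by
  have hfin : ∀ i, Finite (Wr (G i) (n i)) := fun i => finite_wr (G i) (n i)
  refine gz_pi I _ (fun i => ?_) (fun i => ?_)
  · exact fun x hx => center_wr (cl_of_center (hZ i)) x hx
  · intro K L X _ _ _ _ _ _ _ α hα ⟨e⟩
    exact kernel_reg K L (G i) (cl_of_center (hZ i)) (n i) (hn i) (hd i) X α hα e.symm

/-- Realizability. -/
theorem kernel_real (K : Type) [Field K] [CharZero K] (hK : HilbField K)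
    (X : Type) [Group X] (N : Subgroup X) [N.Normal]
    (hN : Nonempty (N ≃* ∀ i, Wr (G i) (n i))) (hfin : Finite (X ⧸ N)) :
    IsRealizable K X ↔ IsRealizable K (X ⧸ N) := by
  have hfinT : ∀ i, Finite (Wr (G i) (n i)) := fun i => finite_wr (G i) (n i)
  have hfinN : Finite N := Finite.of_equiv _ hN.some.symm.toEquiv
  have hfinX : Finite X := Finite.of_subgroup_quotient N
  constructor
  · intro h
    obtain ⟨L, i1, i2, i3, i4, ⟨f⟩⟩ := exists_gal_of K X h
    exact isRealizable_quotient L ((QuotientGroup.mk' N).comp f.symm.toMonoidHom)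
      ((QuotientGroup.mk'_surjective N).comp f.symm.surjective)
  · intro h5
    obtain ⟨L, i1, i2, i3, i4, ⟨f⟩⟩ := exists_gal_of K (X ⧸ N) h5
    let β : X →* (L ≃ₐ[K] L) := f.toMonoidHom.comp (QuotientGroup.mk' N)
    have hβ : Function.Surjective β := f.surjective.comp (QuotientGroup.mk'_surjective N)
    have hker : β.ker = N := by
      ext x
      rw [MonoidHom.mem_ker]
      change f (QuotientGroup.mk' N x) = 1 ↔ x ∈ N
      rw [map_eq_one_iff f f.injective, QuotientGroup.mk'_apply, QuotientGroup.eq_one_iff]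
    have hreg : RegSol K L X β :=
      gz_prod hZ hd hn K L X β hβ ⟨(MulEquiv.subgroupCongr hker).trans hN.some⟩
    obtain ⟨F, j1, j2, j3, j4, j5, j6, γ, -⟩ := hil_of_reg K L X hK β hreg
    exact isRealizable_of F γ.symm

/-- Regular extensions. -/
theorem kernel_regular (K : Type) [Field K] [CharZero K]
    (X : Type) [Group X] (N : Subgroup X) [N.Normal]
    (hN : Nonempty (N ≃* ∀ i, Wr (G i) (n i))) (hfin : Finite (X ⧸ N)) :
    RegularOver K X ↔ RegularOver K (X ⧸ N) := by
  have hfinT : ∀ i, Finite (Wr (G i) (n i)) := fun i => finite_wr (G i) (n i)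
  have hfinN : Finite N := Finite.of_equiv _ hN.some.symm.toEquiv
  have hfinX : Finite X := Finite.of_subgroup_quotient N
  constructor
  · intro h1
    refine regularOver_of_regSol ?_
    exact Pool.Agent.N600.UK.reg_quot 1 1 (QuotientGroup.mk' N) (QuotientGroup.mk'_surjective N)
      (fun y => rfl) (Pool.Agent.TH444.TW.regSol_of_regularOver h1)
  · intro h1
    refine regularOver_of_regSol ?_
    refine gz_step 1 (fun σ => ⟨1, Pool.Agent.N600.UK.triv_aut _ _⟩) (X ⧸ N) (QuotientGroup.mk' N)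
      (QuotientGroup.mk'_surjective N) 1 (fun x => rfl)
      (Pool.Agent.TH444.TW.regSol_of_regularOver h1) ?_
    exact gz_iso (hN.some.symm.trans
      (MulEquiv.subgroupCongr (QuotientGroup.ker_mk' N).symm)) (gz_prod hZ hd hn)

end ker

end Pool.Agent.N600.NS
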