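import Mathlib
import Pool.Prelude.Def_F_b1b78ff3
import Pool.Agent.N600.NS.Main

/-!
# Statements
-/

set_option autoImplicit false

open Nfff32c05
open Pool.Agent.H391R2 (Wr)
open Pool.Agent.H391R2.T4 (HilbField hilb_numberField RegSol WeakSol SymEP symProj)
open Pool.Agent.N600.UK (ProperSol)
open Pool.Agent.TH444.TW (RegularOver)

namespace Pool.Agent.N600.NS

/-- The symmetric fibre power `SymEP α n → Gal(L/K)` has a regular solution. -/
def SymReg (K L B : Type) [Field K] [Field L] [Algebra K L] [Group B] (α : B →* (L ≃ₐ[K] L))
    (n : ℕ) : Prop := RegSol K L (SymEP α n) (symProj α n)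

/-- If `|Gal(L/K)|` divides `m` and `n` is large, the `n`-th symmetric fibre power of the `m`-th
symmetric fibre power of `α` has a regular solution. -/
def TwofoldTheorem (K L B : Type) [Field K] [Field L] [Algebra K L] [Group B]
    (α : B →* (L ≃ₐ[K] L)) : Prop :=
  ∀ m n : ℕ, Nat.card (L ≃ₐ[K] L) ∣ m → ((3 * Nat.card (symProj α m).ker + 2).factorial) ^ 3 ≤ n →
    SymReg K L (SymEP α m) (symProj α m) n

/-- The index theorem for the embedding problem `α : B → Gal(L/K)`: for all large `n` the symmetric
fibre power `SymEP α n` has a regular solution if and only if it has a weak solution, if and only if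
(`K` Hilbertian) it has a proper solution, if and only if the index of `α` divides `n`; there is
a regular solution if `|Gal(L/K)|` divides `n` and `n ≥ ((3 |B| + 2)!)^3`. -/
def IndexTheorem (K L B : Type) [Field K] [Field L] [Algebra K L] [FiniteDimensional K L]
    [IsGalois K L] [Group B] (α : B →* (L ≃ₐ[K] L)) : Prop :=
  (∃ n₀ : ℕ, ∀ n ≥ n₀,
    (SymReg K L B α n ↔ IdxDvd K L B α n) ∧
    (WeakSol K L (SymEP α n) (symProj α n) ↔ IdxDvd K L B α n) ∧
    (HilbField K → (ProperSol K L (SymEP α n) (symProj α n) ↔ IdxDvd K L B α n))) ∧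
  (∀ n : ℕ, ((3 * Nat.card B + 2).factorial) ^ 3 ≤ n → Nat.card (L ≃ₐ[K] L) ∣ n →
    SymReg K L B α n)

/-- If `X` has a normal subgroup `N ≃ T` of finite index, then `X` is realizable over a number field
(over a Hilbertian field of characteristic zero) if and only if `X / N` is, and the same holds for
regular extensions of `K(t)`, `K` a field of characteristic zero. -/
def ExtensionsRealizable (T : Type) [Group T] : Prop :=
  ∀ (X : Type) [Group X] (N : Subgroup X) [N.Normal], Nonempty (N ≃* T) → Finite (X ⧸ N) →
    (∀ (K : Type) [Field K] [NumberField K], IsRealizable K X ↔ IsRealizable K (X ⧸ N)) ∧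
    (∀ (K : Type) [Field K] [CharZero K], HilbField K →
      (IsRealizable K X ↔ IsRealizable K (X ⧸ N))) ∧
    (∀ (K : Type) [Field K] [CharZero K], RegularOver K X ↔ RegularOver K (X ⧸ N))

/-- Every embedding problem with kernel `T` over a field of characteristic zero has a regular
solution, and a proper solution if the field is Hilbertian. -/
def KernelsSolvable (T : Type) [Group T] : Prop :=
  ∀ (K L X : Type) [Field K] [CharZero K] [Field L] [Algebra K L] [FiniteDimensional K L]
    [IsGalois K L] [Group X] (α : X →* (L ≃ₐ[K] L)), Function.Surjective α →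
    Nonempty (α.ker ≃* T) → (HilbField K → ProperSol K L X α) ∧ RegSol K L X α

end Pool.Agent.N600.NS
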